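import Pool.Agent.Lib_MP_b9fedf_gh.SncGen
import Pool.Agent.Lib_MP_b9fedf_og.Elim
import Pool.Agent.Lib_MP_b9fedf_og.AlgInd

/-! [GH-K]: general hypersurfaces have normal crossings. -/

set_option autoImplicit false

namespace Pool.Agent.GH
open MvPolynomial Pool.Agent.GGL Pool.Agent.OG

/-- the universal form -/
private noncomputable def uf (n d : ℕ) {ι : Type} (i : ι) :
    MvPolynomial (Fin (n + 1)) (MvPolynomial (ι × Mon n d) ℚ) :=
  frm (fun m : Mon n d => (X (i, m) : MvPolynomial (ι × Mon n d) ℚ))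

/-- the equations -/
private noncomputable def PsiS (n d : ℕ) (ι : Type) [Fintype ι] :
    ι ⊕ Fin (n + 1) → MvPolynomial (Fin (n + 1) ⊕ ι) (MvPolynomial (ι × Mon n d) ℚ) :=
  Sum.elim (fun i => rename Sum.inl (uf n d i) * X (Sum.inr i))
    (fun j => ∑ i, X (Sum.inr i) * rename Sum.inl (pderiv j (uf n d i)))

private theorem map_uf {n d : ℕ} {ι : Type} (a : ι × Mon n d → ℂ) (i : ι) :
    map ((aeval a : MvPolynomial (ι × Mon n d) ℚ →ₐ[ℚ] ℂ) : MvPolynomial (ι × Mon n d) ℚ →+* ℂ)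
      (uf n d i) = frm (fun m => a (i, m)) := by
  unfold uf
  rw [map_frm]
  congr 1
  funext m
  simp

private theorem ev_ren {n d : ℕ} {ι : Type} (a : ι × Mon n d → ℂ) (w : Fin (n + 1) ⊕ ι → ℂ)
    (Q : MvPolynomial (Fin (n + 1)) (MvPolynomial (ι × Mon n d) ℚ)) :
    ev a w (rename Sum.inl Q) = eval (fun j => w (Sum.inl j))
      (map ((aeval a : MvPolynomial (ι × Mon n d) ℚ →ₐ[ℚ] ℂ) : MvPolynomial (ι × Mon n d) ℚ →+* ℂ)
        Q) := by
  unfold ev
  rw [eval₂_rename, eval_map]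
  rfl

private theorem ev_inl {n d : ℕ} {ι : Type} [Fintype ι] (a : ι × Mon n d → ℂ)
    (w : Fin (n + 1) ⊕ ι → ℂ) (i : ι) :
    ev a w (PsiS n d ι (Sum.inl i)) =
      eval (fun j => w (Sum.inl j)) (frm (fun m => a (i, m))) * w (Sum.inr i) := by
  have h := ev_ren a w (uf n d i)
  rw [map_uf] at h
  rw [← h]
  unfold PsiS ev
  rw [Sum.elim_inl, eval₂_mul, eval₂_X]

private theorem ev_inr {n d : ℕ} {ι : Type} [Fintype ι] (a : ι × Mon n d → ℂ)
    (w : Fin (n + 1) ⊕ ι → ℂ) (j : Fin (n + 1)) :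
    ev a w (PsiS n d ι (Sum.inr j)) =
      ∑ i, w (Sum.inr i) * eval (fun j => w (Sum.inl j)) (pderiv j (frm (fun m => a (i, m)))) := by
  have h : ∀ i, eval (fun j => w (Sum.inl j)) (pderiv j (frm (fun m => a (i, m)))) =
      ev a w (rename Sum.inl (pderiv j (uf n d i))) := by
    intro i
    rw [ev_ren, ← pderiv_map, map_uf]
  simp only [h]
  unfold PsiS ev
  rw [Sum.elim_inr, eval₂_sum]
  refine Finset.sum_congr rfl fun i _ => ?_
  rw [eval₂_mul, eval₂_X]

/-- [GH-K] Proof.  `OG.elim` with the variables `W = Fin (n + 1) ⊕ ι` (`x` and `lam`), the parameters `E = ι × Mon n d`, the equations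
`Ψ (inl i) = (frm (X (i, ·)) in the variables x) * lam i` and `Ψ (inr j) = ∑ i, lam i * ∂_j (frm (X (i, ·)))`, and the conclusions
`x j * lam i`; `a₀` from `exists_algInd`, `snc_crit_algInd`; then `snc_of_crit`.  (`ev a (Sum.elim x lam) (rename Sum.inl (frm (X (i, ·)))) =
eval x (frm (a i))`, with `map_frm` and `eval₂_rename`; the same for `pderiv`, `pderiv_map`.) -/
theorem snc_open {n d : ℕ} (hd : 1 ≤ d) (ι : Type) [Fintype ι] :
    ∃ S : MvPolynomial (ι × Mon n d) ℚ, S ≠ 0 ∧ ∀ a : ι → Mon n d → ℂ,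
      aeval (fun p : ι × Mon n d => a p.1 p.2) S ≠ 0 → Snc (fun i => frm (a i)) := by
  classical
  obtain ⟨a₀, ha₀⟩ := exists_algInd (ι × Mon n d)
  obtain ⟨s, D, hD, h⟩ := elim (PsiS n d ι)
    (fun p : ι × Fin (n + 1) => (X (Sum.inl p.2) * X (Sum.inr p.1) :
      MvPolynomial (Fin (n + 1) ⊕ ι) ℚ)) a₀ ha₀ (by
      intro w hw p
      have h1 := snc_crit_algInd hd (fun i m => a₀ (i, m)) ha₀ (fun j => w (Sum.inl j))
        (fun i => w (Sum.inr i))
        (fun i => by
          have := hw (Sum.inl i)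
          rwa [ev_inl] at this)
        (fun j => by
          have := hw (Sum.inr j)
          rwa [ev_inr] at this) p.1 p.2
      rw [map_mul, aeval_X, aeval_X]
      exact h1)
  refine ⟨D, hD, fun a ha => snc_of_crit _ fun x lam h1 h2 i j => ?_⟩
  have h3 := h (fun p : ι × Mon n d => a p.1 p.2) ha (Sum.elim x lam) (by
    intro t _
    rcases t with i | j
    · rw [ev_inl]
      exact h1 i
    · rw [ev_inr]
      exact h2 j) (i, j)
  rw [map_mul, aeval_X, aeval_X] at h3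
  exact h3

end Pool.Agent.GH
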