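import Pool.Agent.Lib_MP_b9fedf_gh.Main
import Pool.Agent.Lib_MP_b9fedf_lo.HypMult
import Pool.Agent.Lib_MP_b9fedf_sq.BinZero

/-! Varieties over projective space which are ramified over general hypersurfaces. -/

set_option autoImplicit false

namespace Pool.Agent.GH
open MvPolynomial Pool.Agent.GGL Pool.Agent.SQ Pool.Agent.QY Pool.Agent.Stat Pool.Agent.LO

/-- The hypersurface `P = 0` is multiple on the variety `V(S)` over `ℙⁿ`, `φ = [φ_0 : … : φ_n]`:
every holomorphic arc of `V(S)`, not contained in the base locus of `φ`, meets the divisor `P(φ) = 0`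
with multiplicity different from one (the multiplicity is computed after division by the common
zeros of the `φ_i` along the arc, the order of which is `c`). -/
def MultipleForm {m n : ℕ} (S : Set (MvPolynomial (Fin (m + 1)) ℂ))
    (φ : Fin (n + 1) → MvPolynomial (Fin (m + 1)) ℂ) (P : MvPolynomial (Fin (n + 1)) ℂ) : Prop :=
  ∀ u : ℂ → Fin (m + 1) → ℂ, AnalyticAt ℂ u 0 → u 0 ≠ 0 →
    (∀ᶠ ζ in nhds (0 : ℂ), ∀ p ∈ S, eval (u ζ) p = 0) →
    ∀ c : ℕ, (∀ i, (c : ℕ∞) ≤ analyticOrderAt (fun ζ => eval (u ζ) (φ i)) 0) →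
    (∃ i, analyticOrderAt (fun ζ => eval (u ζ) (φ i)) 0 = c) →
    analyticOrderAt (fun ζ => eval (u ζ) (aeval φ P)) 0 ≠ ((P.totalDegree * c + 1 : ℕ) : ℕ∞)

section
variable {n d : ℕ} {ι : Type} {b : ι → MvPolynomial (Fin (n + 1)) ℂ}

theorem Snc.ne_zero (h : Snc b) (i : ι) : b i ≠ 0 := by
  classical
  intro h0
  have h1 := h (fun _ => 1) (fun h => one_ne_zero (congrFun h 0)) {i} (by
    intro j hj
    rw [Finset.mem_singleton] at hj
    rw [hj, h0, map_zero])
  have h2 := h1.ne_zero ⟨i, Finset.mem_singleton_self i⟩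
  apply h2
  funext j
  show eval _ (pderiv j (b i)) = 0
  rw [h0, map_zero, map_zero]

theorem Snc.injective (hn : 1 ≤ n) (hd : 1 ≤ d) (hb : ∀ i, (b i).IsHomogeneous d) (h : Snc b) :
    Function.Injective b := by
  classical
  intro i j hij
  by_contra hne
  have h01 : (0 : Fin (n + 1)) ≠ Fin.last n := by
    intro h
    have := congrArg Fin.val h
    simp at this
    omega
  have hli : LinearIndependent ℂ ![(Pi.single 0 1 : Fin (n + 1) → ℂ),
      Pi.single (Fin.last n) 1] := by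
    rw [LinearIndependent.pair_iff]
    intro s t hst
    have h1 := congrFun hst 0
    have h2 := congrFun hst (Fin.last n)
    simp [Pi.single_apply, h01, Ne.symm h01] at h1 h2
    exact ⟨h1, h2⟩
  obtain ⟨α, β, hx, hx0⟩ := bin_zero hd (b i) (hb i) _ _ hli
  have h1 := h _ hx {i, j} (by
    intro l hl
    rw [Finset.mem_insert, Finset.mem_singleton] at hl
    rcases hl with rfl | rfl
    · exact hx0
    · rw [← hij]
      exact hx0)
  have h2 : (⟨i, Finset.mem_insert_self i _⟩ : ({i, j} : Finset ι)) =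
      ⟨j, Finset.mem_insert_of_mem (Finset.mem_singleton_self j)⟩ := h1.injective (by
    funext l
    show eval _ (pderiv l (b i)) = eval _ (pderiv l (b j))
    rw [hij])
  exact hne (congrArg (fun v : ({i, j} : Finset ι) => (v : ι)) h2)

/-- at most `n` members pass through a point -/
theorem Snc.card_le (hb : ∀ i, (b i).IsHomogeneous d) (h : Snc b) {x : Fin (n + 1) → ℂ}
    (hx : x ≠ 0) (B : Finset ι) (hB : ∀ i ∈ B, eval x (b i) = 0) : B.card ≤ n := by
  classical
  have h1 := h x hx B hB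
  let ψ : (Fin (n + 1) → ℂ) →ₗ[ℂ] ℂ := Fintype.linearCombination ℂ x
  have hψ : ∀ y, ψ y = ∑ j, y j * x j := fun y => by
    simp [ψ, Fintype.linearCombination_apply]
  have hψ0 : ψ ≠ 0 := by
    intro h0
    apply hx
    funext j
    have h2 := congrArg (fun l => l (Pi.single j 1)) h0
    simpa [hψ, Pi.single_apply] using h2
  have hker : Module.finrank ℂ (LinearMap.ker ψ) = n := by
    have h2 := LinearMap.finrank_range_add_finrank_ker ψ
    have h3 : LinearMap.range ψ = ⊤ := LinearMap.range_eq_top.mpr (LinearMap.surjective hψ0)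
    rw [h3, finrank_top, Module.finrank_self, Module.finrank_fin_fun] at h2
    omega
  have hmem : ∀ i : B, (fun j => eval x (pderiv j (b i))) ∈ LinearMap.ker ψ := by
    intro i
    rw [LinearMap.mem_ker, hψ]
    have h2 := congrArg (eval x) (hb i).sum_X_mul_pderiv
    rw [map_sum] at h2
    simp only [map_mul, eval_X, nsmul_eq_mul, map_natCast, hB i i.2, mul_zero] at h2
    rw [← h2]
    exact Finset.sum_congr rfl fun j _ => mul_comm _ _
  have h3 : LinearIndependent ℂ (fun i : B => (⟨_, hmem i⟩ : LinearMap.ker ψ)) := by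
    apply LinearIndependent.of_comp (LinearMap.ker ψ).subtype
    exact h1
  have h4 := h3.fintype_card_le_finrank
  rwa [Fintype.card_coe, hker] at h4

/-- the zero function -/
theorem Nbar_zero {r : ℝ} (hr : 1 ≤ r) : Nbar (fun _ => (0 : ℂ)) r = 0 := by
  unfold Nbar
  rcases hr.eq_or_lt with h1 | h1
  · subst h1
    apply finsum_mem_eq_zero_of_forall_eq_zero
    intro a ha
    have h2 : max 1 ‖a‖ = 1 := max_eq_left ha.1
    rw [h2]
    simp
  · apply finsum_mem_eq_zero_of_infinite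
    have h2 : (Metric.ball (0 : ℂ) 1).Infinite :=
      infinite_of_mem_nhds (0 : ℂ) (Metric.ball_mem_nhds _ one_pos)
    refine h2.mono fun a ha => ?_
    rw [mem_ball_zero_iff] at ha
    refine ⟨⟨by linarith, rfl⟩, ?_⟩
    rw [Function.mem_support, max_eq_left ha.le, div_one]
    exact (Real.log_pos h1).ne'

open scoped Classical in
/-- the level one second main theorem for the members which do not contain the curve -/
theorem level_U {t₁ t₂ : ℕ} [Fintype ι] [DecidableEq ι] (hn : 1 ≤ n) (hd : 1 ≤ d)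
    (ht₁ : 2 ≤ t₁) (ht₂ : 2 ≤ t₂) (hb : ∀ i, (b i).IsHomogeneous d) (hsnc : Snc b)
    (hgen : GenF (n * (d * t₁ - 1)) (n * (t₂ - 1)) b) (U T : Finset ι)
    (hUT : ∀ i, i ∉ T → i ∈ U) (Z : MvPolynomial (Fin (n + 1)) ℂ) {η : ℝ}
    (hη : (1 - η) * (d * T.card) = (d : ℝ) * Fintype.card ι - er n d t₁ t₂) :
    LevelOne η (Ideal.span (b '' (U : Set ι))) (T.image b) Z := by
  intro f hf hf0 hfq _ hfc
  obtain ⟨K, E, hE, hK⟩ := smt_er hd ht₁ ht₂ b hb hsnc hgen f hf hf0 hfc
  refine ⟨K, E, hE, fun r hr hrE => ?_⟩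
  have h1 := hK r hr hrE
  have hinj : Set.InjOn b (T : Set ι) := fun i _ j _ h => hsnc.injective hn hd hb h
  have hdeg : ∀ i, (b i).totalDegree = d := fun i => (hb i).totalDegree (hsnc.ne_zero i)
  have h2 : ∑ P ∈ T.image b, (P.totalDegree : ℝ) = d * T.card := by
    rw [Finset.sum_image hinj, Finset.sum_congr rfl fun i _ => by rw [hdeg i], Finset.sum_const,
      nsmul_eq_mul]
    ring
  have h3 : ∑ P ∈ T.image b, Nbar (fun z => eval (f z) P) r =
      ∑ i, Nbar (fun z => eval (f z) (b i)) r := by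
    rw [Finset.sum_image hinj]
    refine Finset.sum_subset (Finset.subset_univ T) fun i _ hi => ?_
    have hmem : b i ∈ Ideal.span (b '' (U : Set ι)) :=
      Ideal.subset_span (Set.mem_image_of_mem b (Finset.mem_coe.mpr (hUT i hi)))
    have h5 : ∀ z, eval (f z) (b i) = 0 := fun z => hfq (b i) hmem z
    have h4 : (fun z => eval (f z) (b i)) = fun _ => (0 : ℂ) := funext h5
    rw [h4, Nbar_zero hr]
  rw [h2, h3, hη]
  exact h1

attribute [local instance] MvPolynomial.gradedAlgebra in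
theorem homI_span {A : Set (MvPolynomial (Fin (n + 1)) ℂ)} (hA : ∀ p ∈ A, p.IsHomogeneous d) :
    HomI (Ideal.span A) := by
  intro s hs k
  have h := Ideal.homogeneous_span (homogeneousSubmodule (Fin (n + 1)) ℂ) A
    (fun p hp => ⟨d, (mem_homogeneousSubmodule _ _).mpr (hA p hp)⟩)
  have h1 := h k hs
  have h2 : ((DirectSum.decompose (homogeneousSubmodule (Fin (n + 1)) ℂ) s k :
      homogeneousSubmodule (Fin (n + 1)) ℂ k) : MvPolynomial (Fin (n + 1)) ℂ) =
      homogeneousComponent k s := decomposition.decompose'_apply s k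
  rwa [h2] at h1

theorem eval_aeval_phi {m : ℕ} (φ : Fin (n + 1) → MvPolynomial (Fin (m + 1)) ℂ)
    (x : Fin (m + 1) → ℂ) (P : MvPolynomial (Fin (n + 1)) ℂ) :
    eval x (aeval φ P) = eval (fun i => eval x (φ i)) P := by
  have h4 := comp_aeval_apply (f := φ) (aeval x : MvPolynomial (Fin (m + 1)) ℂ →ₐ[ℂ] ℂ) P
  rw [← coe_aeval_eq_eval, ← coe_aeval_eq_eval]
  exact h4

theorem er_pos {t₁ t₂ : ℕ} (hn : 1 ≤ n) (hd : 1 ≤ d) (ht₁ : 2 ≤ t₁) (ht₂ : 2 ≤ t₂) :
    (n : ℝ) * d + 1 ≤ er n d t₁ t₂ := by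
  have h1 : (1 : ℝ) ≤ n := by exact_mod_cast hn
  have h2 : (1 : ℝ) ≤ d := by exact_mod_cast hd
  have h3 : (2 : ℝ) ≤ t₁ := by exact_mod_cast ht₁
  have h4 : (2 : ℝ) ≤ t₂ := by exact_mod_cast ht₂
  have h5 : (1 : ℝ) ≤ n * d := by nlinarith
  have h6 : (n : ℝ) * d * 4 ≤ n * d * (t₁ + 2) := mul_le_mul_of_nonneg_left (by linarith) (by linarith)
  have h7 : (n : ℝ) * 2 ≤ n * t₂ := mul_le_mul_of_nonneg_left h4 (by linarith)
  unfold er
  nlinarith

open scoped Classical in
/-- curves of varieties ramified on average over the members -/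
theorem curves_b {t₁ t₂ : ℕ} [Fintype ι] (hn : 1 ≤ n) (hd : 1 ≤ d)
    (ht₁ : 2 ≤ t₁) (ht₂ : 2 ≤ t₂) (hb : ∀ i, (b i).IsHomogeneous d) (hsnc : Snc b)
    (hgen : GenF (n * (d * t₁ - 1)) (n * (t₂ - 1)) b) (U T : Finset ι)
    (hUT : ∀ i, i ∉ T → i ∈ U) (hT : T.Nonempty) {ρ : ℝ} (hρ0 : 0 ≤ ρ)
    (hρ : ρ * (d * T.card) < (d : ℝ) * Fintype.card ι - er n d t₁ t₂)
    {m : ℕ} (S : Set (MvPolynomial (Fin (m + 1)) ℂ))
    (φ : Fin (n + 1) → MvPolynomial (Fin (m + 1)) ℂ)
    (hSU : ∀ i ∈ U, ∀ x : Fin (m + 1) → ℂ, (∀ p ∈ S, eval x p = 0) →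
      eval x (aeval φ (b i)) = 0)
    (hR : RamifiedOnAverage ρ S φ (T.image b)) :
    CurvesIn S (aeval φ (∏ i ∈ T, b i)) φ := by
  have hd0 : (1 : ℝ) ≤ d := by exact_mod_cast hd
  have hTn : 0 < T.card := Finset.card_pos.mpr hT
  have hTc : (0 : ℝ) < d * T.card := by
    have : (0 : ℝ) < T.card := by exact_mod_cast hTn
    positivity
  set η : ℝ := 1 - ((d : ℝ) * Fintype.card ι - er n d t₁ t₂) / (d * T.card) with hη
  have h1η : (1 - η) * (d * T.card) = (d : ℝ) * Fintype.card ι - er n d t₁ t₂ := by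
    rw [hη, sub_sub_cancel, div_mul_cancel₀ _ hTc.ne']
  have hρη : ρ < 1 - η := by
    have h1 : ρ * (d * T.card) < (1 - η) * (d * T.card) := by rw [h1η]; exact hρ
    exact lt_of_mul_lt_mul_right h1 hTc.le
  have hL := level_U hn hd ht₁ ht₂ hb hsnc hgen U T hUT (∏ i ∈ T, b i) h1η
  have hDn : (T.image b).Nonempty := by
    rw [Finset.image_nonempty]
    exact hT
  have hmem : ∀ P ∈ T.image b, ∃ i ∈ T, b i = P := by
    intro P hP
    simpa using hP
  have hdeg : ∀ i, (b i).totalDegree = d := fun i => (hb i).totalDegree (hsnc.ne_zero i)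
  have hDh : ∀ P ∈ T.image b, 1 ≤ P.totalDegree ∧ P.IsHomogeneous P.totalDegree := by
    intro P hP
    obtain ⟨i, hi, rfl⟩ := hmem P hP
    rw [hdeg i]
    exact ⟨hd, hb i⟩
  have hZh : (∏ i ∈ T, b i).IsHomogeneous (T.card * d) := by
    have h1 := IsHomogeneous.prod T (fun i => b i) (fun _ => d) fun i _ => hb i
    simpa using h1
  have hhom : HomI (Ideal.span (b '' (U : Set ι))) := by
    refine homI_span (d := d) ?_
    rintro p ⟨i, -, rfl⟩
    exact hb i
  have hφq : ∀ g ∈ Ideal.span (b '' (U : Set ι)), ∀ x : Fin (m + 1) → ℂ,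
      (∀ p ∈ S, eval x p = 0) → eval x (aeval φ g) = 0 := by
    intro g hg x hx
    rw [eval_aeval_phi]
    induction hg using Submodule.span_induction with
    | mem y hy =>
      obtain ⟨i, hi, rfl⟩ := hy
      rw [← eval_aeval_phi]
      exact hSU i (Finset.mem_coe.mp hi) x hx
    | zero => rw [map_zero]
    | add y z _ _ hy hz => rw [map_add, hy, hz, add_zero]
    | smul c y _ hy => rw [smul_eq_mul, map_mul, hy, mul_zero]
  refine avg_curves hρη hρ0 _ hhom (T.image b) hDn (∏ i ∈ T, b i)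
    (d := T.card * d) (Nat.mul_pos hTn hd) hZh hDh ?_ hL S φ hφq hR
  intro P hP
  obtain ⟨i, hi, rfl⟩ := hmem P hP
  exact Finset.dvd_prod_of_mem _ hi

open scoped Classical in
/-- ramified maps are ramified on average with ratio `n / (n + 1)` -/
theorem ram_b [Fintype ι] (hn : 1 ≤ n) (hd : 1 ≤ d) (hb : ∀ i, (b i).IsHomogeneous d)
    (hsnc : Snc b) {m : ℕ} (S : Set (MvPolynomial (Fin (m + 1)) ℂ))
    (φ : Fin (n + 1) → MvPolynomial (Fin (m + 1)) ℂ)
    (hR : Ramified S φ (Finset.univ.image b)) :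
    RamifiedOnAverage ((n : ℝ) / ((n : ℝ) + 1)) S φ (Finset.univ.image b) := by
  have hmem : ∀ P ∈ Finset.univ.image b, ∃ i, b i = P := by
    intro P hP
    simpa using hP
  have hdeg : ∀ i, (b i).totalDegree = d := fun i => (hb i).totalDegree (hsnc.ne_zero i)
  have hbot : HomI (⊥ : Ideal (MvPolynomial (Fin (n + 1)) ℂ)) := by
    intro g hg k
    rw [Ideal.mem_bot] at hg
    subst hg
    simp
  refine ramified_avg (q := ⊥) hbot (fun P hP => ?_) ?_ ?_ hR
  · obtain ⟨i, rfl⟩ := hmem P hP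
    rw [hdeg i]
    exact hb i
  · intro x hx _ D' hD' hD'x
    set I : Finset ι := Finset.univ.filter fun i => b i ∈ D' with hI
    have h1 : I.image b = D' := by
      ext P
      rw [Finset.mem_image]
      constructor
      · rintro ⟨i, hi, rfl⟩
        exact (Finset.mem_filter.mp hi).2
      · intro hP
        obtain ⟨i, rfl⟩ := hmem P (hD' hP)
        exact ⟨i, Finset.mem_filter.mpr ⟨Finset.mem_univ _, hP⟩, rfl⟩
    rw [← h1, Finset.card_image_of_injective _ (hsnc.injective hn hd hb)]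
    exact hsnc.card_le hb hx I fun i hi => hD'x _ (Finset.mem_filter.mp hi).2
  · intro g hg x _
    rw [Ideal.mem_bot] at hg
    subst hg
    simp

open scoped Classical in
/-- multiple members: ramified on average with ratio `1/2` -/
theorem mult_avg_b (T : Finset ι) {m : ℕ}
    (S S' : Set (MvPolynomial (Fin (m + 1)) ℂ)) (hSS : S ⊆ S')
    (φ : Fin (n + 1) → MvPolynomial (Fin (m + 1)) ℂ)
    (hM : ∀ i, MultipleForm S φ (b i)) :
    RamifiedOnAverage (1 / 2) S' φ (T.image b) := by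
  intro u hu hu0 huS c hc hc' o ho
  have h1 : ∀ P ∈ T.image b, o P ≠ 1 := by
    intro P hP h1
    obtain ⟨i, hi, rfl⟩ : ∃ i ∈ T, b i = P := by simpa using hP
    have h2 := ho _ hP
    rw [h1] at h2
    exact hM i u hu hu0 (huS.mono fun ζ h p hp => h p (hSS hp)) c hc hc' h2
  have h2 : ((((T.image b).filter fun P => o P ≠ 0).card : ℕ) : ℝ) * 2 ≤
      ∑ P ∈ T.image b, (o P : ℝ) := by
    have h3 : ∑ P ∈ (T.image b).filter (fun P => o P ≠ 0), (2 : ℝ) ≤
        ∑ P ∈ (T.image b).filter (fun P => o P ≠ 0), (o P : ℝ) := by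
      refine Finset.sum_le_sum fun P hP => ?_
      obtain ⟨h4, h5⟩ := Finset.mem_filter.mp hP
      have h6 := h1 P h4
      exact_mod_cast (by omega : 2 ≤ o P)
    rw [Finset.sum_const, nsmul_eq_mul] at h3
    refine h3.trans ?_
    exact Finset.sum_le_sum_of_subset_of_nonneg (Finset.filter_subset _ _)
      fun P _ _ => Nat.cast_nonneg _
  linarith

/-- **Varieties on which many general hypersurfaces are multiple.** -/
theorem mult_b {t₁ t₂ : ℕ} [Fintype ι] (hn : 1 ≤ n) (hd : 1 ≤ d)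
    (ht₁ : 2 ≤ t₁) (ht₂ : 2 ≤ t₂) (hb : ∀ i, (b i).IsHomogeneous d) (hsnc : Snc b)
    (hgen : GenF (n * (d * t₁ - 1)) (n * (t₂ - 1)) b)
    (hcard : 2 * er n d t₁ t₂ < (d : ℝ) * Fintype.card ι)
    {m : ℕ} (S : Set (MvPolynomial (Fin (m + 1)) ℂ))
    (φ : Fin (n + 1) → MvPolynomial (Fin (m + 1)) ℂ) (hM : ∀ i, MultipleForm S φ (b i)) :
    ∀ f : ℂ → (Fin (m + 1) → ℂ), Differentiable ℂ f → (∀ z, f z ≠ 0) →
      (∀ z, ∀ p ∈ S, eval (f z) p = 0) →
      ∃ t : Fin (n + 1) → ℂ, t ≠ 0 ∧ ∀ z, ∀ p ∈ Fibre S φ t, eval (f z) p = 0 := by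
  classical
  intro f hf hf0 hfS
  by_cases hall : ∀ z, (fun j => eval (f z) (φ j)) = 0
  · refine ⟨fun _ => 1, fun h => one_ne_zero (congrFun h 0), ?_⟩
    rintro z p (hp | ⟨i, j, rfl⟩)
    · exact hfS z p hp
    · have h1 : ∀ i, eval (f z) (φ i) = 0 := fun i => congrFun (hall z) i
      simp [h1]
  push Not at hall
  obtain ⟨z₀, hz₀⟩ := hall
  set T : Finset ι := Finset.univ.filter fun i => ∃ z, eval (f z) (aeval φ (b i)) ≠ 0 with hT
  set U : Finset ι := Finset.univ.filter fun i => ∀ z, eval (f z) (aeval φ (b i)) = 0 with hU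
  have hUT : ∀ i, i ∉ T → i ∈ U := by
    intro i hi
    rw [hT, Finset.mem_filter] at hi
    push Not at hi
    exact Finset.mem_filter.mpr ⟨Finset.mem_univ _, hi (Finset.mem_univ _)⟩
  have hTne : T.Nonempty := by
    rw [Finset.nonempty_iff_ne_empty]
    intro hT0
    have h1 : (Finset.univ : Finset ι).card ≤ n := by
      refine hsnc.card_le hb hz₀ Finset.univ fun i _ => ?_
      have h2 := (Finset.mem_filter.mp (hUT i (by rw [hT0]; simp))).2 z₀
      rwa [eval_aeval_phi] at h2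
    rw [Finset.card_univ] at h1
    have h2 : (Fintype.card ι : ℝ) ≤ n := by exact_mod_cast h1
    have h3 := er_pos hn hd ht₁ ht₂
    have h4 : (0 : ℝ) ≤ d := Nat.cast_nonneg d
    have h5 : (d : ℝ) * Fintype.card ι ≤ d * n := mul_le_mul_of_nonneg_left h2 h4
    have h6 : (0 : ℝ) ≤ (n : ℝ) * d := by positivity
    nlinarith
  set S' : Set (MvPolynomial (Fin (m + 1)) ℂ) := S ∪ {p | ∃ i ∈ U, p = aeval φ (b i)} with hS'
  have hTc : (T.card : ℝ) ≤ Fintype.card ι := by exact_mod_cast Finset.card_le_univ T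
  have hd0 : (0 : ℝ) ≤ d := Nat.cast_nonneg d
  have key := curves_b hn hd ht₁ ht₂ hb hsnc hgen U T hUT hTne (ρ := 1 / 2) (by norm_num) (by
      have h1 : (d : ℝ) * T.card ≤ d * Fintype.card ι := mul_le_mul_of_nonneg_left hTc hd0
      linarith) S' φ (fun i hi x hx => hx _ (Or.inr ⟨i, hi, rfl⟩))
    (mult_avg_b T S S' Set.subset_union_left φ hM)
  have hfS' : ∀ z, ∀ p ∈ S', eval (f z) p = 0 := by
    rintro z p (hp | ⟨i, hi, rfl⟩)
    · exact hfS z p hp
    · exact (Finset.mem_filter.mp hi).2 z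
  rcases key f hf hf0 hfS' with h0 | ⟨t, ht0, ht⟩
  · exfalso
    have h1 : ∀ z, ∏ i ∈ T, eval (f z) (aeval φ (b i)) = 0 := by
      intro z
      have h2 := h0 z
      rwa [map_prod, map_prod] at h2
    have hd' : ∀ i : ι, Differentiable ℂ fun z => eval (f z) (aeval φ (b i)) := fun i =>
      diff_eval hf _
    have h3 : ∀ T' ⊆ T, ∃ z, ∏ i ∈ T', eval (f z) (aeval φ (b i)) ≠ 0 := by
      intro T'
      induction T' using Finset.induction_on with
      | empty => intro _; exact ⟨0, by simp⟩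
      | insert i T' hi ih =>
        intro hsub
        obtain ⟨z₁, hz₁⟩ := (Finset.mem_filter.mp (hsub (Finset.mem_insert_self i T'))).2
        obtain ⟨z₂, hz₂⟩ := ih ((Finset.subset_insert i T').trans hsub)
        obtain ⟨z, hz, hz'⟩ := exists_ne_mul (hd' i)
          (Differentiable.fun_finsetProd fun i _ => hd' i) ⟨z₁, hz₁⟩ ⟨z₂, hz₂⟩
        exact ⟨z, by rw [Finset.prod_insert hi]; exact mul_ne_zero hz hz'⟩
    obtain ⟨z, hz⟩ := h3 T (Finset.Subset.refl T)
    exact hz (h1 z)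
  · refine ⟨t, ht0, ?_⟩
    rintro z p (hp | hp)
    · exact hfS z p hp
    · exact ht z p (Or.inr hp)

/-- an entire curve of `ℙⁿ` on which all members have multiple zeros only is constant -/
theorem core_b {t₁ t₂ : ℕ} [Fintype ι] (hn : 1 ≤ n) (hd : 1 ≤ d)
    (ht₁ : 2 ≤ t₁) (ht₂ : 2 ≤ t₂) (hb : ∀ i, (b i).IsHomogeneous d) (hsnc : Snc b)
    (hgen : GenF (n * (d * t₁ - 1)) (n * (t₂ - 1)) b)
    (hcard : 2 * er n d t₁ t₂ < (d : ℝ) * Fintype.card ι)
    (g : ℂ → Fin (n + 1) → ℂ) (hg : Differentiable ℂ g) (hg0 : ∀ z, g z ≠ 0)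
    (hord : ∀ i z, analyticOrderAt (fun w => eval (g w) (b i)) z ≠ 1) :
    ∀ z w, ∃ c : ℂ, g w = c • g z := by
  classical
  set T : Finset ι := Finset.univ.filter fun i => ∃ z, eval (g z) (b i) ≠ 0 with hT
  set U : Finset ι := Finset.univ.filter fun i => ∀ z, eval (g z) (b i) = 0 with hU
  have hUT : ∀ i, i ∉ T → i ∈ U := by
    intro i hi
    rw [hT, Finset.mem_filter] at hi
    push Not at hi
    exact Finset.mem_filter.mpr ⟨Finset.mem_univ _, hi (Finset.mem_univ _)⟩
  have hTne : T.Nonempty := by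
    rw [Finset.nonempty_iff_ne_empty]
    intro hT0
    have h1 : (Finset.univ : Finset ι).card ≤ n :=
      hsnc.card_le hb (hg0 0) Finset.univ fun i _ =>
        (Finset.mem_filter.mp (hUT i (by rw [hT0]; simp))).2 0
    rw [Finset.card_univ] at h1
    have h2 : (Fintype.card ι : ℝ) ≤ n := by exact_mod_cast h1
    have h3 := er_pos hn hd ht₁ ht₂
    have h4 : (0 : ℝ) ≤ d := Nat.cast_nonneg d
    have h5 : (d : ℝ) * Fintype.card ι ≤ d * n := mul_le_mul_of_nonneg_left h2 h4
    have h6 : (0 : ℝ) ≤ (n : ℝ) * d := by positivity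
    nlinarith
  have hd0 : (1 : ℝ) ≤ d := by exact_mod_cast hd
  have hTn : 0 < T.card := Finset.card_pos.mpr hTne
  have hTc : (0 : ℝ) < d * T.card := by
    have : (0 : ℝ) < T.card := by exact_mod_cast hTn
    positivity
  set η : ℝ := 1 - ((d : ℝ) * Fintype.card ι - er n d t₁ t₂) / (d * T.card) with hη
  have h1η : (1 - η) * (d * T.card) = (d : ℝ) * Fintype.card ι - er n d t₁ t₂ := by
    rw [hη, sub_sub_cancel, div_mul_cancel₀ _ hTc.ne']
  have hρη : (1 / 2 : ℝ) < 1 - η := by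
    have hTc' : (T.card : ℝ) ≤ Fintype.card ι := by exact_mod_cast Finset.card_le_univ T
    have h1 : (1 / 2 : ℝ) * (d * T.card) < (1 - η) * (d * T.card) := by
      rw [h1η]
      have h2 : (d : ℝ) * T.card ≤ d * Fintype.card ι :=
        mul_le_mul_of_nonneg_left hTc' (by linarith)
      linarith
    exact lt_of_mul_lt_mul_right h1 hTc.le
  have hL := level_U hn hd ht₁ ht₂ hb hsnc hgen U T hUT (∏ i ∈ T, b i) h1η
  have hmem : ∀ P ∈ T.image b, ∃ i ∈ T, b i = P := by
    intro P hP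
    simpa using hP
  have hdeg : ∀ i, (b i).totalDegree = d := fun i => (hb i).totalDegree (hsnc.ne_zero i)
  refine avg_const hρη (by norm_num) _ (T.image b) (Finset.image_nonempty.mpr hTne)
    (∏ i ∈ T, b i) ?_ ?_ hL g hg hg0 ?_ ?_ ?_
  · intro P hP
    obtain ⟨i, hi, rfl⟩ := hmem P hP
    rw [hdeg i]
    exact ⟨hd, hb i⟩
  · intro P hP
    obtain ⟨i, hi, rfl⟩ := hmem P hP
    exact Finset.dvd_prod_of_mem _ hi
  · intro q hq z
    induction hq using Submodule.span_induction with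
    | mem y hy =>
      obtain ⟨i, hi, rfl⟩ := hy
      exact (Finset.mem_filter.mp (Finset.mem_coe.mp hi)).2 z
    | zero => rw [map_zero]
    | add y z _ _ hy hz => rw [map_add, hy, hz, add_zero]
    | smul c y _ hy => rw [smul_eq_mul, map_mul, hy, mul_zero]
  · have h3 : ∀ T' ⊆ T, ∃ z, ∏ i ∈ T', eval (g z) (b i) ≠ 0 := by
      intro T'
      induction T' using Finset.induction_on with
      | empty => intro _; exact ⟨0, by simp⟩
      | insert i T' hi ih =>
        intro hsub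
        obtain ⟨z₁, hz₁⟩ := (Finset.mem_filter.mp (hsub (Finset.mem_insert_self i T'))).2
        obtain ⟨z₂, hz₂⟩ := ih ((Finset.subset_insert i T').trans hsub)
        obtain ⟨z, hz, hz'⟩ := exists_ne_mul (diff_eval hg (b i))
          (Differentiable.fun_finsetProd fun i _ => diff_eval hg (b i)) ⟨z₁, hz₁⟩ ⟨z₂, hz₂⟩
        exact ⟨z, by rw [Finset.prod_insert hi]; exact mul_ne_zero hz hz'⟩
    obtain ⟨z, hz⟩ := h3 T (Finset.Subset.refl T)
    exact ⟨z, by rw [map_prod]; exact hz⟩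
  · intro z o ho
    have h1 : ∀ P ∈ T.image b, o P ≠ 1 := by
      intro P hP h1
      obtain ⟨i, hi, rfl⟩ := hmem P hP
      have h2 := ho _ hP
      rw [h1] at h2
      exact hord i z (by exact_mod_cast h2)
    have h2 : ((((T.image b).filter fun P => o P ≠ 0).card : ℕ) : ℝ) * 2 ≤
        ∑ P ∈ T.image b, (o P : ℝ) := by
      have h3 : ∑ P ∈ (T.image b).filter (fun P => o P ≠ 0), (2 : ℝ) ≤
          ∑ P ∈ (T.image b).filter (fun P => o P ≠ 0), (o P : ℝ) := by
        refine Finset.sum_le_sum fun P hP => ?_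
        obtain ⟨h4, h5⟩ := Finset.mem_filter.mp hP
        have h6 := h1 P h4
        exact_mod_cast (by omega : 2 ≤ o P)
      rw [Finset.sum_const, nsmul_eq_mul] at h3
      refine h3.trans ?_
      exact Finset.sum_le_sum_of_subset_of_nonneg (Finset.filter_subset _ _)
        fun P _ _ => Nat.cast_nonneg _
    linarith

end

end Pool.Agent.GH
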