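import Pool.Agent.Lib_MP_b9fedf_gh.SmtH

/-! General hypersurfaces satisfy the conditions of the second main theorem `smt_gh`. -/

set_option autoImplicit false

namespace Pool.Agent.GH
open MvPolynomial Pool.Agent.GGL Pool.Agent.Stat

/-- the monomial `X_0 ^ d` -/
noncomputable def mon0 (n d : ℕ) : Mon n d :=
  ⟨Finsupp.single 0 d, by
    rw [Finset.mem_finsuppAntidiag]
    refine ⟨?_, Finset.subset_univ _⟩
    rw [Finset.sum_eq_single 0]
    · simp
    · intro b _ hb
      rw [Finsupp.single_apply, if_neg (Ne.symm hb)]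
    · intro h
      exact absurd (Finset.mem_univ _) h⟩

theorem frm_inj {R : Type} [CommRing R] {n d : ℕ} {c c' : Mon n d → R} (h : frm c = frm c') :
    c = c' := by
  funext m
  rw [← coeff_frm c m, ← coeff_frm c' m, h]

/-- General families of `Q` forms of degree `d` are distinct, have normal crossings and satisfy
`GenF`. -/
theorem gh_open {n d Q t₁ t₂ : ℕ} (hn : 1 ≤ n) (hd : 1 ≤ d) (ht₁ : 2 ≤ t₁) (ht₂ : 2 ≤ t₂)
    (hQ : Q * ((d - 1) * t₂ + d * t₁) < d * t₁ ^ 2 * t₂) :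
    ∃ S : MvPolynomial (Fin Q × Mon n d) ℚ, S ≠ 0 ∧ ∀ a : Fin Q → Mon n d → ℂ,
      aeval (fun p : Fin Q × Mon n d => a p.1 p.2) S ≠ 0 →
        Snc (fun i => frm (a i)) ∧
        GenF (n * (d * t₁ - 1)) (n * (t₂ - 1)) (fun i => frm (a i)) ∧
        Function.Injective (fun i => frm (a i)) ∧ ∀ i, frm (a i) ≠ 0 := by
  classical
  obtain ⟨S₁, hS₁, h₁⟩ := snc_open (n := n) hd (Fin Q)
  obtain ⟨S₂, hS₂, h₂⟩ := gen_open (n := n) (d := d) (α := n * (d * t₁ - 1)) (β := n * (t₂ - 1))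
    (ι := Fin Q) (fun R => univ_exists hn hd ht₁ ht₂ hQ (by
      refine (Fintype.card_subtype_le _).trans ?_
      rw [Fintype.card_fin]))
  set S₃ : MvPolynomial (Fin Q × Mon n d) ℚ := ∏ i, X (i, mon0 n d) with hS₃
  set S₄ : MvPolynomial (Fin Q × Mon n d) ℚ :=
    ∏ p ∈ (Finset.univ : Finset (Fin Q × Fin Q)).filter (fun p => p.1 ≠ p.2),
      (X (p.1, mon0 n d) - X (p.2, mon0 n d)) with hS₄
  have h30 : S₃ ≠ 0 := Finset.prod_ne_zero_iff.2 fun i _ => X_ne_zero _
  have h40 : S₄ ≠ 0 := by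
    refine Finset.prod_ne_zero_iff.2 fun p hp h0 => (Finset.mem_filter.1 hp).2 ?_
    have h1 := X_injective (sub_eq_zero.1 h0)
    exact congrArg Prod.fst h1
  refine ⟨S₁ * S₂ * S₃ * S₄, mul_ne_zero (mul_ne_zero (mul_ne_zero hS₁ hS₂) h30) h40,
    fun a ha => ?_⟩
  rw [map_mul, map_mul, map_mul] at ha
  have ha4 := right_ne_zero_of_mul ha
  have ha3 := right_ne_zero_of_mul (left_ne_zero_of_mul ha)
  have ha2 := right_ne_zero_of_mul (left_ne_zero_of_mul (left_ne_zero_of_mul ha))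
  have ha1 := left_ne_zero_of_mul (left_ne_zero_of_mul (left_ne_zero_of_mul ha))
  rw [hS₄, map_prod, Finset.prod_ne_zero_iff] at ha4
  rw [hS₃, map_prod, Finset.prod_ne_zero_iff] at ha3
  refine ⟨h₁ a ha1, h₂ a ha2, fun i j hij => ?_, fun i h0 => ?_⟩
  · by_contra hne
    have h5 := ha4 (i, j) (Finset.mem_filter.2 ⟨Finset.mem_univ _, hne⟩)
    apply h5
    rw [map_sub, aeval_X, aeval_X, frm_inj hij, sub_self]
  · apply ha3 i (Finset.mem_univ i)
    rw [aeval_X]
    have h5 : a i = 0 := by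
      apply frm_inj
      rw [h0]
      unfold frm
      simp
    show a i (mon0 n d) = 0
    rw [h5]
    rfl

/-- the error term -/
def er (n d t₁ t₂ : ℕ) : ℝ := n * d * (t₁ + 2) + 2 * n * t₂ - 3 * n

/-- the second main theorem with the error term `er` -/
theorem smt_er {n d t₁ t₂ : ℕ} {ι : Type} [Fintype ι] [DecidableEq ι] (hd : 1 ≤ d)
    (ht₁ : 2 ≤ t₁) (ht₂ : 2 ≤ t₂)
    (b : ι → MvPolynomial (Fin (n + 1)) ℂ) (hb : ∀ i, (b i).IsHomogeneous d) (hsnc : Snc b)
    (hgen : GenF (n * (d * t₁ - 1)) (n * (t₂ - 1)) b) (f : ℂ → Fin (n + 1) → ℂ)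
    (hf : Differentiable ℂ f) (hf0 : ∀ z, f z ≠ 0) (hnc : ¬ ∀ z w, ∃ c : ℂ, f w = c • f z) :
    ∃ (K : ℝ) (E : Set ℝ), MeasureTheory.volume E < ⊤ ∧ ∀ r, 1 ≤ r → r ∉ E →
      ((d : ℝ) * Fintype.card ι - er n d t₁ t₂) * charT f r ≤
        ∑ i, Nbar (fun z => eval (f z) (b i)) r +
          K * (Real.posLog (charT f r) + Real.log r + 1) := by
  obtain ⟨K, E, hE, h⟩ := smt_gh hd b hb hsnc hgen f hf hf0 hnc
  refine ⟨K, E, hE, fun r hr hrE => ?_⟩
  have h1 := h r hr hrE
  have h2 : 1 ≤ d * t₁ := Nat.one_le_iff_ne_zero.mpr (by positivity)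
  have h3 : 1 ≤ t₂ := by omega
  have h4 : (d : ℝ) * Fintype.card ι - er n d t₁ t₂ =
      (d : ℝ) * Fintype.card ι - 2 * n * d - ((n * (d * t₁ - 1) : ℕ) : ℝ) -
        2 * ((n * (t₂ - 1) : ℕ) : ℝ) := by
    unfold er
    push_cast [Nat.cast_sub h2, Nat.cast_sub h3]
    ring
  rw [h4]
  exact h1

/-- at most `n` members of a family with normal crossings contain a point -/
theorem snc_card {n d : ℕ} {ι : Type} {b : ι → MvPolynomial (Fin (n + 1)) ℂ}
    (hb : ∀ i, (b i).IsHomogeneous d) (h : Snc b) (x : Fin (n + 1) → ℂ) (hx : x ≠ 0)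
    (B : Finset ι) (hB : ∀ i ∈ B, eval x (b i) = 0) : B.card ≤ n := by
  classical
  have hli := h x hx B hB
  -- the gradients are orthogonal to `x`
  obtain ⟨k, hk⟩ := Function.ne_iff.1 hx
  rw [Pi.zero_apply] at hk
  let L : (Fin (n + 1) → ℂ) →ₗ[ℂ] ℂ :=
    { toFun := fun v => ∑ j, v j * x j
      map_add' := by
        intro v w
        simp [add_mul, Finset.sum_add_distrib]
      map_smul' := by
        intro t v
        simp [Finset.mul_sum, mul_assoc] }
  have hL : Function.Surjective L := by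
    intro t
    refine ⟨Pi.single k (t / x k), ?_⟩
    show ∑ j, (Pi.single k (t / x k) : Fin (n + 1) → ℂ) j * x j = t
    rw [Finset.sum_eq_single k]
    · rw [Pi.single_eq_same, div_mul_cancel₀ _ hk]
    · intro j _ hj
      rw [Pi.single_eq_of_ne hj, zero_mul]
    · intro h
      exact absurd (Finset.mem_univ k) h
  have hker : Module.finrank ℂ (LinearMap.ker L) = n := by
    have h1 := LinearMap.finrank_range_add_finrank_ker L
    rw [LinearMap.range_eq_top.2 hL, finrank_top, Module.finrank_self, Module.finrank_fin_fun] at h1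
    omega
  have hmem : ∀ i : B, (fun j => eval x (pderiv j (b i))) ∈ LinearMap.ker L := by
    intro i
    rw [LinearMap.mem_ker]
    show ∑ j, eval x (pderiv j (b i)) * x j = 0
    rw [euler (b i) (hb i) x, hB i i.2, mul_zero]
  have hli2 : LinearIndependent ℂ (fun i : B => (⟨_, hmem i⟩ : LinearMap.ker L)) := by
    refine LinearIndependent.of_comp (LinearMap.ker L).subtype ?_
    exact hli
  have h2 := hli2.fintype_card_le_finrank
  rw [hker, Fintype.card_coe] at h2
  exact h2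

end Pool.Agent.GH
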