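import Pool.Agent.Lib_MP_b9fedf_gh.BasicA
import Pool.Agent.Lib_MP_b9fedf_lg.Matroid

/-! [GH-J]: generic hypersurfaces have normal crossings. -/

set_option autoImplicit false

namespace Pool.Agent.GH
open MvPolynomial Pool.Agent.GGL Pool.Agent.LG

private theorem ev_frm {n d : ℕ} (c : Mon n d → ℂ) (x : Fin (n + 1) → ℂ) :
    eval x (frm c) = ∑ m : Mon n d, c m * ∏ j, x j ^ (m.1 j) := by
  rw [frm, map_sum]
  refine Finset.sum_congr rfl fun m _ => ?_
  rw [eval_monomial, Finsupp.prod_fintype _ _ (fun i => pow_zero _)]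

private theorem ev_pd {n d : ℕ} (c : Mon n d → ℂ) (x : Fin (n + 1) → ℂ) (j : Fin (n + 1)) :
    eval x (pderiv j (frm c)) = ∑ m : Mon n d,
      c m * ((m.1 j : ℂ) * ∏ l, x l ^ ((m.1 - Finsupp.single j 1 : Fin (n + 1) →₀ ℕ) l)) := by
  rw [frm, map_sum, map_sum]
  refine Finset.sum_congr rfl fun m _ => ?_
  rw [pderiv_monomial, eval_monomial, Finsupp.prod_fintype _ _ (fun i => pow_zero _)]
  ring

private theorem mon_sum {n d : ℕ} (m : Mon n d) : ∑ j, m.1 j = d :=
  (Finset.mem_finsuppAntidiag.1 m.2).1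

private theorem ev_frm_smul {n d : ℕ} (c : Mon n d → ℂ) (x : Fin (n + 1) → ℂ) (t : ℂ) :
    eval (fun j => t * x j) (frm c) = t ^ d * eval x (frm c) := by
  rw [ev_frm, ev_frm, Finset.mul_sum]
  refine Finset.sum_congr rfl fun m _ => ?_
  simp only [mul_pow]
  rw [Finset.prod_mul_distrib, Finset.prod_pow_eq_pow_sum, mon_sum]
  ring

private theorem ev_pd_smul {n d : ℕ} (c : Mon n d → ℂ) (x : Fin (n + 1) → ℂ) (t : ℂ)
    (j : Fin (n + 1)) :
    eval (fun j => t * x j) (pderiv j (frm c)) = t ^ (d - 1) * eval x (pderiv j (frm c)) := by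
  classical
  rw [ev_pd, ev_pd, Finset.mul_sum]
  refine Finset.sum_congr rfl fun m _ => ?_
  simp only [mul_pow]
  rw [Finset.prod_mul_distrib, Finset.prod_pow_eq_pow_sum]
  rcases Nat.eq_zero_or_pos (m.1 j) with h0 | h0
  · rw [h0]
    simp
  · have h1 : ∑ l, (m.1 - Finsupp.single j 1 : Fin (n + 1) →₀ ℕ) l = d - 1 := by
      have h2 : ∑ l, (m.1 - Finsupp.single j 1 : Fin (n + 1) →₀ ℕ) l + 1 = ∑ l, m.1 l := by
        have h3 : ∀ l, m.1 l = (m.1 - Finsupp.single j 1 : Fin (n + 1) →₀ ℕ) l
            + (Finsupp.single j 1 : Fin (n + 1) →₀ ℕ) l := by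
          intro l
          rw [Finsupp.tsub_apply]
          rcases eq_or_ne j l with h | h
          · subst h
            rw [Finsupp.single_eq_same]
            omega
          · rw [Finsupp.single_apply, if_neg h]
            omega
        rw [Finset.sum_congr rfl fun l _ => h3 l, Finset.sum_add_distrib]
        congr 1
        simp [Finsupp.single_apply]
      rw [mon_sum] at h2
      omega
    rw [h1]
    ring

/-- the normalised case -/
private theorem core {n d : ℕ} (hd : 1 ≤ d) {ι : Type} [Fintype ι] (c : ι → Mon n d → ℂ)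
    (hc : AlgebraicIndependent ℚ (fun p : ι × Mon n d => c p.1 p.2))
    (x : Fin (n + 1) → ℂ) (lam : ι → ℂ) (h1 : ∀ i, eval x (frm (c i)) * lam i = 0)
    (h2 : ∀ j, ∑ i, lam i * eval x (pderiv j (frm (c i))) = 0)
    (k : Fin (n + 1)) (i₀ : ι) (hk : x k = 1) (hi : lam i₀ = 1) : False := by
  classical
  set B : Finset ι := Finset.univ.filter fun i => lam i ≠ 0 with hB
  have hi₀ : i₀ ∈ B := by
    rw [hB, Finset.mem_filter]
    exact ⟨Finset.mem_univ _, by rw [hi]; exact one_ne_zero⟩
  let Y : Type := {j : Fin (n + 1) // j ≠ k} ⊕ {i : ι // i ∈ B.erase i₀}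
  let Rw : Type := {j : Fin (n + 1) // j ≠ k} ⊕ {i : ι // i ∈ B}
  let yv : Y → ℂ := Sum.elim (fun j => x j.1) (fun i => lam i.1)
  let e : Y ≃ Fin (Fintype.card Y) := Fintype.equivFin Y
  have hcard : Fintype.card Y < Fintype.card Rw := by
    have h3 : Fintype.card {i : ι // i ∈ B.erase i₀} < Fintype.card {i : ι // i ∈ B} := by
      rw [Fintype.card_coe, Fintype.card_coe]
      exact Finset.card_erase_lt_of_mem hi₀
    simp only [Y, Rw, Fintype.card_sum]
    omega
  obtain ⟨S, hS, hSi⟩ := indep_off (fun p : ι × Mon n d => c p.1 p.2) hc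
    (fun a : Fin (Fintype.card Y) => yv (e.symm a))
  set A := Algebra.adjoin ℚ (Set.range fun a : Fin (Fintype.card Y) => yv (e.symm a)) with hA
  have hyA : ∀ y : Y, yv y ∈ A := by
    intro y
    refine Algebra.subset_adjoin ⟨e y, ?_⟩
    simp only [Equiv.symm_apply_apply]
  have hxA : ∀ j, x j ∈ A := by
    intro j
    by_cases hj : j = k
    · rw [hj, hk]
      exact one_mem A
    · exact hyA (Sum.inl ⟨j, hj⟩)
  have hlA : ∀ i, lam i ∈ A := by
    intro i
    by_cases hj : i = i₀
    · rw [hj, hi]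
      exact one_mem A
    · by_cases hiB : i ∈ B
      · exact hyA (Sum.inr ⟨i, Finset.mem_erase.2 ⟨hj, hiB⟩⟩)
      · have : lam i = 0 := by
          by_contra h
          exact hiB (by rw [hB, Finset.mem_filter]; exact ⟨Finset.mem_univ _, h⟩)
        rw [this]
        exact zero_mem A
  let xA : Fin (n + 1) → A := fun j => ⟨x j, hxA j⟩
  let lA : ι → A := fun i => ⟨lam i, hlA i⟩
  let M : Rw → ι × Mon n d → A := Sum.elim
    (fun j p => lA p.1 * ((p.2.1 j.1 : A) *
      ∏ l, xA l ^ ((p.2.1 - Finsupp.single j.1 1 : Fin (n + 1) →₀ ℕ) l)))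
    (fun i' p => if p.1 = i'.1 then ∏ l, xA l ^ (p.2.1 l) else 0)
  have hMl : ∀ (j : {j : Fin (n + 1) // j ≠ k}) (p : ι × Mon n d),
      ((M (Sum.inl j) p : A) : ℂ) = lam p.1 * ((p.2.1 j.1 : ℂ) *
        ∏ l, x l ^ ((p.2.1 - Finsupp.single j.1 1 : Fin (n + 1) →₀ ℕ) l)) := by
    intro j p
    simp only [M, Sum.elim_inl, xA, lA]
    push_cast
    rfl
  have hMr : ∀ (i' : {i : ι // i ∈ B}) (p : ι × Mon n d),
      ((M (Sum.inr i') p : A) : ℂ) = if p.1 = i'.1 then ∏ l, x l ^ (p.2.1 l) else 0 := by
    intro i' p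
    simp only [M, Sum.elim_inr, xA]
    split_ifs
    · push_cast
      rfl
    · rfl
  -- the rows kill `c`
  have hrow : ∀ r : Rw, ∑ p : ι × Mon n d, ((M r p : A) : ℂ) * c p.1 p.2 = 0 := by
    rintro (j | i')
    · simp only [hMl]
      rw [Fintype.sum_prod_type, ← h2 j.1]
      refine Finset.sum_congr rfl fun i _ => ?_
      rw [ev_pd, Finset.mul_sum]
      refine Finset.sum_congr rfl fun m _ => ?_
      ring
    · simp only [hMr]
      rw [Fintype.sum_prod_type, Finset.sum_eq_single i'.1]
      · have h3 : eval x (frm (c i'.1)) = 0 := by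
          rcases mul_eq_zero.1 (h1 i'.1) with h | h
          · exact h
          · exact absurd h (Finset.mem_filter.1 i'.2).2
        rw [← h3, ev_frm]
        refine Finset.sum_congr rfl fun m _ => ?_
        simp only [if_true]
        ring
      · intro i _ hne
        refine Finset.sum_eq_zero fun m _ => ?_
        simp only
        rw [if_neg hne, zero_mul]
      · intro h
        exact absurd (Finset.mem_univ _) h
  -- a combination of the rows which vanishes in the columns of `S`
  let f : (Rw → A) →ₗ[A] ({p // p ∈ S} → A) :=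
    { toFun := fun w p => ∑ r, w r * M r p.1
      map_add' := by
        intro w w'
        funext p
        simp only [Pi.add_apply, add_mul, Finset.sum_add_distrib]
      map_smul' := by
        intro a w
        funext p
        simp only [Pi.smul_apply, smul_eq_mul, RingHom.id_apply, Finset.mul_sum, mul_assoc] }
  obtain ⟨w, hw, hw0⟩ : ∃ w : Rw → A, f w = 0 ∧ w ≠ 0 := by
    by_contra hcon
    push Not at hcon
    have hinj : Function.Injective f := (injective_iff_map_eq_zero f).2 hcon
    have h3 := card_le_of_injective A f hinj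
    rw [Fintype.card_coe] at h3
    omega
  let u : ι × Mon n d → A := fun p => ∑ r, w r * M r p
  have huS : ∀ p ∈ S, u p = 0 := fun p hp => congrFun hw ⟨p, hp⟩
  have husum : ∑ p, ((u p : A) : ℂ) * c p.1 p.2 = 0 := by
    have h3 : ∀ p : ι × Mon n d, ((u p : A) : ℂ) * c p.1 p.2
        = ∑ r, ((w r : A) : ℂ) * (((M r p : A) : ℂ) * c p.1 p.2) := by
      intro p
      simp only [u]
      push_cast
      rw [Finset.sum_mul]
      refine Finset.sum_congr rfl fun r _ => ?_
      ring
    simp only [h3]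
    rw [Finset.sum_comm]
    refine Finset.sum_eq_zero fun r _ => ?_
    rw [← Finset.mul_sum, hrow r, mul_zero]
  have hu0 : ∀ p, u p = 0 := by
    intro p
    by_cases hp : p ∈ S
    · exact huS p hp
    · have hlin := hSi.linearIndependent
      rw [Fintype.linearIndependent_iff] at hlin
      refine hlin (fun q => u q.1) ?_ ⟨p, hp⟩
      rw [← husum]
      have h4 : ∀ q : {q // q ∉ S}, u q.1 • c q.1.1 q.1.2 = ((u q.1 : A) : ℂ) * c q.1.1 q.1.2 :=
        fun q => rfl
      simp only [h4]
      rw [← Finset.sum_subtype (Sᶜ) (fun q => by rw [Finset.mem_compl])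
        (fun q : ι × Mon n d => ((u q : A) : ℂ) * c q.1 q.2)]
      refine Finset.sum_subset (Finset.subset_univ _) fun q _ hq => ?_
      rw [Finset.mem_compl, not_not] at hq
      rw [huS q hq]
      simp
  -- the columns
  let mk : Mon n d := ⟨Finsupp.single k d, by
    rw [Finset.mem_finsuppAntidiag]
    refine ⟨?_, fun i _ => Finset.mem_univ i⟩
    simp [Finsupp.single_apply]⟩
  have hwr : ∀ i' : {i : ι // i ∈ B}, w (Sum.inr i') = 0 := by
    intro i'
    have h3 := hu0 (i'.1, mk)
    simp only [u] at h3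
    rw [Fintype.sum_sum_type] at h3
    have h4 : ∀ j : {j : Fin (n + 1) // j ≠ k}, w (Sum.inl j) * M (Sum.inl j) (i'.1, mk) = 0 := by
      intro j
      have h5 : (Finsupp.single k d : Fin (n + 1) →₀ ℕ) j.1 = 0 := by
        rw [Finsupp.single_apply, if_neg (fun h => j.2 h.symm)]
      simp only [M, Sum.elim_inl, mk, h5]
      simp
    rw [Finset.sum_eq_zero (fun j _ => h4 j), zero_add, Finset.sum_eq_single i'] at h3
    · have h5 : ∏ l, xA l ^ ((Finsupp.single k d : Fin (n + 1) →₀ ℕ) l) = 1 := by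
        refine Finset.prod_eq_one fun l _ => ?_
        rw [Finsupp.single_apply]
        split_ifs with h
        · subst h
          have : xA k = 1 := Subtype.ext hk
          rw [this, one_pow]
        · rw [pow_zero]
      simp only [M, Sum.elim_inr, mk, if_true] at h3
      rw [h5, mul_one] at h3
      exact h3
    · intro i _ hne
      simp only [M, Sum.elim_inr]
      rw [if_neg (fun h => hne (Subtype.ext h.symm)), mul_zero]
    · intro h
      exact absurd (Finset.mem_univ _) h
  have hwl : ∀ j : {j : Fin (n + 1) // j ≠ k}, w (Sum.inl j) = 0 := by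
    intro j
    let ml : Mon n d := ⟨Finsupp.single k (d - 1) + Finsupp.single j.1 1, by
      rw [Finset.mem_finsuppAntidiag]
      refine ⟨?_, fun i _ => Finset.mem_univ i⟩
      have h6 : ∀ i, (Finsupp.single k (d - 1) + Finsupp.single j.1 1 : Fin (n + 1) →₀ ℕ) i
          = (if k = i then d - 1 else 0) + (if j.1 = i then 1 else 0) := fun i => by
        rw [Finsupp.add_apply, Finsupp.single_apply, Finsupp.single_apply]
      rw [Finset.sum_congr rfl fun i _ => h6 i, Finset.sum_add_distrib, Finset.sum_ite_eq,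
        Finset.sum_ite_eq, if_pos (Finset.mem_univ _), if_pos (Finset.mem_univ _)]
      omega⟩
    have h3 := hu0 (i₀, ml)
    simp only [u] at h3
    rw [Fintype.sum_sum_type] at h3
    rw [Finset.sum_eq_zero (s := (Finset.univ : Finset {i : ι // i ∈ B}))
      (fun i _ => by rw [hwr i, zero_mul]), add_zero, Finset.sum_eq_single j] at h3
    · have h5 : (ml.1 - Finsupp.single j.1 1 : Fin (n + 1) →₀ ℕ) = Finsupp.single k (d - 1) := by
        simp only [ml]
        rw [add_tsub_cancel_right]
      have h6 : ml.1 j.1 = 1 := by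
        simp only [ml, Finsupp.add_apply, Finsupp.single_apply]
        rw [if_neg (fun h => j.2 h.symm)]
        simp
      have h7 : ∏ l, xA l ^ ((Finsupp.single k (d - 1) : Fin (n + 1) →₀ ℕ) l) = 1 := by
        refine Finset.prod_eq_one fun l _ => ?_
        rw [Finsupp.single_apply]
        split_ifs with h
        · subst h
          have : xA k = 1 := Subtype.ext hk
          rw [this, one_pow]
        · rw [pow_zero]
      have h8 : lA i₀ = 1 := Subtype.ext hi
      simp only [M, Sum.elim_inl] at h3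
      rw [h5, h6, h7, h8] at h3
      simpa using h3
    · intro j' _ hne
      have h5 : ml.1 j'.1 = 0 := by
        simp only [ml, Finsupp.add_apply, Finsupp.single_apply]
        rw [if_neg (fun h => j'.2 h.symm), if_neg (fun h => hne (Subtype.ext h.symm)), add_zero]
      simp only [M, Sum.elim_inl]
      rw [h5]
      simp
    · intro h
      exact absurd (Finset.mem_univ _) h
  exact hw0 (funext fun r => by
    rcases r with j | i'
    · exact hwl j
    · exact hwr i')

/-- [GH-J1] Proof (`Pool.Agent.LG.indep_off`).  Suppose `x k ≠ 0` and `lam i₀ ≠ 0`.  Dividing `x` by `x k` and `lam` by `lam i₀` (`h1`, `h2` stay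
true: forms of degree `d`, partial derivatives forms of degree `d - 1`) we may assume `x k = 1`, `lam i₀ = 1`.  `B = {i | lam i ≠ 0}`, `r = card B`;
`y : Fin N → ℂ` the numbers `x j` (`j ≠ k`) and `lam i` (`i ∈ B`, `i ≠ i₀`), `N = n + r - 1`.  `indep_off` gives `S`, `S.card ≤ N`, such that the
`c e`, `e ∉ S`, are algebraically independent over `A = Algebra.adjoin ℚ (range y)`.  Consider the matrix over `A` with the rows
`(i', m) ↦ [i = i'] x^m` for `i ∈ B` and `(i', m) ↦ lam i' * ∂_j x^m` for `j ≠ k` (`N + 1 = n + r` rows; `∂_j x^m = m j * x^(m - e_j)`).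
There is a nonzero `w : rows → A` whose combination vanishes in the columns in `S` (more rows than columns: a linear map
`(rows → A) → (S → A)` is not injective, `card_le_of_injective`, `A` is a domain).  The equations say that each row, multiplied with `c`,
gives `0`; so `∑ e ∉ S, (w M)_e c_e = 0` with `(w M)_e ∈ A`, and by algebraic independence (linear independence of the `c e` over `A`:
`AlgebraicIndependent.linearIndependent`) `w M = 0`.  Column `(i₀, X_k^d)`: `w_{i₀} * 1 + 0 = 0`.  Columns `(i₀, X_k^(d-1) X_l)`,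
`l ≠ k`: `w_l = 0`.  Columns `(i, X_k^d)`: `w_i = 0`.  Contradiction. -/
theorem snc_crit_algInd {n d : ℕ} (hd : 1 ≤ d) {ι : Type} [Fintype ι] (c : ι → Mon n d → ℂ)
    (hc : AlgebraicIndependent ℚ (fun p : ι × Mon n d => c p.1 p.2))
    (x : Fin (n + 1) → ℂ) (lam : ι → ℂ) (h1 : ∀ i, eval x (frm (c i)) * lam i = 0)
    (h2 : ∀ j, ∑ i, lam i * eval x (pderiv j (frm (c i))) = 0) :
    ∀ i j, x j * lam i = 0 := by
  intro i₀ k
  by_contra hne
  have hx : x k ≠ 0 := fun h => hne (by rw [h, zero_mul])
  have hl : lam i₀ ≠ 0 := fun h => hne (by rw [h, mul_zero])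
  refine core hd c hc (fun j => (x k)⁻¹ * x j) (fun i => (lam i₀)⁻¹ * lam i) ?_ ?_ k i₀
    (inv_mul_cancel₀ hx) (inv_mul_cancel₀ hl)
  · intro i
    rw [ev_frm_smul]
    have h3 := h1 i
    calc (x k)⁻¹ ^ d * eval x (frm (c i)) * ((lam i₀)⁻¹ * lam i)
        = (x k)⁻¹ ^ d * (lam i₀)⁻¹ * (eval x (frm (c i)) * lam i) := by ring
      _ = 0 := by rw [h3, mul_zero]
  · intro j
    have h3 := h2 j
    calc ∑ i, (lam i₀)⁻¹ * lam i * eval (fun j => (x k)⁻¹ * x j) (pderiv j (frm (c i)))
        = ∑ i, ((lam i₀)⁻¹ * (x k)⁻¹ ^ (d - 1)) * (lam i * eval x (pderiv j (frm (c i)))) := by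
          refine Finset.sum_congr rfl fun i _ => ?_
          rw [ev_pd_smul]
          ring
      _ = 0 := by rw [← Finset.mul_sum, h3, mul_zero]

/-- [GH-J2] (for `B` take `lam` supported on `B`) -/
theorem snc_of_crit {n : ℕ} {ι : Type} [Fintype ι] (b : ι → MvPolynomial (Fin (n + 1)) ℂ)
    (h : ∀ (x : Fin (n + 1) → ℂ) (lam : ι → ℂ), (∀ i, eval x (b i) * lam i = 0) →
      (∀ j, ∑ i, lam i * eval x (pderiv j (b i)) = 0) → ∀ i j, x j * lam i = 0) : Snc b := by
  classical
  intro x hx B hB
  rw [Fintype.linearIndependent_iff]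
  intro g hg i
  obtain ⟨j, hj⟩ := Function.ne_iff.1 hx
  let lam : ι → ℂ := fun i => if h : i ∈ B then g ⟨i, h⟩ else 0
  have hlam : ∀ i : {i // i ∈ B}, lam i.1 = g i := by
    intro i
    simp only [lam]
    rw [dif_pos i.2]
  have h1 : ∀ i, eval x (b i) * lam i = 0 := by
    intro i
    by_cases hi : i ∈ B
    · rw [hB i hi, zero_mul]
    · simp only [lam]
      rw [dif_neg hi, mul_zero]
  have h2 : ∀ j, ∑ i, lam i * eval x (pderiv j (b i)) = 0 := by
    intro j
    have h3 := congrFun hg j
    rw [Finset.sum_apply] at h3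
    rw [← Finset.sum_subset (Finset.subset_univ B), Finset.sum_subtype B (fun _ => Iff.rfl)]
    · rw [Pi.zero_apply] at h3
      rw [← h3]
      refine Finset.sum_congr rfl fun i _ => ?_
      rw [hlam i]
      rfl
    · intro i _ hi
      simp only [lam]
      rw [dif_neg hi, zero_mul]
  have h4 := h x lam h1 h2 i.1 j
  rw [hlam i] at h4
  rcases mul_eq_zero.1 h4 with h5 | h5
  · exact absurd h5 hj
  · exact h5

end Pool.Agent.GH
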