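import Pool.Agent.Lib_MP_b9fedf_lo.SmtKey

/-! [GH-X0]: from the estimate on good circles to the estimate outside a set of finite measure, for
entire functions `h i` with `‖h i‖ ≤ K ‖f‖ ^ d`. -/

set_option autoImplicit false

namespace Pool.Agent.GH
open Filter Metric Real Set Function MeromorphicOn ValueDistribution
open Pool.Agent.GGL Pool.Agent.SQ Pool.Agent.Stat Pool.Agent.LO

/-- [GH-X0] Copy the proof of `smt_of_key` in Lib_MP_b9fedf_lo/SmtKey.lean with the following changes.  The functions `h i` replace the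
combinations `∑ a, q i a * g z a`, `h i / f_k ^ d` replaces the quotient by `g 0`, and the exponent `d` replaces `1` in `char_div_le_TF` and
`N_le_TF` (so `charT` is replaced by `d * charT` in the bounds; the constants change).  The coordinates `f_j` may vanish
identically: use `ldl` for the family of the `f_j / f_k` with `f_j` not identically zero and the `h i / f_k ^ d`; for
`f_j = 0` identically, `Good` is trivial (all iterated derivatives of the zero function are zero). -/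
theorem smt_of_keyH {n d : ℕ} {ι : Type} [Fintype ι] (h : ι → ℂ → ℂ)
    (hh : ∀ i, Differentiable ℂ (h i)) (hne : ∀ i, ∃ z, h i z ≠ 0)
    (f : ℂ → Fin (n + 1) → ℂ) (hf : Differentiable ℂ f) (hf0 : ∀ z, f z ≠ 0)
    (k : Fin (n + 1)) (hk : ∃ z, f z k ≠ 0) {KF : ℝ} (hle : ∀ i z, ‖h i z‖ ≤ KF * ‖f z‖ ^ d)
    {κ : ℝ} (hκ0 : 0 ≤ κ)
    (hkey : ∀ Z : ι → locallyFinsupp ℂ ℤ, (∀ i z, h i z = 0 → Z i z = 1) →
      (∀ i z, h i z ≠ 0 → Z i z = 0) →
      ∃ C : ℝ, 0 ≤ C ∧ ∀ (r B : ℝ), 1 ≤ r → 1 ≤ B →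
      (∀ j, ∀ z ∈ sphere (0 : ℂ) r, Good (fun w => f w j / f w k) B z) →
      (∀ i, ∀ z ∈ sphere (0 : ℂ) r, Good (fun w => h i w / f w k ^ d) B z) →
      κ * charT f r ≤
      ∑ i, Function.locallyFinsuppWithin.logCounting (Z i) r + C * (1 + Real.log B)) :
    ∃ (K : ℝ) (E : Set ℝ), MeasureTheory.volume E < ⊤ ∧ ∀ r, 1 ≤ r → r ∉ E →
      κ * charT f r ≤
        ∑ i, Nbar (h i) r + K * (Real.posLog (charT f r) + Real.log r + 1) := by
  classical
  have hfd : ∀ a, Differentiable ℂ (fun z => f z a) := fun a => differentiable_pi.1 hf a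
  have hfz : ∀ z, ∃ a, f z a ≠ 0 := by
    intro z
    by_contra hcon
    push Not at hcon
    exact hf0 z (funext hcon)
  choose Z hZ0 hZ1 hZ2 CN hCN using fun i => exists_reduced (hh i) (hne i)
  obtain ⟨C, hC0, hC⟩ := hkey Z hZ1 hZ2
  -- the family of quotients
  set F : {j : Fin (n + 1) // ∃ z, f z j ≠ 0} ⊕ ι → ℂ → ℂ := fun l =>
    Sum.elim (fun j z => f z j.1) (fun i z => h i z) l with hF
  have hFd : ∀ l, Differentiable ℂ (F l) := by
    rintro (j | i)
    · exact hfd j.1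
    · exact hh i
  have hFne : ∀ l, ∃ z, F l z ≠ 0 := by
    rintro (j | i)
    · exact j.2
    · exact hne i
  set D : {j : Fin (n + 1) // ∃ z, f z j ≠ 0} ⊕ ι → ℂ → ℂ := fun l =>
    Sum.elim (fun _ z => f z k) (fun _ z => f z k ^ d) l with hD
  have hDd : ∀ l, Differentiable ℂ (D l) := by
    rintro (j | i)
    · exact hfd k
    · exact (hfd k).pow d
  have hDne : ∀ l, ∃ z, D l z ≠ 0 := by
    obtain ⟨z, hz⟩ := hk
    rintro (j | i)
    · exact ⟨z, hz⟩
    · exact ⟨z, pow_ne_zero _ hz⟩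
  set G : {j : Fin (n + 1) // ∃ z, f z j ≠ 0} ⊕ ι → ℂ → ℂ := fun l z => F l z / D l z with hG
  have hGm : ∀ l, Meromorphic (G l) := fun l => div_mero (hFd l) (hDd l)
  have hGne : ∀ l z, meromorphicOrderAt (G l) z ≠ ⊤ := fun l z =>
    div_order_ne_top (hFd l) (hDd l) (hFne l) (hDne l) z
  obtain ⟨CL, hCL1, hCL⟩ := ldl G hGm hGne
  set τ : ℝ → ℝ := fun ρ => ∑ l, characteristic (G l) ⊤ ρ with hτ
  have hτmono : MonotoneOn τ (Set.Ici 1) := by
    intro x hx y hy hxy
    apply Finset.sum_le_sum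
    intro l _
    exact characteristic_monotoneOn (hGm _) (show (0 : ℝ) < x from lt_of_lt_of_le one_pos hx)
      (show (0 : ℝ) < y from lt_of_lt_of_le one_pos hy) hxy
  have hτ0 : ∀ ρ, 1 ≤ ρ → 0 ≤ τ ρ := fun ρ hρ =>
    Finset.sum_nonneg fun l _ => characteristic_nonneg hρ
  -- bounds by the characteristic
  set K1 : ℝ := 1 + |KF| with hK1d
  have hK11 : 1 ≤ K1 := by
    have := abs_nonneg KF
    rw [hK1d]; linarith
  have hKFK : KF ≤ K1 := by
    have := le_abs_self KF
    rw [hK1d]; linarith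
  have hhle : ∀ i z, ‖h i z‖ ≤ K1 * ‖fun a => (fun (a : Fin (n + 1)) z => f z a) a z‖ ^ d := by
    intro i z
    have h1 : ‖(fun a => (fun a z => f z a) a z : Fin (n + 1) → ℂ)‖ = ‖f z‖ := rfl
    rw [h1]
    exact (hle i z).trans (mul_le_mul_of_nonneg_right hKFK (by positivity))
  have hcle : ∀ j z, ‖f z j‖ ≤ K1 * ‖fun a => (fun (a : Fin (n + 1)) z => f z a) a z‖ ^ 1 := by
    intro j z
    rw [pow_one]
    have h1 : ‖(fun a => (fun a z => f z a) a z : Fin (n + 1) → ℂ)‖ = ‖f z‖ := rfl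
    rw [h1]
    have h2 : 0 ≤ ‖f z‖ := norm_nonneg _
    refine (norm_le_pi_norm (f z) j).trans ?_
    nlinarith
  have hpd : ∀ z, ‖f z k ^ d‖ ≤ K1 * ‖fun a => (fun (a : Fin (n + 1)) z => f z a) a z‖ ^ d := by
    intro z
    have h1 : ‖(fun a => (fun a z => f z a) a z : Fin (n + 1) → ℂ)‖ = ‖f z‖ := rfl
    rw [h1, norm_pow]
    have h2 : ‖f z k‖ ^ d ≤ ‖f z‖ ^ d := by
      have := norm_le_pi_norm (f z) k
      gcongr
    have h3 : 0 ≤ ‖f z‖ ^ d := by positivity
    nlinarith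
  have hdd : (0 : ℝ) ≤ d := Nat.cast_nonneg d
  have hchar : ∀ l, ∃ C' : ℝ, ∀ r, 1 ≤ r →
      characteristic (G l) ⊤ r ≤ ((d : ℝ) + 1) * max 1 (charT f r) + C' := by
    rintro (j | i)
    · obtain ⟨C', hC'⟩ := char_div_le_TF (f := fun a z => f z a) hfd hfz (hfd j.1) (hfd k) hk
        1 K1 (hcle j.1) (hcle k)
      refine ⟨C', fun r hr => ?_⟩
      have h1 := hC' r hr
      rw [Nat.cast_one, one_mul] at h1
      refine h1.trans (add_le_add ?_ le_rfl)
      have h2 : charT f r ≤ max 1 (charT f r) := le_max_right _ _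
      have h3 : 1 ≤ max 1 (charT f r) := le_max_left _ _
      have h4 : 0 ≤ (d : ℝ) * max 1 (charT f r) := by positivity
      refine h2.trans ?_
      linarith
    · obtain ⟨C', hC'⟩ := char_div_le_TF (f := fun a z => f z a) hfd hfz (hh i) ((hfd k).pow d)
        (hDne (Sum.inr i)) d K1 (hhle i) hpd
      refine ⟨C', fun r hr => ?_⟩
      refine (hC' r hr).trans (add_le_add ?_ le_rfl)
      have h2 : charT f r ≤ max 1 (charT f r) := le_max_right _ _
      have h3 : 1 ≤ max 1 (charT f r) := le_max_left _ _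
      have h4 : (d : ℝ) * charT f r ≤ d * max 1 (charT f r) := mul_le_mul_of_nonneg_left h2 hdd
      refine h4.trans ?_
      linarith
  choose Cc hCc using hchar
  have hcount : ∀ i, ∃ C' : ℝ, ∀ r, 1 ≤ r →
      Function.locallyFinsuppWithin.logCounting (Z i) r ≤
        ((d : ℝ) + 1) * max 1 (charT f r) + C' := by
    intro i
    obtain ⟨C', hC'⟩ := N_le_TF (f := fun a z => f z a) hfd hfz (hh i) (hne i)
      d K1 (hhle i)
    refine ⟨C', fun r hr => ?_⟩
    have h1 := hC' r hr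
    have h10 : Function.locallyFinsuppWithin.logCounting (Z i) r ≤
        Function.locallyFinsuppWithin.logCounting (Dv (h i)) r := by
      apply Function.locallyFinsuppWithin.logCounting_le _ hr
      intro z
      rw [Dv_apply (hh i)]
      by_cases h5 : h i z = 0
      · rw [hZ1 i z h5]
        have h6 : analyticOrderAt (h i) z ≠ 0 :=
          ((hh i).analyticAt z).analyticOrderAt_ne_zero.2 h5
        have h7 := order_ne_top (hh i) (hne i) z
        have h8 : (analyticOrderAt (h i) z).toNat ≠ 0 := by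
          rw [Ne, ENat.toNat_eq_zero]
          push Not
          exact ⟨h6, h7⟩
        exact Int.ofNat_le.2 (Nat.one_le_iff_ne_zero.2 h8)
      · rw [hZ2 i z h5]
        exact Int.natCast_nonneg _
    refine h10.trans (h1.trans (add_le_add ?_ le_rfl))
    have h2 : charT f r ≤ max 1 (charT f r) := le_max_right _ _
    have h3 : 1 ≤ max 1 (charT f r) := le_max_left _ _
    have h4 : (d : ℝ) * charT f r ≤ d * max 1 (charT f r) := mul_le_mul_of_nonneg_left h2 hdd
    refine h4.trans ?_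
    linarith
  choose Cz hCz using hcount
  set NZ : ℝ → ℝ := fun r => ∑ i, Function.locallyFinsuppWithin.logCounting (Z i) r with hNZ
  have hNZ0 : ∀ r, 1 ≤ r → 0 ≤ NZ r := fun r hr => Finset.sum_nonneg fun i _ =>
    Function.locallyFinsuppWithin.logCounting_nonneg (hZ0 i) hr
  have hNZm : ∀ r r', 1 ≤ r → r ≤ r' → NZ r ≤ NZ r' := fun r r' hr hrr' =>
    Finset.sum_le_sum fun i _ =>
    Function.locallyFinsuppWithin.logCounting_mono (hZ0 i) (show (0 : ℝ) < r by linarith)
      (show (0 : ℝ) < r' by linarith) hrr'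
  -- growth
  set Ψ : ℝ → ℝ := fun r => 1 + τ r + NZ r with hΨ
  set Θ : ℝ → ℝ := fun r => 1 + NZ r with hΘ
  have hΨ1 : ∀ r, 1 ≤ r → 1 ≤ Ψ r := fun r hr => by
    have := hτ0 r hr; have := hNZ0 r hr
    show 1 ≤ 1 + τ r + NZ r
    linarith
  have hΘ1 : ∀ r, 1 ≤ r → 1 ≤ Θ r := fun r hr => by
    have := hNZ0 r hr
    show 1 ≤ 1 + NZ r
    linarith
  have hΨm : MonotoneOn Ψ (Set.Ici 1) := fun a ha b hb hab => by
    have h1 := hτmono ha hb hab
    have h2 := hNZm a b ha hab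
    show 1 + τ a + NZ a ≤ 1 + τ b + NZ b
    linarith
  have hΘm : MonotoneOn Θ (Set.Ici 1) := fun a ha b hb hab => by
    have := hNZm a b ha hab
    show 1 + NZ a ≤ 1 + NZ b
    linarith
  have hE1 := growthE (b := 2) (by norm_num) Ψ hΨm hΨ1
  have hE2 := growth_add Θ hΘm hΘ1
  set E1 : Set ℝ := {r : ℝ | 1 ≤ r ∧ 2 * Ψ r < Ψ (r + 1 / Ψ r)} with hE1d
  set E2 : Set ℝ := {r : ℝ | 1 ≤ r ∧ Θ r + 1 < Θ (r + 1 / Θ r ^ 2)} with hE2d
  -- constants
  set c1 : ℝ := ∑ k, |Cc k| with hc1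
  have hc10 : 0 ≤ c1 := Finset.sum_nonneg fun k _ => abs_nonneg _
  set c2 : ℝ := ∑ i, |Cz i| with hc2
  have hc20 : 0 ≤ c2 := Finset.sum_nonneg fun k _ => abs_nonneg _
  set c3 : ℝ := ∑ i, |CN i| with hc3
  have hc30 : 0 ≤ c3 := Finset.sum_nonneg fun k _ => abs_nonneg _
  set nn : ℝ := (Fintype.card ({j : Fin (n + 1) // ∃ z, f z j ≠ 0} ⊕ ι) : ℝ) + Fintype.card ι with hnn
  have hnn0 : 0 ≤ nn := by rw [hnn]; positivity
  set K0 : ℝ := 1 + nn * ((d : ℝ) + 1) + c1 + c2 with hK0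
  have hK01 : 1 ≤ K0 := by
    have : 0 ≤ nn * ((d : ℝ) + 1) := by positivity
    rw [hK0]; linarith
  have hlK0 : 0 ≤ Real.log K0 := Real.log_nonneg hK01
  have hlCL : 0 ≤ Real.log CL := Real.log_nonneg hCL1
  have hΨle : ∀ r, 1 ≤ r → Ψ r ≤ K0 * max 1 (charT f r) := by
    intro r hr
    set X := max 1 (charT f r) with hX
    have hX1 : 1 ≤ X := le_max_left _ _
    have h1 : τ r ≤ (Fintype.card ({j : Fin (n + 1) // ∃ z, f z j ≠ 0} ⊕ ι) : ℝ) *
        (((d : ℝ) + 1) * X) + c1 := by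
      have h2 : τ r ≤ ∑ l : {j : Fin (n + 1) // ∃ z, f z j ≠ 0} ⊕ ι,
          (((d : ℝ) + 1) * X + |Cc l|) := by
        refine Finset.sum_le_sum fun l _ => (hCc l r hr).trans ?_
        have := le_abs_self (Cc l)
        linarith
      rw [Finset.sum_add_distrib, Finset.sum_const, Finset.card_univ, nsmul_eq_mul] at h2
      exact h2
    have h3 : NZ r ≤ (Fintype.card ι : ℝ) * (((d : ℝ) + 1) * X) + c2 := by
      have h2 : NZ r ≤ ∑ i : ι, (((d : ℝ) + 1) * X + |Cz i|) := by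
        refine Finset.sum_le_sum fun i _ => (hCz i r hr).trans ?_
        have := le_abs_self (Cz i)
        linarith
      rw [Finset.sum_add_distrib, Finset.sum_const, Finset.card_univ, nsmul_eq_mul] at h2
      exact h2
    have h5 : nn * (((d : ℝ) + 1) * X) =
        (Fintype.card ({j : Fin (n + 1) // ∃ z, f z j ≠ 0} ⊕ ι) : ℝ) * (((d : ℝ) + 1) * X) +
        Fintype.card ι * (((d : ℝ) + 1) * X) := by rw [hnn]; ring
    show 1 + τ r + NZ r ≤ K0 * X
    have h6 : c1 ≤ c1 * X := le_mul_of_one_le_right hc10 hX1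
    have h7 : c2 ≤ c2 * X := le_mul_of_one_le_right hc20 hX1
    have h8 : K0 * X = X + nn * (((d : ℝ) + 1) * X) + c1 * X + c2 * X := by rw [hK0]; ring
    rw [h8]
    linarith
  set c4 : ℝ := Real.log CL + 4 * (Real.log 4 + 3 * Real.log K0 + Real.log 3) with hc4
  have hl4 : 0 ≤ Real.log 4 := Real.log_nonneg (by norm_num)
  have hl3 : 0 ≤ Real.log 3 := Real.log_nonneg (by norm_num)
  have hc40 : 0 ≤ c4 := by rw [hc4]; positivity
  refine ⟨1 + c3 + C * (1 + c4) + 12 * C, E1 ∪ E2, ?_, ?_⟩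
  · exact lt_of_le_of_lt (MeasureTheory.measure_union_le _ _) (ENNReal.add_lt_top.2 ⟨hE1, hE2⟩)
  intro r hr hrE
  have hrE1 : Ψ (r + 1 / Ψ r) ≤ 2 * Ψ r := by
    by_contra hcon
    exact hrE (Or.inl ⟨hr, not_le.1 hcon⟩)
  have hrE2 : Θ (r + 1 / Θ r ^ 2) ≤ Θ r + 1 := by
    by_contra hcon
    exact hrE (Or.inr ⟨hr, not_le.1 hcon⟩)
  have hP1 := hΨ1 r hr
  have hT1 := hΘ1 r hr
  have hP0 : 0 < Ψ r := by linarith
  have hT0 : 0 < Θ r := by linarith
  have hPT : Θ r ≤ Ψ r := by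
    have := hτ0 r hr
    show 1 + NZ r ≤ 1 + τ r + NZ r
    linarith
  set δ : ℝ := 1 / (2 * Ψ r ^ 2) with hδ
  have hδ0 : 0 < δ := by rw [hδ]; positivity
  have hδ1 : δ ≤ 1 := by
    rw [hδ, div_le_one (by positivity)]
    nlinarith
  obtain ⟨r', ⟨hr1, hr2⟩, B, hB1, hB, hgood⟩ := hCL r δ hr hδ0 hδ1
  have hr'1 : 1 ≤ r' := hr.trans hr1
  have hlB : 0 ≤ Real.log B := Real.log_nonneg hB1
  -- `NZ r'`
  have hN : NZ r' ≤ 1 + NZ r := by
    have h1 : δ ≤ 1 / Θ r ^ 2 := by
      rw [hδ]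
      apply one_div_le_one_div_of_le (by positivity)
      nlinarith
    have h2 := hNZm r' (r + 1 / Θ r ^ 2) hr'1 (by linarith)
    have h3 : 1 + NZ (r + 1 / Θ r ^ 2) ≤ (1 + NZ r) + 1 := hrE2
    linarith
  -- `log B`
  have hlogΨ : Real.log (Ψ r) ≤ Real.log K0 + Real.posLog (charT f r) := by
    have h1 := Real.log_le_log hP0 (hΨle r hr)
    rw [Real.log_mul (by linarith) (by positivity)] at h1
    refine h1.trans (add_le_add le_rfl ?_)
    rcases le_total (charT f r) 1 with h25 | h25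
    · rw [max_eq_left h25, Real.log_one]
      exact Real.posLog_nonneg
    · rw [max_eq_right h25]
      exact le_max_right _ _
  have hpl : 0 ≤ Real.posLog (charT f r) := Real.posLog_nonneg
  have hlr : 0 ≤ Real.log r := Real.log_nonneg hr
  have hlogB : Real.log B ≤ c4 + 12 * Real.posLog (charT f r) + 4 * Real.log r := by
    have h5 : r + 2 * δ ≤ r + 1 / Ψ r := by
      have h51 : 2 * δ = 1 / Ψ r ^ 2 := by
        rw [hδ]
        field_simp
      have h52 : 1 / Ψ r ^ 2 ≤ 1 / Ψ r := by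
        apply one_div_le_one_div_of_le hP0
        nlinarith
      linarith
    have hr5 : 1 ≤ r + 1 / Ψ r := by
      have : 0 < 1 / Ψ r := by positivity
      linarith
    have hr6 : 1 ≤ r + 2 * δ := by linarith
    have h6 : 1 + ∑ l, characteristic (G l) ⊤ (r + 2 * δ) ≤ 2 * Ψ r := by
      have h61 : τ (r + 2 * δ) ≤ τ (r + 1 / Ψ r) := hτmono hr6 hr5 h5
      refine le_trans ?_ hrE1
      have := hNZ0 _ hr5
      show 1 + τ (r + 2 * δ) ≤ 1 + τ (r + 1 / Ψ r) + NZ (r + 1 / Ψ r)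
      linarith
    have h7 : (1 + ∑ l, characteristic (G l) ⊤ (r + 2 * δ)) * (r + 2) / δ ≤
        4 * Ψ r ^ 3 * (r + 2) := by
      rw [hδ, div_div_eq_mul_div, div_one]
      have h8 : (1 + ∑ l, characteristic (G l) ⊤ (r + 2 * δ)) * (r + 2) ≤
          2 * Ψ r * (r + 2) := mul_le_mul_of_nonneg_right h6 (by linarith)
      have h9 := mul_le_mul_of_nonneg_right h8 (show 0 ≤ 2 * Ψ r ^ 2 by positivity)
      rw [← hδ]
      refine h9.trans (le_of_eq (by ring))
    have h8 : 0 ≤ (1 + ∑ l, characteristic (G l) ⊤ (r + 2 * δ)) * (r + 2) / δ := by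
      have h9 : 0 ≤ ∑ l, characteristic (G l) ⊤ (r + 2 * δ) :=
        Finset.sum_nonneg fun k _ => characteristic_nonneg (by linarith)
      positivity
    have h9 : B ≤ CL * (4 * Ψ r ^ 3 * (r + 2)) ^ 4 :=
      hB.trans (mul_le_mul_of_nonneg_left (pow_le_pow_left₀ h8 h7 4) (by linarith))
    have h10 := Real.log_le_log (by linarith) h9
    rw [Real.log_mul (by linarith) (by positivity), Real.log_pow,
      Real.log_mul (by positivity) (by linarith), Real.log_mul (by norm_num) (by positivity),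
      Real.log_pow] at h10
    push_cast at h10
    have h11 : Real.log (r + 2) ≤ Real.log 3 + Real.log r := by
      rw [← Real.log_mul (by norm_num) (by positivity)]
      exact Real.log_le_log (by linarith) (by linarith)
    rw [hc4]
    linarith
  have h1 := hC r' B hr'1 hB1 (fun j z hz => by
    by_cases hj : ∃ z, f z j ≠ 0
    · exact hgood (Sum.inl ⟨j, hj⟩) z hz
    · push Not at hj
      have h0 : (fun w => f w j / f w k) = fun _ => (0 : ℂ) := by
        funext w
        rw [hj w, zero_div]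
      intro _ i
      rw [h0]
      have h01 : iteratedDeriv i (fun _ : ℂ => (0 : ℂ)) z = 0 := by
        simp
      rw [h01, norm_zero]
      positivity)
    (fun i z hz => hgood (Sum.inr i) z hz)
  have h2 : κ * charT f r' ≤ NZ r' + C * (1 + Real.log B) := h1
  have h3 : κ * charT f r ≤ κ * charT f r' :=
    mul_le_mul_of_nonneg_left (charT_mono hf hf0 (by linarith) hr1) hκ0
  have h4 : NZ r ≤ ∑ i, Nbar (h i) r + c3 := by
    rw [hc3, ← Finset.sum_add_distrib]
    refine Finset.sum_le_sum fun i _ => (hCN i r hr).trans ?_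
    have := le_abs_self (CN i)
    linarith
  have h6 : C * (1 + Real.log B) ≤ C * (1 + c4) + C * (12 * Real.posLog (charT f r) +
      4 * Real.log r) := by
    have := mul_le_mul_of_nonneg_left hlogB hC0
    linarith
  set PL := Real.posLog (charT f r) with hPL
  set LR := Real.log r with hLR
  have h7 : 0 ≤ (1 + c3 + C * (1 + c4)) * (PL + LR) := by positivity
  have h8 : 0 ≤ C * LR := mul_nonneg hC0 hlr
  nlinarith

end Pool.Agent.GH
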