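import Pool.Agent.Lib_MP_b9fedf_gh.CurveA
import Pool.Agent.Lib_MP_b9fedf_ag.CharTF

/-! [GH-X2]: circle averages. -/

set_option autoImplicit false

namespace Pool.Agent.GH
open MvPolynomial Filter Metric Real Set Function MeromorphicOn ValueDistribution
open Pool.Agent.GGL

variable {n d : ℕ}

private lemma log4_nonneg : (0 : ℝ) ≤ Real.log 4 := Real.log_nonneg (by norm_num)

/-- `a ^ d` times the derivative of `h / f_k ^ d` -/
private lemma quot_deriv (u v : ℂ → ℂ) (z : ℂ) (hu : DifferentiableAt ℂ u z)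
    (hv : DifferentiableAt ℂ v z) (hv0 : v z ≠ 0) (d : ℕ) :
    v z ^ d * deriv (fun w => u w / v w ^ d) z =
      deriv u z - d * (deriv v z / v z) * u z := by
  have h1 : HasDerivAt (fun w => v w ^ d) (d * v z ^ (d - 1) * deriv v z) z :=
    hv.hasDerivAt.fun_pow d
  have h2 := hu.hasDerivAt.fun_div h1 (pow_ne_zero d hv0)
  rw [h2.deriv]
  cases d with
  | zero => simp
  | succ d =>
    simp only [Nat.add_sub_cancel]
    field_simp
    ring

/-- the estimate of the derivative -/
private lemma good_deriv (u v : ℂ → ℂ) (z : ℂ) (B : ℝ) (hu : Differentiable ℂ u)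
    (hv : Differentiable ℂ v) (hv0 : v z ≠ 0) (d : ℕ)
    (hg : Good (fun w => u w / v w ^ d) B z) :
    ‖deriv u z - d * (deriv v z / v z) * u z‖ ≤ Real.exp 1 * B * ‖u z‖ := by
  have han : AnalyticAt ℂ (fun w => u w / v w ^ d) z :=
    (hu.analyticAt z).fun_div ((hv.analyticAt z).fun_pow d) (pow_ne_zero d hv0)
  have h1 := hg han 1
  rw [iteratedDeriv_one] at h1
  rw [← quot_deriv u v z (hu z) (hv z) hv0 d, norm_mul]
  have hp : 0 < ‖v z ^ d‖ := norm_pos_iff.mpr (pow_ne_zero d hv0)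
  calc ‖v z ^ d‖ * ‖deriv (fun w => u w / v w ^ d) z‖ ≤
      ‖v z ^ d‖ * (Real.exp 1 * (Nat.factorial 1 : ℕ) * B ^ 1 * ‖u z / v z ^ d‖) :=
        mul_le_mul_of_nonneg_left h1 hp.le
    _ = Real.exp 1 * B * ‖u z‖ := by
        rw [norm_div]
        field_simp
        simp

/-- the product estimate in the normalised direction -/
private lemma norm_phi_le {α β : ℕ} {C : ℝ} {ι : Type} [Fintype ι]
    (b : ι → MvPolynomial (Fin (n + 1)) ℂ) (hb : ∀ i, (b i).IsHomogeneous d)
    (G : MvPolynomial (XV n) ℂ) (hG : BiHom α β G) (hest : PtEst d α β C b G)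
    (f : ℂ → Fin (n + 1) → ℂ) (hf : Differentiable ℂ f) (k : Fin (n + 1)) (z : ℂ) (B : ℝ)
    (hB : 1 ≤ B) (hk : f z k ≠ 0)
    (hg1 : ∀ j, Good (fun w => f w j / f w k) B z)
    (hg2 : ∀ i, Good (fun w => eval (f w) (b i) / f w k ^ d) B z) :
    ‖phi G f k z‖ * ‖f z‖ ^ (d * Fintype.card ι) ≤
      ‖f z k‖ ^ β * (C * ‖f z‖ ^ α * (4 * B * ‖f z‖) ^ β *
        ∏ i, (4 * B * ‖eval (f z) (b i)‖)) := by
  have hfj : ∀ j, Differentiable ℂ (fun w => f w j) := fun j => differentiable_pi.mp hf j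
  set a : ℂ := f z k with ha
  set W : Fin (n + 1) → ℂ := fun j => a⁻¹ * tng f k z j with hW
  have htng : tng f k z = a • W := by
    funext j
    rw [hW, Pi.smul_apply, smul_eq_mul]
    rw [← mul_assoc, mul_inv_cancel₀ hk, one_mul]
  have he : Real.exp 1 ≤ 3 := by
    have := Real.exp_one_lt_d9
    linarith
  have he0 : 0 < Real.exp 1 := Real.exp_pos 1
  have hB0 : 0 < B := by linarith
  have h4B : 1 + Real.exp 1 * B ≤ 4 * B := by nlinarith
  -- the components of `W`
  have hWj : ∀ j, ‖W j‖ ≤ Real.exp 1 * B * ‖f z j‖ := by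
    intro j
    have h1 := good_deriv (fun w => f w j) (fun w => f w k) z B (hfj j) (hfj k) hk 1
      (by simpa using hg1 j)
    have h2 : W j = deriv (fun w => f w j) z - (1 : ℕ) *
        (deriv (fun w => f w k) z / f z k) * f z j := by
      rw [hW]
      simp only [tng]
      rw [← ha]
      push_cast
      field_simp
    rw [h2]
    exact h1
  have hWn : ‖W‖ ≤ Real.exp 1 * B * ‖f z‖ := by
    rw [pi_norm_le_iff_of_nonneg (by positivity)]
    intro j
    refine (hWj j).trans ?_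
    exact mul_le_mul_of_nonneg_left (norm_le_pi_norm (f z) j) (by positivity)
  have hdvW : ∀ i, dv (b i) (f z) W = a⁻¹ * dv (b i) (f z) (tng f k z) := by
    intro i
    simp only [dv, hW]
    rw [Finset.mul_sum]
    exact Finset.sum_congr rfl fun j _ => by ring
  have hdv : ∀ i, ‖dv (b i) (f z) W‖ ≤ Real.exp 1 * B * ‖eval (f z) (b i)‖ := by
    intro i
    have h1 := good_deriv (fun w => eval (f w) (b i)) (fun w => f w k) z B
      (comp_diff (b i) f hf) (hfj k) hk d (hg2 i)
    have h2 : dv (b i) (f z) W = deriv (fun w => eval (f w) (b i)) z -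
        d * (deriv (fun w => f w k) z / f z k) * eval (f z) (b i) := by
      rw [hdvW, dv_tng (b i) (hb i) f hf k z, ← ha]
      field_simp
    rw [h2]
    exact h1
  have hf0 : f z ≠ 0 := by
    intro h
    exact hk (congrFun h k)
  have hphi : phi G f k z = a ^ β * eval (Sum.elim (f z) W) G := by
    have h1 := eval_bihom hG 1 a (f z) W
    rw [one_smul, one_pow, one_mul] at h1
    rw [phi, htng, h1]
  have h2 := hest.2 (f z) W hf0
  rw [hphi, norm_mul, norm_pow, mul_assoc]
  refine mul_le_mul_of_nonneg_left (h2.trans ?_) (by positivity)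
  have h3 : ‖f z‖ + ‖W‖ ≤ 4 * B * ‖f z‖ := by
    have := norm_nonneg (f z)
    nlinarith
  have h4 : ∏ i, (‖eval (f z) (b i)‖ + ‖dv (b i) (f z) W‖) ≤
      ∏ i, (4 * B * ‖eval (f z) (b i)‖) := by
    refine Finset.prod_le_prod (fun i _ => by positivity) fun i _ => ?_
    have := norm_nonneg (eval (f z) (b i))
    have h5 := hdv i
    nlinarith
  have h5 : (‖f z‖ + ‖W‖) ^ β ≤ (4 * B * ‖f z‖) ^ β :=
    pow_le_pow_left₀ (by positivity) h3 β
  have hC0 : 0 ≤ C := hest.1
  refine mul_le_mul (mul_le_mul_of_nonneg_left h5 (by positivity)) h4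
    (Finset.prod_nonneg fun i _ => by positivity) (by positivity)

/-- [GH-X2a] Pointwise, where `f_k` and the `h_i = b_i(f)` do not vanish.  Proof.  Let `u_j = f_j / f_k`, `g_i = h_i / f_k ^ d`; with
`W = (1 / f_k) • tng f k`: `W_j = f_j' - (f_k' / f_k) f_j = f_k u_j'`, `‖u_j'‖ ≤ e B ‖u_j‖` (`Good` for `i = 1`), so `‖W‖ ≤ e B ‖f‖`;
`dv b_i f W = h_i' - d (f_k' / f_k) h_i = f_k ^ d g_i'`, so `‖dv b_i f W‖ ≤ e B ‖h_i‖`.  `Φ = G(f, f_k W) = f_k ^ β G(f, W)` (`eval_bihom` with
`s = 1`), and the product estimate at `(f, W)`: `‖G(f, W)‖ ‖f‖ ^ (d q) ≤ C ‖f‖ ^ α (1 + e B) ^ β ‖f‖ ^ β ∏ (1 + e B) ‖h_i‖`.  Take logarithms,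
`1 + e B ≤ 4 B`, `log (4 B) = log 4 + log B` (if `Φ(z) = 0`, i.e. the logarithm is not available, the statement assumes `Φ(z) ≠ 0`). -/
theorem log_phi {α β : ℕ} {C : ℝ} {ι : Type} [Fintype ι]
    (b : ι → MvPolynomial (Fin (n + 1)) ℂ) (hb : ∀ i, (b i).IsHomogeneous d)
    (G : MvPolynomial (XV n) ℂ) (hG : BiHom α β G) (hC : 0 < C) (hest : PtEst d α β C b G)
    (f : ℂ → Fin (n + 1) → ℂ) (hf : Differentiable ℂ f) (k : Fin (n + 1)) (z : ℂ) (B : ℝ)
    (hB : 1 ≤ B) (hk : f z k ≠ 0) (hh : ∀ i, eval (f z) (b i) ≠ 0) (hΦ : phi G f k z ≠ 0)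
    (hg1 : ∀ j, Good (fun w => f w j / f w k) B z)
    (hg2 : ∀ i, Good (fun w => eval (f w) (b i) / f w k ^ d) B z) :
    Real.log ‖phi G f k z‖ + ((d : ℝ) * Fintype.card ι - α - β) * Real.log ‖f z‖ ≤
      β * Real.log ‖f z k‖ + ∑ i, Real.log ‖eval (f z) (b i)‖ + Real.log C +
        (β + Fintype.card ι) * (Real.log 4 + Real.log B) := by
  have hB0 : 0 < B := by linarith
  have hf0 : 0 < ‖f z‖ := by
    rw [norm_pos_iff]
    intro h
    exact hk (congrFun h k)
  have hk0 : 0 < ‖f z k‖ := norm_pos_iff.mpr hk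
  have hh0 : ∀ i, 0 < ‖eval (f z) (b i)‖ := fun i => norm_pos_iff.mpr (hh i)
  have hΦ0 : 0 < ‖phi G f k z‖ := norm_pos_iff.mpr hΦ
  have h4B : 0 < 4 * B := by positivity
  have h1 := norm_phi_le b hb G hG hest f hf k z B hB hk hg1 hg2
  have hprod : 0 < ∏ i, (4 * B * ‖eval (f z) (b i)‖) :=
    Finset.prod_pos fun i _ => mul_pos h4B (hh0 i)
  have h2 := Real.log_le_log (by positivity) h1
  rw [Real.log_mul hΦ0.ne' (by positivity), Real.log_mul (by positivity) (by positivity),
    Real.log_mul (by positivity) hprod.ne', Real.log_mul (by positivity) (by positivity),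
    Real.log_mul hC.ne' (by positivity), Real.log_pow, Real.log_pow, Real.log_pow, Real.log_pow,
    Real.log_mul h4B.ne' hf0.ne', Real.log_mul (by norm_num) hB0.ne',
    Real.log_prod (fun i _ => (mul_pos h4B (hh0 i)).ne')] at h2
  have h3 : ∑ i, Real.log (4 * B * ‖eval (f z) (b i)‖) =
      Fintype.card ι * (Real.log 4 + Real.log B) + ∑ i, Real.log ‖eval (f z) (b i)‖ := by
    rw [← nsmul_eq_mul, ← Finset.card_univ, ← Finset.sum_const, ← Finset.sum_add_distrib]
    refine Finset.sum_congr rfl fun i _ => ?_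
    rw [Real.log_mul h4B.ne' (hh0 i).ne', Real.log_mul (by norm_num) hB0.ne']
  rw [h3] at h2
  push_cast at h2
  linarith

/-- [GH-X2b] The estimate on good circles.  Proof.  Average `log_phi` over the circle (`circleAverage_mono_codiscrete`, as in `average_main` in
Lib_MP_b9fedf_ag/TanKey.lean; the functions vanish only on a discrete set: `nonzero_codiscrete`), use `jensen` for `Φ`, `f_k` and
the `h_i`: `N(Φ) + (d q - α - β) T ≤ β N(f_k) + ∑ N(h_i) + C' + (β + q) log B`, `T = charT f r`, `N(f_k) ≤ T + C` (`N_le_TF` with `D = 1`).  By `ord_phi`,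
`∑ Dv h_i ≤ Dv Φ + ∑ Z_i` (pointwise), so `∑ N(h_i) ≤ N(Φ) + ∑ N(Z_i)` (`logCounting_le`, additivity, as in `key_estimate`). -/
theorem circ_est {α β : ℕ} {C : ℝ} {ι : Type} [Fintype ι]
    (b : ι → MvPolynomial (Fin (n + 1)) ℂ) (hb : ∀ i, (b i).IsHomogeneous d)
    (G : MvPolynomial (XV n) ℂ) (hG : BiHom α β G) (hest : PtEst d α β C b G)
    (f : ℂ → Fin (n + 1) → ℂ) (hf : Differentiable ℂ f) (hf0 : ∀ z, f z ≠ 0) (k : Fin (n + 1))
    (hk : ∃ z, f z k ≠ 0) (hne : ∀ i, ∃ z, eval (f z) (b i) ≠ 0) (hΦ : ∃ z, phi G f k z ≠ 0)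
    (Z : ι → locallyFinsupp ℂ ℤ) (hZ1 : ∀ i z, eval (f z) (b i) = 0 → Z i z = 1)
    (hZ2 : ∀ i z, eval (f z) (b i) ≠ 0 → Z i z = 0) :
    ∃ C' : ℝ, 0 ≤ C' ∧ ∀ (r B : ℝ), 1 ≤ r → 1 ≤ B →
      (∀ j, ∀ z ∈ sphere (0 : ℂ) r, Good (fun w => f w j / f w k) B z) →
      (∀ i, ∀ z ∈ sphere (0 : ℂ) r, Good (fun w => eval (f w) (b i) / f w k ^ d) B z) →
      ((d : ℝ) * Fintype.card ι - α - 2 * β) *
          circleAverage (fun z => Real.log ‖f z‖) 0 r ≤
        ∑ i, Function.locallyFinsuppWithin.logCounting (Z i) r + C' * (1 + Real.log B) := by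
  classical
  have hfj : ∀ j, Differentiable ℂ (fun w => f w j) := fun j => differentiable_pi.mp hf j
  have hΦd : Differentiable ℂ (phi G f k) := phi_diff G f hf k
  have hhd : ∀ i, Differentiable ℂ (fun z => eval (f z) (b i)) := fun i => comp_diff (b i) f hf
  have hC : 0 < C := by
    rcases hest.1.lt_or_eq with h | h
    · exact h
    · exfalso
      obtain ⟨z, hz⟩ := hΦ
      have h1 := hest.2 (f z) (tng f k z) (hf0 z)
      rw [← h, zero_mul, zero_mul, zero_mul] at h1
      have h2 : 0 < ‖eval (Sum.elim (f z) (tng f k z)) G‖ * ‖f z‖ ^ (d * Fintype.card ι) := by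
        have h3 : 0 < ‖f z‖ := norm_pos_iff.mpr (hf0 z)
        have h4 : 0 < ‖eval (Sum.elim (f z) (tng f k z)) G‖ := norm_pos_iff.mpr hz
        positivity
      linarith
  -- the multiplicities
  have hdiv : ∀ r : ℝ, 1 ≤ r → ∑ i, Function.locallyFinsuppWithin.logCounting
        (Dv (fun z => eval (f z) (b i))) r ≤
      Function.locallyFinsuppWithin.logCounting (Dv (phi G f k)) r +
        ∑ i, Function.locallyFinsuppWithin.logCounting (Z i) r := by
    intro r hr
    have h1 : (∑ i, Dv (fun z => eval (f z) (b i))) ≤ Dv (phi G f k) + ∑ i, Z i := by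
      intro z
      have h2 := ord_phi b hb G hest f hf hf0 k hne hΦ z
      rw [locallyFinsuppWithin.coe_add, Pi.add_apply, locallyFinsuppWithin.coe_sum,
        locallyFinsuppWithin.coe_sum, Finset.sum_apply, Finset.sum_apply, Dv_apply hΦd]
      have h3 : ∀ i, (Dv (fun z => eval (f z) (b i))) z ≤
          (((analyticOrderAt (fun w => eval (f w) (b i)) z).toNat - 1 : ℕ) : ℤ) + Z i z := by
        intro i
        rw [Dv_apply (hhd i)]
        by_cases hz : eval (f z) (b i) = 0
        · rw [hZ1 i z hz]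
          omega
        · rw [hZ2 i z hz, ((hhd i).analyticAt z).analyticOrderAt_eq_zero.2 hz]
          simp
      have h4 : ((∑ i, ((analyticOrderAt (fun w => eval (f w) (b i)) z).toNat - 1) : ℕ) : ℤ) ≤
          ((analyticOrderAt (phi G f k) z).toNat : ℤ) := by exact_mod_cast h2
      refine (Finset.sum_le_sum fun i _ => h3 i).trans ?_
      rw [Finset.sum_add_distrib]
      push_cast at h4 ⊢
      linarith
    have h2 := Function.locallyFinsuppWithin.logCounting_le h1 hr
    rw [map_add, map_sum, map_sum, Pi.add_apply, Finset.sum_apply, Finset.sum_apply] at h2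
    exact h2
  obtain ⟨C1, hC1⟩ := N_le_TF (σ := Fin (n + 1)) (f := fun j z => f z j) hfj
    (fun z => by
      by_contra hcon
      push Not at hcon
      exact hf0 z (funext hcon)) (hfj k) hk 1 1
    (fun z => by
      rw [pow_one, one_mul]
      exact norm_le_pi_norm (f z) k)
  set q : ℝ := (Fintype.card ι : ℝ) with hq
  set κ : ℝ := (d : ℝ) * q - α - β with hκ
  set K : ℝ := Real.log C + (β + q) * Real.log 4 +
    (∑ i, Real.log ‖meromorphicTrailingCoeffAt (fun z => eval (f z) (b i)) 0‖) +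
    β * Real.log ‖meromorphicTrailingCoeffAt (fun z => f z k) 0‖ -
    Real.log ‖meromorphicTrailingCoeffAt (phi G f k) 0‖ + β * C1 with hK
  have hq0 : 0 ≤ q := Nat.cast_nonneg _
  have hβ0 : (0 : ℝ) ≤ β := Nat.cast_nonneg _
  refine ⟨|K| + (β + q), by positivity, ?_⟩
  intro r B hr hB hgood1 hgood2
  have hr0 : 0 < r := by linarith
  have hvI : CircleIntegrable (fun z => Real.log ‖f z‖) 0 r := vec_integrable hfj r
  have hΦI := log_integrable (mero_of_diff hΦd) r
  have hkI := log_integrable (mero_of_diff (hfj k)) r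
  have hhI : ∀ i, CircleIntegrable (fun z => Real.log ‖eval (f z) (b i)‖) 0 r := fun i =>
    log_integrable (mero_of_diff (hhd i)) r
  have hsI : CircleIntegrable (fun z => ∑ i, Real.log ‖eval (f z) (b i)‖) 0 r := by
    have := CircleIntegrable.sum Finset.univ (f := fun i z => Real.log ‖eval (f z) (b i)‖)
      (c := 0) (R := r) (fun k _ => hhI k)
    convert! this using 1
    ext z
    simp
  have hcI : CircleIntegrable (fun z => (∑ i, Real.log ‖eval (f z) (b i)‖) +
      (Real.log C + (β + q) * (Real.log 4 + Real.log B))) 0 r :=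
    CircleIntegrable.add hsI (circleIntegrable_const _ _ _)
  have h1 : circleAverage (fun z => Real.log ‖phi G f k z‖ + κ * Real.log ‖f z‖) 0 r ≤
      circleAverage (fun z => β * Real.log ‖f z k‖ + ((∑ i, Real.log ‖eval (f z) (b i)‖) +
        (Real.log C + (β + q) * (Real.log 4 + Real.log B)))) 0 r := by
    apply circleAverage_mono_codiscrete hr0
      (CircleIntegrable.add hΦI (ci_mul κ hvI))
      (CircleIntegrable.add (ci_mul (β : ℝ) hkI) hcI)
    have h2 : ∀ᶠ z in codiscreteWithin (sphere (0 : ℂ) r), ∀ i, eval (f z) (b i) ≠ 0 :=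
      Filter.eventually_all.mpr fun i => nonzero_codiscrete (hhd i) (hne i) r
    filter_upwards [h2, nonzero_codiscrete hΦd hΦ r, nonzero_codiscrete (hfj k) hk r,
      self_mem_codiscreteWithin _] with z hz hΦz hkz hzs
    have := log_phi b hb G hG hC hest f hf k z B hB hkz hz hΦz (fun j => hgood1 j z hzs)
      (fun i => hgood2 i z hzs)
    show Real.log ‖phi G f k z‖ + κ * Real.log ‖f z‖ ≤
      β * Real.log ‖f z k‖ + ((∑ i, Real.log ‖eval (f z) (b i)‖) +
        (Real.log C + (β + q) * (Real.log 4 + Real.log B)))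
    linarith
  rw [circleAverage_fun_add hΦI (ci_mul κ hvI),
    circleAverage_fun_add (ci_mul (β : ℝ) hkI) hcI,
    circleAverage_fun_add hsI (circleIntegrable_const _ _ _),
    circleAverage_const, ca_mul, ca_mul, circleAverage_fun_sum (fun k _ => hhI k),
    jensen (mero_of_diff hΦd) hr, jensen (mero_of_diff (hfj k)) hr] at h1
  have h4 : ∑ i, circleAverage (fun z => Real.log ‖eval (f z) (b i)‖) 0 r =
      ∑ i, Function.locallyFinsuppWithin.logCounting (Dv (fun z => eval (f z) (b i))) r +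
        ∑ i, Real.log ‖meromorphicTrailingCoeffAt (fun z => eval (f z) (b i)) 0‖ := by
    rw [← Finset.sum_add_distrib]
    exact Finset.sum_congr rfl fun k _ => jensen (mero_of_diff (hhd k)) hr
  rw [h4] at h1
  have h5 := hdiv r hr
  have h6 : Function.locallyFinsuppWithin.logCounting (Dv (fun z => f z k)) r ≤
      circleAverage (fun z => Real.log ‖f z‖) 0 r + C1 := by
    have := hC1 r hr
    rw [Nat.cast_one, one_mul] at this
    exact this
  have h7 := mul_le_mul_of_nonneg_left h6 hβ0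
  have hlogB : 0 ≤ Real.log B := Real.log_nonneg hB
  have h8 : K ≤ |K| := le_abs_self _
  have h9 : 0 ≤ |K| * Real.log B := by positivity
  set A := circleAverage (fun z => Real.log ‖f z‖) 0 r with hA
  have h10 : (κ - β) * A ≤ ∑ i, Function.locallyFinsuppWithin.logCounting (Z i) r + K +
      (β + q) * Real.log B := by
    rw [hK]
    linarith
  have h11 : (d : ℝ) * q - α - 2 * β = κ - β := by rw [hκ]; ring
  rw [h11]
  have h12 : 0 ≤ (β + q) := by positivity
  nlinarith

end Pool.Agent.GH
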