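import Pool.Agent.Lib_MP_b9fedf_gh.BasicC

/-! [GH-C2]: the action of matrices on the coefficients of forms. -/

set_option autoImplicit false

namespace Pool.Agent.GH
open MvPolynomial Pool.Agent.GGL

variable {n d : ℕ}

/-- the matrix of the action of an integral matrix on the coefficients -/
noncomputable def rep (g : Matrix (Fin (n + 1)) (Fin (n + 1)) ℤ) (m m' : Mon n d) : ℤ :=
  coeff m.1 (sub g (monomial m'.1 (1 : ℤ)))

private theorem sub_map_int (g : Matrix (Fin (n + 1)) (Fin (n + 1)) ℤ) (P : MvPolynomial (Fin (n + 1)) ℤ) :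
    sub (g.map (Int.cast : ℤ → ℂ)) (MvPolynomial.map (Int.castRingHom ℂ) P) =
      MvPolynomial.map (Int.castRingHom ℂ) (sub g P) := by
  unfold sub
  induction P using MvPolynomial.induction_on with
  | C a => simp
  | add p q hp hq => rw [map_add, map_add, map_add, map_add, hp, hq]
  | mul_X p i hp =>
    rw [map_mul, map_mul, map_mul, map_mul, hp]
    refine congrArg (HMul.hMul _) ?_
    simp [map_sum]

private theorem sub_add' (g : Matrix (Fin (n + 1)) (Fin (n + 1)) ℂ) (c : Mon n d → ℂ) :
    sub g (frm c) = ∑ m' : Mon n d, C (c m') * sub g (monomial m'.1 (1 : ℂ)) := by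
  unfold frm sub
  rw [map_sum]
  refine Finset.sum_congr rfl fun m' _ => ?_
  have h : (monomial m'.1 (c m') : MvPolynomial (Fin (n + 1)) ℂ) = C (c m') * monomial m'.1 (1 : ℂ) := by
    rw [C_mul_monomial, mul_one]
  rw [h, map_mul, aeval_C]
  rfl

/-- (`frm c = ∑ m', C (c m') * monomial m' 1`, `sub` is a homomorphism, it commutes with `map`) -/
theorem act_eq (g : Matrix (Fin (n + 1)) (Fin (n + 1)) ℤ) (c : Mon n d → ℂ) (m : Mon n d) :
    act (g.map (Int.cast : ℤ → ℂ)) c m = ∑ m', (rep g m m' : ℂ) * c m' := by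
  unfold act rep
  rw [sub_add', coeff_sum]
  refine Finset.sum_congr rfl fun m' _ => ?_
  have h : (monomial m'.1 (1 : ℂ) : MvPolynomial (Fin (n + 1)) ℂ) =
      MvPolynomial.map (Int.castRingHom ℂ) (monomial m'.1 (1 : ℤ)) := by
    rw [map_monomial, eq_intCast, Int.cast_one]
  rw [coeff_C_mul, h, sub_map_int, coeff_map, mul_comm]
  rfl

private theorem sub_sub (g h : Matrix (Fin (n + 1)) (Fin (n + 1)) ℂ) (P : MvPolynomial (Fin (n + 1)) ℂ) :
    sub g (sub h P) = sub (h * g) P := by
  unfold sub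
  induction P using MvPolynomial.induction_on with
  | C a => simp
  | add p q hp hq => rw [map_add, map_add, map_add, hp, hq]
  | mul_X p i hp =>
    rw [map_mul, map_mul, map_mul, hp]
    refine congrArg (HMul.hMul _) ?_
    rw [aeval_X, aeval_X, map_sum]
    have e : ∀ k, aeval (fun j => ∑ l, C (g j l) * X l) (C (h i k) * X k : MvPolynomial (Fin (n + 1)) ℂ) =
        ∑ l, (C (h i k * g k l) * X l : MvPolynomial (Fin (n + 1)) ℂ) := by
      intro k
      rw [map_mul, aeval_C, aeval_X, Finset.mul_sum]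
      refine Finset.sum_congr rfl fun l _ => ?_
      rw [MvPolynomial.algebraMap_eq, ← mul_assoc, ← C_mul]
    rw [Finset.sum_congr rfl fun k _ => e k, Finset.sum_comm]
    refine Finset.sum_congr rfl fun l _ => ?_
    rw [Matrix.mul_apply, map_sum, Finset.sum_mul]

/-- `b(h (g x))` -/
theorem act_act (g h : Matrix (Fin (n + 1)) (Fin (n + 1)) ℂ) (c : Mon n d → ℂ) :
    act g (act h c) = act (h * g) c := by
  funext m
  have e1 : act g (act h c) m = coeff m.1 (sub g (frm (act h c))) := rfl
  have e2 : act (h * g) c m = coeff m.1 (sub (h * g) (frm c)) := rfl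
  rw [e1, e2, frm_act, sub_sub]

theorem act_one (c : Mon n d → ℂ) :
    act (1 : Matrix (Fin (n + 1)) (Fin (n + 1)) ℂ) c = c := by
  funext m
  have e1 : act (1 : Matrix (Fin (n + 1)) (Fin (n + 1)) ℂ) c m =
      coeff m.1 (sub (1 : Matrix (Fin (n + 1)) (Fin (n + 1)) ℂ) (frm c)) := rfl
  have e2 : sub (1 : Matrix (Fin (n + 1)) (Fin (n + 1)) ℂ) (frm c) = frm c := by
    unfold sub
    have e3 : (fun j => ∑ k, C ((1 : Matrix (Fin (n + 1)) (Fin (n + 1)) ℂ) j k) * X k :
        Fin (n + 1) → MvPolynomial (Fin (n + 1)) ℂ) = X := by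
      funext j
      rw [Finset.sum_eq_single j]
      · rw [Matrix.one_apply_eq, C_1, one_mul]
      · intro k _ hk
        rw [Matrix.one_apply_ne hk.symm, C_0, zero_mul]
      · intro hj
        exact absurd (Finset.mem_univ _) hj
    rw [e3, aeval_X_left_apply]
  rw [e1, e2]
  unfold frm
  rw [coeff_sum, Finset.sum_eq_single m]
  · rw [coeff_monomial, if_pos rfl]
  · intro m' _ hm
    rw [coeff_monomial, if_neg]
    exact fun h => hm (Subtype.ext h)
  · intro hj
    exact absurd (Finset.mem_univ _) hj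

end Pool.Agent.GH
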