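import Pool.Agent.Lib_MP_b9fedf_gh.Defs

/-! [GH-1B]: values over the complex numbers. -/

set_option autoImplicit false

namespace Pool.Agent.GH
open MvPolynomial Pool.Agent.GGL

variable {n d : ℕ}

theorem eval_inx (x v : Fin (n + 1) → ℂ) (P : MvPolynomial (Fin (n + 1)) ℂ) :
    eval (Sum.elim x v) (inx P) = eval x P := by
  unfold inx
  rw [eval_rename, Sum.elim_comp_inl]

theorem eval_dif (x v : Fin (n + 1) → ℂ) (P : MvPolynomial (Fin (n + 1)) ℂ) :
    eval (Sum.elim x v) (dif P) = ∑ j, eval x (pderiv j P) * v j := by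
  unfold dif
  rw [map_sum]
  refine Finset.sum_congr rfl fun j _ => ?_
  rw [map_mul, eval_rename, Sum.elim_comp_inl, eval_X, Sum.elim_inr]

private theorem wt_bb (e : XV n →₀ ℕ) :
    Finsupp.weight (Sum.elim (fun _ => ((1, 0) : ℕ × ℕ)) (fun _ => (0, 1))) e =
      (∑ j : Fin (n + 1), e (Sum.inl j), ∑ j : Fin (n + 1), e (Sum.inr j)) := by
  rw [Finsupp.weight_apply, Finsupp.sum_fintype _ _ (fun i => by rw [zero_smul]), Fintype.sum_sum_type]
  simp only [Sum.elim_inl, Sum.elim_inr]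
  refine Prod.ext ?_ ?_
  · simp [Prod.fst_sum]
  · simp [Prod.snd_sum]

/-- scaling -/
theorem eval_bihom {α β : ℕ} {G : MvPolynomial (XV n) ℂ} (hG : BiHom α β G) (s t : ℂ)
    (x v : Fin (n + 1) → ℂ) :
    eval (Sum.elim (s • x) (t • v)) G = s ^ α * t ^ β * eval (Sum.elim x v) G := by
  rw [eval_eq', eval_eq', Finset.mul_sum]
  refine Finset.sum_congr rfl fun e he => ?_
  have h1 := hG (mem_support_iff.1 he)
  rw [wt_bb, Prod.mk.injEq] at h1
  obtain ⟨h1, h2⟩ := h1
  rw [Fintype.prod_sum_type, Fintype.prod_sum_type]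
  simp only [Sum.elim_inl, Sum.elim_inr, Pi.smul_apply, smul_eq_mul, mul_pow, Finset.prod_mul_distrib]
  rw [Finset.prod_pow_eq_pow_sum, Finset.prod_pow_eq_pow_sum, h1, h2]
  ring

/-- Euler -/
theorem euler (P : MvPolynomial (Fin (n + 1)) ℂ) (hP : P.IsHomogeneous d) (x : Fin (n + 1) → ℂ) :
    ∑ j, eval x (pderiv j P) * x j = d * eval x P := by
  have h := congrArg (eval x) hP.sum_X_mul_pderiv
  rw [map_sum, nsmul_eq_mul, map_mul, map_natCast] at h
  rw [← h]
  refine Finset.sum_congr rfl fun j _ => ?_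
  rw [map_mul, eval_X, mul_comm]

end Pool.Agent.GH
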