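import Pool.Agent.Lib_MP_b9fedf_gh.Act
import Pool.Agent.Lib_MP_b9fedf_gh.BasicB
import Pool.Agent.Lib_MP_b9fedf_lg.MatA

/-! [GH-O]: the choice of coordinates. -/

set_option autoImplicit false

namespace Pool.Agent.GH
open MvPolynomial Pool.Agent.GGL

private theorem exists_spc_ne_o {σ ι M : Type} (P : MvPolynomial σ (MvPolynomial (ι × M) ℚ))
    (hP : P ≠ 0) : ∃ c : ι → M → ℂ, spc c P ≠ 0 := by
  obtain ⟨m, hm⟩ := MvPolynomial.ne_zero_iff.1 hP
  have h1 : MvPolynomial.map (algebraMap ℚ ℂ) (coeff m P) ≠ 0 := by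
    intro h
    exact hm (MvPolynomial.map_injective _ (algebraMap ℚ ℂ).injective (by rw [h, map_zero]))
  obtain ⟨x, hx⟩ := LG.exists_eval_ne h1
  refine ⟨fun i j => x (i, j), fun h => hx ?_⟩
  have h2 := congrArg (coeff m) h
  unfold spc at h2
  rw [coeff_map, coeff_zero] at h2
  rw [eval_map]
  exact h2

private theorem spc_bihom_o {ι M : Type} {n α β : ℕ} (c : ι → M → ℂ)
    {P : MvPolynomial (XV n) (MvPolynomial (ι × M) ℚ)} (hP : BiHom α β P) : BiHom α β (spc c P) := by
  intro m hm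
  refine hP (fun h => hm ?_)
  unfold spc
  rw [coeff_map, h, map_zero]

/-- two independent vectors at which a nonzero polynomial does not vanish -/
private theorem exists_pair_o {n : ℕ} (hn : 1 ≤ n) {Q : MvPolynomial (XV n) ℂ} (hQ : Q ≠ 0) :
    ∃ y w : Fin (n + 1) → ℂ, LinearIndependent ℂ ![y, w] ∧ eval (Sum.elim y w) Q ≠ 0 := by
  obtain ⟨i, j, hij⟩ : ∃ i j : Fin (n + 1), i ≠ j :=
    ⟨⟨0, by omega⟩, ⟨1, by omega⟩, by simp⟩
  obtain ⟨D, hD⟩ : ∃ D : MvPolynomial (XV n) ℂ,
      D = X (Sum.inl i) * X (Sum.inr j) - X (Sum.inl j) * X (Sum.inr i) := ⟨_, rfl⟩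
  have hDe : ∀ z : XV n → ℂ, eval z D = z (Sum.inl i) * z (Sum.inr j) - z (Sum.inl j) * z (Sum.inr i) := by
    intro z
    rw [hD, map_sub, map_mul, map_mul, eval_X, eval_X, eval_X, eval_X]
  have hD0 : D ≠ 0 := by
    intro h
    have h1 := hDe (Sum.elim (Pi.single i 1) (Pi.single j 1))
    rw [h, map_zero, Sum.elim_inl, Sum.elim_inr, Sum.elim_inl, Sum.elim_inr, Pi.single_eq_same,
      Pi.single_eq_same, Pi.single_eq_of_ne hij.symm, zero_mul, sub_zero, mul_one] at h1
    exact zero_ne_one h1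
  obtain ⟨z, hz⟩ := LG.exists_eval_ne (mul_ne_zero hD0 hQ)
  rw [map_mul, hDe] at hz
  refine ⟨fun k => z (Sum.inl k), fun k => z (Sum.inr k), ?_, ?_⟩
  · rw [LinearIndependent.pair_iff]
    intro s t h
    have h0 := congrFun h i
    have h1 := congrFun h j
    simp only [Pi.add_apply, Pi.smul_apply, smul_eq_mul, Pi.zero_apply] at h0 h1
    have hz1 := left_ne_zero_of_mul hz
    constructor
    · have h2 : s * (z (Sum.inl i) * z (Sum.inr j) - z (Sum.inl j) * z (Sum.inr i)) = 0 := by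
        linear_combination z (Sum.inr j) * h0 - z (Sum.inr i) * h1
      exact (mul_eq_zero.1 h2).resolve_right hz1
    · have h2 : t * (z (Sum.inl i) * z (Sum.inr j) - z (Sum.inl j) * z (Sum.inr i)) = 0 := by
        linear_combination z (Sum.inl i) * h1 - z (Sum.inl j) * h0
      exact (mul_eq_zero.1 h2).resolve_right hz1
  · have h2 : Sum.elim (fun k => z (Sum.inl k)) (fun k => z (Sum.inr k)) = z := by
      funext k
      rcases k with k | k <;> rfl
    rw [h2]
    exact right_ne_zero_of_mul hz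

/-- [GH-O] Proof (compare `exists_integral` in Lib_MP_b9fedf_lg/MatA.lean).  There is `c` with `spc c P ≠ 0` (a nonzero coefficient of `P` is a
nonzero polynomial).  `Q = spc c P` is bihomogeneous.  As `Q` times the minor `x_0 v_1 - x_1 v_0` (two independent vectors: `n ≥ 1`) is not the zero
polynomial, there are independent `y`, `w` with `Q(y, w) ≠ 0`.  There is an invertible `M` with `M x = y`, `M v = w` (bases).  For `h = M⁻¹`,
`adjugate h = (det h) M`, so `Q(adj h x, adj h v) = (det h) ^ (α + β) Q(y, w) ≠ 0` (`eval_bihom`).  Hence the polynomial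
`Q(adj h x, adj h v) * det h` in the entries of `h` is not zero, and it is nonzero at an integral matrix
(`LG.exists_int_eval_ne`). -/
theorem exists_int {n d α β : ℕ} {ι : Type} [Fintype ι]
    (P : MvPolynomial (XV n) (MvPolynomial (ι × Mon n d) ℚ)) (hP0 : P ≠ 0) (hPh : BiHom α β P)
    (x v : Fin (n + 1) → ℂ) (hxv : LinearIndependent ℂ ![x, v]) :
    ∃ (g : Matrix (Fin (n + 1)) (Fin (n + 1)) ℤ) (c : ι → Mon n d → ℂ), g.det ≠ 0 ∧
      eval (Sum.elim ((g.map (Int.cast : ℤ → ℂ)).adjugate.mulVec x)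
        ((g.map (Int.cast : ℤ → ℂ)).adjugate.mulVec v)) (spc c P) ≠ 0 := by
  have hn : 1 ≤ n := by
    have h := hxv.fintype_card_le_finrank
    rw [Fintype.card_fin, Module.finrank_fin_fun] at h
    omega
  obtain ⟨c, hc⟩ := exists_spc_ne_o P hP0
  obtain ⟨Q, hQ⟩ : ∃ Q, Q = spc c P := ⟨_, rfl⟩
  have hQh : BiHom α β Q := by
    rw [hQ]
    exact spc_bihom_o c hPh
  rw [← hQ] at hc
  obtain ⟨y, w, hyw, hQ0⟩ := exists_pair_o hn hc
  obtain ⟨A, hA, hAx, hAv⟩ := LG.exists_matrix hxv hyw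
  -- the polynomial in the entries
  obtain ⟨G, hG⟩ : ∃ G : Matrix (Fin (n + 1)) (Fin (n + 1))
      (MvPolynomial (Fin (n + 1) × Fin (n + 1)) ℂ), G = Matrix.mvPolynomialX _ _ ℂ := ⟨_, rfl⟩
  obtain ⟨R, hR⟩ : ∃ R : MvPolynomial (Fin (n + 1) × Fin (n + 1)) ℂ,
      R = G.det * aeval (Sum.elim (G.adjugate.mulVec fun i => C (x i))
        (G.adjugate.mulVec fun i => C (v i))) Q := ⟨_, rfl⟩
  have hev : ∀ M : Matrix (Fin (n + 1)) (Fin (n + 1)) ℂ, eval (fun p => M p.1 p.2) R =
      M.det * eval (Sum.elim (M.adjugate.mulVec x) (M.adjugate.mulVec v)) Q := by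
    intro M
    obtain ⟨f, hf⟩ : ∃ f : MvPolynomial (Fin (n + 1) × Fin (n + 1)) ℂ →+* ℂ,
        f = eval (fun p => M p.1 p.2) := ⟨_, rfl⟩
    have h1 : f.mapMatrix G = M := by
      rw [hf, hG]
      exact Matrix.mvPolynomialX_mapMatrix_eval M
    have h2 : f G.det = M.det := by rw [RingHom.map_det, h1]
    have h3 : f.mapMatrix G.adjugate = M.adjugate := by rw [RingHom.map_adjugate, h1]
    have h4 : ∀ (x : Fin (n + 1) → ℂ) (i : Fin (n + 1)), f ((G.adjugate.mulVec fun i => C (x i)) i) =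
        M.adjugate.mulVec x i := by
      intro x i
      rw [← h3]
      simp only [Matrix.mulVec, dotProduct, map_sum, map_mul, RingHom.mapMatrix_apply,
        Matrix.map_apply]
      refine Finset.sum_congr rfl fun j _ => ?_
      rw [hf, eval_C]
    rw [hR, ← hf, map_mul, h2]
    congr 1
    have h5 : f (aeval (Sum.elim (G.adjugate.mulVec fun i => C (x i))
        (G.adjugate.mulVec fun i => C (v i))) Q) =
        eval₂ (f.comp C) (fun t => f (Sum.elim (G.adjugate.mulVec fun i => C (x i))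
        (G.adjugate.mulVec fun i => C (v i)) t)) Q := by
      rw [aeval_def, hom_eval₂]
      rfl
    rw [h5]
    have h6 : f.comp C = RingHom.id ℂ := by
      ext x
      rw [hf]
      simp
    have h7 : (fun t => f (Sum.elim (G.adjugate.mulVec fun i => C (x i))
        (G.adjugate.mulVec fun i => C (v i)) t)) =
        Sum.elim (M.adjugate.mulVec x) (M.adjugate.mulVec v) := by
      funext t
      rcases t with t | t
      · rw [Sum.elim_inl, Sum.elim_inl, h4]
      · rw [Sum.elim_inr, Sum.elim_inr, h4]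
    rw [h6, h7]
    rfl
  have hR0 : R ≠ 0 := by
    intro h
    have h1 := hev A
    rw [h, map_zero, hAx, hAv, eval_bihom hQh] at h1
    have h2 : A.det * (A.det ^ α * A.det ^ β * eval (Sum.elim y w) Q) ≠ 0 :=
      mul_ne_zero hA (mul_ne_zero (mul_ne_zero (pow_ne_zero _ hA) (pow_ne_zero _ hA)) hQ0)
    exact h2 h1.symm
  obtain ⟨g, hg⟩ := LG.exists_int_eval_ne hR0
  refine ⟨Matrix.of fun i j => g (i, j), c, ?_, ?_⟩
  · intro h
    apply hg
    have h1 := hev ((Matrix.of fun i j => g (i, j)).map (Int.cast : ℤ → ℂ))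
    have h2 : ((Matrix.of fun i j => g (i, j)).map (Int.cast : ℤ → ℂ)).det = 0 := by
      have := Int.cast_det (R := ℂ) (Matrix.of fun i j => g (i, j))
      rw [h] at this
      simpa using this.symm
    rw [h2, zero_mul] at h1
    exact h1
  · intro h
    apply hg
    have h1 := hev ((Matrix.of fun i j => g (i, j)).map (Int.cast : ℤ → ℂ))
    rw [hQ, h, mul_zero] at h1
    rw [hQ] at *
    exact h1

end Pool.Agent.GH
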