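import Mathlib

/-! [GH-T]: the Schwarz lemma in several variables, for functions vanishing on the coordinate hyperplanes. -/

set_option autoImplicit false

namespace Pool.Agent.GH

/-- [GH-T] A function on the polydisc `‖t i‖ < R i` (`R i > 1`), differentiable in each variable, bounded
by `M`, which vanishes whenever a coordinate vanishes, satisfies `‖h (1, …, 1)‖ ≤ M ∏ (1 / R i)`.
Proof.  Show by induction on the finset `s` of the coordinates which have been set to `1`: for all `t` in the
polydisc with `t i = 1` for `i ∈ s`, `‖h t‖ ≤ M * ∏ i ∈ s, 1 / R i`.  Step `insert i s`: for `t` with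
`t i = 1`, `u z = h (Function.update t i z)` is differentiable on `ball 0 (R i)`, bounded there by
`M' = M * ∏ i ∈ s, 1 / R i` (the induction hypothesis applies as `i ∉ s`) and `u 0 = 0`; the Schwarz lemma
(`Complex.norm_le_div_mul_norm_of_mapsTo_ball`, `Complex.dist_le_div_mul_dist_of_mapsTo_ball` or the version for `MapsTo … closedBall`, otherwise with
`M' + ε`) gives `‖u 1‖ ≤ M' / R i`, and `Function.update t i 1 = t`. -/
theorem schwarz_multi {B : Type} [Fintype B] [DecidableEq B] (R : B → ℝ) (hR : ∀ i, 1 < R i)
    (h : (B → ℂ) → ℂ) {M : ℝ} (hM : ∀ t : B → ℂ, (∀ i, ‖t i‖ < R i) → ‖h t‖ ≤ M)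
    (hd : ∀ t : B → ℂ, (∀ i, ‖t i‖ < R i) → DifferentiableAt ℂ h t)
    (h0 : ∀ t : B → ℂ, (∀ i, ‖t i‖ < R i) → ∀ i, t i = 0 → h t = 0) :
    ‖h (fun _ => 1)‖ ≤ M * ∏ i, (1 / R i) := by
  have key : ∀ s : Finset B, ∀ t : B → ℂ, (∀ i, ‖t i‖ < R i) → (∀ i ∈ s, t i = 1) →
      ‖h t‖ ≤ M * ∏ i ∈ s, (1 / R i) := by
    intro s
    induction s using Finset.induction_on with
    | empty =>
      intro t ht _
      simpa using hM t ht
    | insert i s hi ih =>
      intro t ht hts
      have hRi : 0 < R i := lt_trans one_pos (hR i)
      have hti : t i = 1 := hts i (Finset.mem_insert_self i s)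
      -- the polydisc is preserved
      have hup : ∀ z : ℂ, ‖z‖ < R i → ∀ j, ‖Function.update t i z j‖ < R j := by
        intro z hz j
        rcases eq_or_ne j i with rfl | hj
        · rw [Function.update_self]; exact hz
        · rw [Function.update_of_ne hj]; exact ht j
      have hu0 : h (Function.update t i 0) = 0 :=
        h0 _ (hup 0 (by rw [norm_zero]; exact hRi)) i (Function.update_self i 0 t)
      have hdiff : DifferentiableOn ℂ (fun z : ℂ => h (Function.update t i z))
          (Metric.ball (0 : ℂ) (R i)) := by
        intro z hz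
        rw [mem_ball_zero_iff] at hz
        refine DifferentiableAt.differentiableWithinAt ?_
        have h1 : DifferentiableAt ℂ (fun z : ℂ => Function.update t i z) z := by
          rw [differentiableAt_pi]
          intro j
          rcases eq_or_ne j i with rfl | hj
          · simp only [Function.update_self]
            exact differentiableAt_id
          · simp only [Function.update_of_ne hj]
            exact differentiableAt_const _
        exact (hd _ (hup z hz)).comp z h1
      have hmaps : Set.MapsTo (fun z : ℂ => h (Function.update t i z)) (Metric.ball (0 : ℂ) (R i))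
          (Metric.closedBall ((fun z : ℂ => h (Function.update t i z)) 0)
            (M * ∏ j ∈ s, (1 / R j))) := by
        intro z hz
        rw [mem_ball_zero_iff] at hz
        simp only [hu0, Metric.mem_closedBall, dist_zero_right]
        refine ih _ (hup z hz) ?_
        intro j hj
        have hji : j ≠ i := fun e => hi (e ▸ hj)
        rw [Function.update_of_ne hji]
        exact hts j (Finset.mem_insert_of_mem hj)
      have hone : (1 : ℂ) ∈ Metric.ball (0 : ℂ) (R i) := by
        rw [mem_ball_zero_iff, norm_one]; exact hR i
      have hS := Complex.dist_le_div_mul_dist_of_mapsTo_ball hdiff hmaps hone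
      simp only [hu0, dist_zero_right, norm_one, mul_one] at hS
      have hupd : Function.update t i 1 = t := by
        rw [← hti, Function.update_eq_self]
      rw [hupd] at hS
      rw [Finset.prod_insert hi]
      calc ‖h t‖ ≤ (M * ∏ j ∈ s, (1 / R j)) / R i := hS
        _ = M * (1 / R i * ∏ j ∈ s, (1 / R j)) := by ring
  exact key Finset.univ (fun _ => 1) (fun i => by simpa using hR i) (fun _ _ => rfl)

end Pool.Agent.GH
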