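import Pool.Agent.Lib_MP_b9fedf_gh.BasicA
import Pool.Agent.Lib_MP_b9fedf_ag.TanCnt

/-! [GH-D]: the space of bihomogeneous polynomials. -/

set_option autoImplicit false

namespace Pool.Agent.GH
open MvPolynomial Pool.Agent.GGL

/-- the bihomogeneous polynomials of bidegree `(α, β)` -/
noncomputable def biSpace (F : Type) [Field F] (n α β : ℕ) : Submodule F (MvPolynomial (XV n) F) :=
  weightedHomogeneousSubmodule F
    (Sum.elim (fun _ => ((1, 0) : ℕ × ℕ)) (fun _ => (0, 1)) : XV n → ℕ × ℕ) (α, β)

theorem mem_biSpace {F : Type} [Field F] {n α β : ℕ} (G : MvPolynomial (XV n) F) :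
    G ∈ biSpace F n α β ↔ BiHom α β G := Iff.rfl

private def GHD_S (n α β : ℕ) : Set (XV n →₀ ℕ) :=
  {e | Finsupp.weight (Sum.elim (fun _ => ((1, 0) : ℕ × ℕ)) (fun _ => (0, 1)) :
    XV n → ℕ × ℕ) e = (α, β)}

private theorem GHD_weight (n : ℕ) (e : XV n →₀ ℕ) :
    Finsupp.weight (Sum.elim (fun _ => ((1, 0) : ℕ × ℕ)) (fun _ => (0, 1)) : XV n → ℕ × ℕ) e =
      (∑ a, e (Sum.inl a), ∑ a, e (Sum.inr a)) := by
  rw [Finsupp.weight_apply, Finsupp.sum_fintype e _ (by intro i; exact zero_smul ℕ _),
    Fintype.sum_sum_type]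
  refine Prod.ext ?_ ?_
  · simp [Prod.fst_sum]
  · simp [Prod.snd_sum]

private theorem GHD_mem (m d : ℕ) (f : Fin (m + 1) →₀ ℕ) :
    f ∈ Finset.finsuppAntidiag (Finset.univ : Finset (Fin (m + 1))) d ↔ ∑ a, f a = d := by
  rw [Finset.mem_finsuppAntidiag]
  exact ⟨fun h => h.1, fun h => ⟨h, Finset.subset_univ _⟩⟩

private noncomputable def GHD_equiv (n α β : ℕ) : GHD_S n α β ≃ Mon n α × Mon n β :=
  (Equiv.subtypeEquiv (Finsupp.sumFinsuppEquivProdFinsupp (α := Fin (n + 1))
    (β := Fin (n + 1)) (γ := ℕ))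
    (q := fun p => p.1 ∈ Finset.finsuppAntidiag (Finset.univ : Finset (Fin (n + 1))) α ∧
      p.2 ∈ Finset.finsuppAntidiag (Finset.univ : Finset (Fin (n + 1))) β)
    (fun e => by
      rw [GHD_mem, GHD_mem]
      show Finsupp.weight _ e = (α, β) ↔ _
      rw [GHD_weight, Prod.mk.injEq]
      rfl)).trans Equiv.subtypeProdEquivProd

/-- [GH-D1] Proof.  `weightedHomogeneousSubmodule_eq_finsupp_supported`; the exponents of bidegree `(α, β)` are a finite set
(each exponent is `≤ α` or `≤ β`). -/
theorem finite_biSpace (F : Type) [Field F] (n α β : ℕ) : FiniteDimensional F (biSpace F n α β) := by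
  have : Finite (GHD_S n α β) := Finite.of_equiv _ (GHD_equiv n α β).symm
  unfold biSpace
  rw [weightedHomogeneousSubmodule_eq_finsupp_supported]
  exact Module.Finite.of_basis (basisRestrictSupport F (GHD_S n α β))

/-- [GH-D2] The exponents `e : XV n →₀ ℕ` of bidegree `(α, β)` are the pairs (exponents of degree `α` in
`n + 1` variables, the same with `β`), and there are `(α + n).choose n` exponents of degree `α` (`Sym`, stars and bars; see also `Mon` and
`Fintype.card (Mon n α)` in Lib_MP_b9fedf_ag, where this count may be present: grep `card_Mon`). -/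
theorem finrank_biSpace (F : Type) [Field F] (n α β : ℕ) :
    Module.finrank F (biSpace F n α β) = (α + n).choose n * (β + n).choose n := by
  unfold biSpace
  rw [weightedHomogeneousSubmodule_eq_finsupp_supported]
  have h1 := Module.finrank_eq_nat_card_basis (basisRestrictSupport F (GHD_S n α β))
  have h2 : Nat.card (GHD_S n α β) = (α + n).choose n * (β + n).choose n := by
    rw [Nat.card_congr (GHD_equiv n α β), Nat.card_prod, Nat.card_eq_fintype_card,
      Nat.card_eq_fintype_card, card_Mon, card_Mon, Nat.add_comm n α, Nat.add_comm n β,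
      Nat.choose_symm_add, Nat.choose_symm_add]
  exact h1.trans h2

end Pool.Agent.GH
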