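import Pool.Agent.Lib_MP_b9fedf_gh.Defs

/-! [GH-1A]: elementary facts on the definitions, over any ring. -/

set_option autoImplicit false

namespace Pool.Agent.GH
open MvPolynomial Pool.Agent.GGL

variable {R : Type} [CommRing R] {n d : ℕ}

private theorem basicA_degree (m : Mon n d) : (m.1 : Fin (n + 1) →₀ ℕ).degree = d := by
  have h := m.2
  rw [Finset.mem_finsuppAntidiag] at h
  rw [Finsupp.degree_eq_sum]
  exact h.1

private theorem basicA_mem (m : Fin (n + 1) →₀ ℕ) (hm : m.degree = d) :
    m ∈ Finset.finsuppAntidiag (Finset.univ : Finset (Fin (n + 1))) d := by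
  rw [Finset.mem_finsuppAntidiag]
  refine ⟨?_, Finset.subset_univ _⟩
  rw [← hm, Finsupp.degree_eq_sum]

private theorem basicA_weight (m : Fin (n + 1) →₀ ℕ) :
    Finsupp.weight (Sum.elim (fun _ => ((1, 0) : ℕ × ℕ)) (fun _ => (0, 1)) : XV n → ℕ × ℕ)
      (m.mapDomain Sum.inl) = (m.degree, 0) := by
  rw [Finsupp.weight_apply, Finsupp.sum_mapDomain_index (by simp) (by intro a b c; rw [add_smul]),
    Finsupp.sum, Finsupp.degree_apply]
  have : ∀ i ∈ m.support, m i • (Sum.elim (fun _ => ((1, 0) : ℕ × ℕ)) (fun _ => (0, 1)) : XV n → ℕ × ℕ)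
      (Sum.inl i) = (m i, 0) := by
    intro i _
    ext <;> simp
  rw [Finset.sum_congr rfl this]
  ext
  · rw [Prod.fst_sum]
  · rw [Prod.snd_sum]
    simp

theorem frm_hom (c : Mon n d → R) : (frm c).IsHomogeneous d := by
  unfold frm
  apply MvPolynomial.IsHomogeneous.sum
  intro m _
  exact isHomogeneous_monomial _ (basicA_degree m)

theorem coeff_frm (c : Mon n d → R) (m : Mon n d) : coeff m.1 (frm c) = c m := by
  classical
  unfold frm
  rw [coeff_sum, Finset.sum_eq_single m]
  · simp
  · intro b _ hb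
    rw [coeff_monomial, if_neg]
    intro h
    exact hb (Subtype.ext h)
  · intro h
    exact absurd (Finset.mem_univ _) h

/-- every form of degree `d` is `frm` of its coefficients -/
theorem frm_coeff (P : MvPolynomial (Fin (n + 1)) R) (hP : P.IsHomogeneous d) :
    frm (fun m : Mon n d => coeff m.1 P) = P := by
  classical
  ext m
  by_cases hm : m.degree = d
  · exact coeff_frm _ (⟨m, basicA_mem m hm⟩ : Mon n d)
  · rw [(frm_hom _).coeff_eq_zero hm, hP.coeff_eq_zero hm]

theorem map_frm {S : Type} [CommRing S] (f : R →+* S) (c : Mon n d → R) :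
    map f (frm c) = frm (fun m => f (c m)) := by
  unfold frm
  rw [map_sum]
  apply Finset.sum_congr rfl
  intro m _
  rw [map_monomial]

theorem map_inx {S : Type} [CommRing S] (f : R →+* S) (P : MvPolynomial (Fin (n + 1)) R) :
    map f (inx P) = inx (map f P) := by
  unfold inx
  rw [map_rename]

theorem map_dif {S : Type} [CommRing S] (f : R →+* S) (P : MvPolynomial (Fin (n + 1)) R) :
    map f (dif P) = dif (map f P) := by
  unfold dif
  rw [map_sum]
  apply Finset.sum_congr rfl
  intro j _
  rw [map_mul, map_rename, map_X, pderiv_map]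

theorem inx_bihom (P : MvPolynomial (Fin (n + 1)) R) (hP : P.IsHomogeneous d) :
    BiHom d 0 (inx P) := by
  unfold BiHom inx
  rw [P.as_sum, map_sum]
  apply IsWeightedHomogeneous.sum
  intro m hm
  rw [rename_monomial]
  apply isWeightedHomogeneous_monomial
  rw [basicA_weight]
  have h : m.degree = d := by
    by_contra hne
    exact (mem_support_iff.mp hm) (hP.coeff_eq_zero hne)
  rw [h]

/-- for `d = 0` both sides are zero -/
theorem dif_bihom (P : MvPolynomial (Fin (n + 1)) R) (hP : P.IsHomogeneous d) :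
    BiHom (d - 1) 1 (dif P) := by
  unfold BiHom dif
  apply IsWeightedHomogeneous.sum
  intro j _
  have h1 : BiHom (d - 1) 0 (inx (pderiv j P)) := inx_bihom _ hP.pderiv
  have h2 : IsWeightedHomogeneous (Sum.elim (fun _ => ((1, 0) : ℕ × ℕ)) (fun _ => (0, 1)) : XV n → ℕ × ℕ)
      (X (Sum.inr j) : MvPolynomial (XV n) R) (0, 1) := isWeightedHomogeneous_X R _ (Sum.inr j)
  have h3 := IsWeightedHomogeneous.mul h1 h2
  have e : ((d - 1, 0) : ℕ × ℕ) + (0, 1) = (d - 1, 1) := by simp
  rw [e] at h3
  exact h3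

theorem BiHom.mul {α β α' β' : ℕ} {G G' : MvPolynomial (XV n) R} (h : BiHom α β G)
    (h' : BiHom α' β' G') : BiHom (α + α') (β + β') (G * G') := by
  exact IsWeightedHomogeneous.mul h h'

/-- `InI` is preserved by ring homomorphisms -/
theorem InI.map {R S : Type} [CommRing R] [CommRing S] (f : R →+* S) {n : ℕ}
    {b : MvPolynomial (Fin (n + 1)) R} {G : MvPolynomial (XV n) R} (h : InI b G) :
    InI (MvPolynomial.map f b) (MvPolynomial.map f G) := by
  obtain ⟨P, P', h⟩ := h
  refine ⟨MvPolynomial.map f P, MvPolynomial.map f P', ?_⟩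
  rw [h, map_add, map_mul, map_mul, map_inx, map_dif]

end Pool.Agent.GH
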