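import Pool.Agent.Lib_MP_b9fedf_gh.BasicA
import Pool.Agent.Lib_MP_b9fedf_gh.BasicB

/-! [GH-1C]: linear substitutions. -/

set_option autoImplicit false

namespace Pool.Agent.GH
open MvPolynomial Pool.Agent.GGL

variable {n d : ℕ}

theorem eval_sub (g : Matrix (Fin (n + 1)) (Fin (n + 1)) ℂ) (P : MvPolynomial (Fin (n + 1)) ℂ)
    (x : Fin (n + 1) → ℂ) : eval x (sub g P) = eval (g.mulVec x) P := by
  have h1 : eval x (sub g P) = eval₂Hom (RingHom.id ℂ)
      (fun i => eval₂Hom (RingHom.id ℂ) x (∑ k, C (g i k) * X k)) P :=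
    eval₂Hom_bind₁ (RingHom.id ℂ) x (fun i => ∑ k, C (g i k) * X k) P
  rw [h1]
  have h2 : (fun i => eval₂Hom (RingHom.id ℂ) x (∑ k, C (g i k) * X k)) = g.mulVec x := by
    funext i
    rw [map_sum]
    refine Finset.sum_congr rfl fun k _ => ?_
    simp
  rw [h2]
  rfl

theorem eval_sub2 (g : Matrix (Fin (n + 1)) (Fin (n + 1)) ℂ) (G : MvPolynomial (XV n) ℂ)
    (x v : Fin (n + 1) → ℂ) :
    eval (Sum.elim x v) (sub2 g G) = eval (Sum.elim (g.mulVec x) (g.mulVec v)) G := by
  have h1 : eval (Sum.elim x v) (sub2 g G) = eval₂Hom (RingHom.id ℂ)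
      (fun i => eval₂Hom (RingHom.id ℂ) (Sum.elim x v)
        (Sum.elim (fun j => ∑ k, C (g j k) * X (Sum.inl k))
          (fun j => ∑ k, C (g j k) * X (Sum.inr k)) i)) G :=
    eval₂Hom_bind₁ (RingHom.id ℂ) (Sum.elim x v)
      (Sum.elim (fun j => ∑ k, C (g j k) * X (Sum.inl k))
          (fun j => ∑ k, C (g j k) * X (Sum.inr k))) G
  rw [h1]
  have h2 : (fun i => eval₂Hom (RingHom.id ℂ) (Sum.elim x v)
        (Sum.elim (fun j => ∑ k, C (g j k) * X (Sum.inl k))
          (fun j => ∑ k, C (g j k) * X (Sum.inr k)) i)) =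
      Sum.elim (g.mulVec x) (g.mulVec v) := by
    funext i
    rcases i with i | i
    · simp only [Sum.elim_inl]
      rw [map_sum]
      refine Finset.sum_congr rfl fun k _ => ?_
      simp
    · simp only [Sum.elim_inr]
      rw [map_sum]
      refine Finset.sum_congr rfl fun k _ => ?_
      simp
  rw [h2]
  rfl

theorem sub_hom (g : Matrix (Fin (n + 1)) (Fin (n + 1)) ℂ) (P : MvPolynomial (Fin (n + 1)) ℂ)
    (hP : P.IsHomogeneous d) : (sub g P).IsHomogeneous d := by
  have h1 := hP.aeval (fun j => ∑ k, C (g j k) * X k : Fin (n + 1) → MvPolynomial (Fin (n + 1)) ℂ)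
    (n := 1) (fun i => IsHomogeneous.sum _ _ _ fun k _ => isHomogeneous_C_mul_X (g i k) k)
  rw [one_mul] at h1
  exact h1

theorem frm_act (g : Matrix (Fin (n + 1)) (Fin (n + 1)) ℂ) (c : Mon n d → ℂ) :
    frm (act g c) = sub g (frm c) :=
  frm_coeff (sub g (frm c)) (sub_hom g _ (frm_hom c))

private theorem aeval_wh {w : XV n → ℕ × ℕ} {m : ℕ × ℕ} {G : MvPolynomial (XV n) ℂ}
    (hG : IsWeightedHomogeneous w G m) {f : XV n → MvPolynomial (XV n) ℂ}
    (hf : ∀ i, IsWeightedHomogeneous w (f i) (w i)) :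
    IsWeightedHomogeneous w (aeval f G) m := by
  rw [aeval_def, eval₂_eq']
  refine IsWeightedHomogeneous.sum _ _ _ fun i hi => ?_
  have h1 : IsWeightedHomogeneous w (∏ k, f k ^ i k) (∑ k, i k • w k) :=
    IsWeightedHomogeneous.prod _ _ _ (fun k _ => (hf k).pow (i k))
  have h2 : ∑ k, i k • w k = m := by
    rw [← hG (mem_support_iff.mp hi), Finsupp.weight_apply, Finsupp.sum_fintype]
    intro k
    exact zero_smul _ _
  rw [h2] at h1
  exact h1.C_mul _

theorem sub2_bihom (g : Matrix (Fin (n + 1)) (Fin (n + 1)) ℂ) {α β : ℕ}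
    {G : MvPolynomial (XV n) ℂ} (hG : BiHom α β G) : BiHom α β (sub2 g G) := by
  refine aeval_wh hG fun i => ?_
  rcases i with i | i
  · refine IsWeightedHomogeneous.sum _ _ _ fun k _ => ?_
    exact (isWeightedHomogeneous_X ℂ (Sum.elim (fun _ => ((1, 0) : ℕ × ℕ)) (fun _ => (0, 1)))
      (Sum.inl k : XV n)).C_mul (g i k)
  · refine IsWeightedHomogeneous.sum _ _ _ fun k _ => ?_
    exact (isWeightedHomogeneous_X ℂ (Sum.elim (fun _ => ((1, 0) : ℕ × ℕ)) (fun _ => (0, 1)))
      (Sum.inr k : XV n)).C_mul (g i k)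

private theorem pderiv_sub' (g : Matrix (Fin (n + 1)) (Fin (n + 1)) ℂ)
    (b : MvPolynomial (Fin (n + 1)) ℂ) (j : Fin (n + 1)) :
    pderiv j (sub g b) = ∑ i, C (g i j) * sub g (pderiv i b) := by
  induction b using MvPolynomial.induction_on with
  | C a =>
    have e : sub g (C a) = C a := by
      unfold sub
      exact algHom_C _ a
    rw [e, pderiv_C]
    symm
    refine Finset.sum_eq_zero fun i _ => ?_
    rw [pderiv_C]
    have e2 : sub g (0 : MvPolynomial (Fin (n + 1)) ℂ) = 0 := by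
      unfold sub
      exact map_zero _
    rw [e2, mul_zero]
  | add p q hp hq =>
    have e : ∀ p q : MvPolynomial (Fin (n + 1)) ℂ, sub g (p + q) = sub g p + sub g q := by
      intro p q
      unfold sub
      exact map_add _ _ _
    rw [e, map_add, hp, hq, ← Finset.sum_add_distrib]
    refine Finset.sum_congr rfl fun i _ => ?_
    rw [map_add, e, mul_add]
  | mul_X p k hp =>
    have e : ∀ p : MvPolynomial (Fin (n + 1)) ℂ,
        sub g (p * X k) = sub g p * ∑ l, C (g k l) * X l := by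
      intro p
      unfold sub
      rw [map_mul, aeval_X]
    have e1 : pderiv j (∑ l, C (g k l) * X l : MvPolynomial (Fin (n + 1)) ℂ) = C (g k j) := by
      rw [map_sum, Finset.sum_eq_single j]
      · rw [pderiv_C_mul, pderiv_X_self, mul_one]
      · intro l _ hl
        rw [pderiv_C_mul, pderiv_X_of_ne hl, mul_zero]
      · intro h
        exact absurd (Finset.mem_univ j) h
    have e2 : ∀ i, sub g (pderiv i (p * X k)) = sub g (pderiv i p) * (∑ l, C (g k l) * X l) +
        sub g p * (if i = k then 1 else 0) := by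
      intro i
      have h1 : pderiv i (p * X k) = pderiv i p * X k + p * (if i = k then 1 else 0) := by
        rw [pderiv_mul, pderiv_X]
        congr 2
        by_cases h : i = k
        · rw [if_pos h, h, Pi.single_eq_same]
        · rw [if_neg h, Pi.single_eq_of_ne (Ne.symm h)]
      rw [h1]
      unfold sub
      rw [map_add, map_mul, aeval_X, map_mul]
      congr 2
      split_ifs
      · exact map_one _
      · exact map_zero _
    rw [e, pderiv_mul, hp, e1]
    simp only [e2, mul_add, Finset.sum_add_distrib, Finset.sum_mul]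
    congr 1
    · refine Finset.sum_congr rfl fun i _ => ?_
      rw [mul_assoc]
    · rw [Finset.sum_eq_single k]
      · rw [if_pos rfl, mul_one, mul_comm]
      · intro i _ hi
        rw [if_neg hi, mul_zero, mul_zero]
      · intro h
        exact absurd (Finset.mem_univ k) h

/-- `InI (b(g x)) G` implies `InI (b(x)) (G(h x, h v))` if `g h = t` (a scalar, `t ≠ 0` is not needed).
Proof.  Apply the homomorphism `sub2 h` to `G = b(g x) P + D(b(g x))(v) P'`: `b(g h x) = b(t x) = t ^ d b(x)` and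
`D(b ∘ g)(h x)(h v) = Db(g h x)(g h v) = t ^ d Db(x, v)`; both are polynomial identities (`MvPolynomial.funext` over
`ℂ`, `eval_sub2`, `eval_inx`, `eval_dif`, the chain rule `∑ j, ∂_j (sub g b) (y) w_j = ∑ i, ∂_i b (g y) (g w)_i`). -/
theorem InI.sub2 {g h : Matrix (Fin (n + 1)) (Fin (n + 1)) ℂ} {t : ℂ}
    (hgh : g * h = t • (1 : Matrix (Fin (n + 1)) (Fin (n + 1)) ℂ))
    {b : MvPolynomial (Fin (n + 1)) ℂ} (hb : b.IsHomogeneous d) {G : MvPolynomial (XV n) ℂ}
    (hG : InI (sub g b) G) : InI b (Pool.Agent.GH.sub2 h G) := by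
  obtain ⟨P, P', rfl⟩ := hG
  have hm : ∀ y : Fin (n + 1) → ℂ, g.mulVec (h.mulVec y) = t • y := by
    intro y
    rw [Matrix.mulVec_mulVec, hgh, Matrix.smul_mulVec, Matrix.one_mulVec]
  have k1 : Pool.Agent.GH.sub2 h (inx (sub g b)) = C (t ^ d) * inx b := by
    apply MvPolynomial.funext
    intro y
    obtain ⟨x, v, rfl⟩ : ∃ x v, y = Sum.elim x v :=
      ⟨y ∘ Sum.inl, y ∘ Sum.inr, (Sum.elim_comp_inl_inr y).symm⟩
    rw [eval_sub2, eval_inx, eval_sub, hm, map_mul, eval_C, eval_inx]
    have h1 := eval_bihom (inx_bihom b hb) t 1 x v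
    rw [eval_inx, eval_inx, one_pow, mul_one] at h1
    exact h1
  have k2 : Pool.Agent.GH.sub2 h (dif (sub g b)) = C (t ^ d) * dif b := by
    apply MvPolynomial.funext
    intro y
    obtain ⟨x, v, rfl⟩ : ∃ x v, y = Sum.elim x v :=
      ⟨y ∘ Sum.inl, y ∘ Sum.inr, (Sum.elim_comp_inl_inr y).symm⟩
    have h1 : eval (Sum.elim x v) (Pool.Agent.GH.sub2 h (dif (sub g b))) =
        eval (Sum.elim (t • x) (t • v)) (dif b) := by
      rw [eval_sub2, eval_dif, eval_dif]
      have h2 : ∀ j, eval (h.mulVec x) (pderiv j (sub g b)) =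
          ∑ i, g i j * eval (t • x) (pderiv i b) := by
        intro j
        rw [pderiv_sub', map_sum]
        refine Finset.sum_congr rfl fun i _ => ?_
        rw [map_mul, eval_C, eval_sub, hm]
      have h3 : ∀ i, (t • v) i = ∑ j, g i j * h.mulVec v j := by
        intro i
        rw [← hm v]
        rfl
      simp only [h2, h3, Finset.sum_mul, Finset.mul_sum]
      rw [Finset.sum_comm]
      refine Finset.sum_congr rfl fun i _ => Finset.sum_congr rfl fun j _ => ?_
      ring
    rw [h1, eval_bihom (dif_bihom b hb) t t x v, map_mul, eval_C]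
    rcases Nat.eq_zero_or_pos d with hd | hd
    · have hb0 : ∀ j, pderiv j b = 0 := by
        intro j
        rw [hd] at hb
        have h4 : b = C (coeff 0 b) := (totalDegree_eq_zero_iff_eq_C).mp
          (Nat.le_zero.mp hb.totalDegree_le)
        rw [h4, pderiv_C]
      have h5 : dif b = 0 := by
        unfold dif
        refine Finset.sum_eq_zero fun j _ => ?_
        rw [hb0, map_zero, zero_mul]
      rw [h5, map_zero, mul_zero, mul_zero]
    · rw [← pow_add, Nat.sub_add_cancel hd]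
  refine ⟨C (t ^ d) * Pool.Agent.GH.sub2 h P, C (t ^ d) * Pool.Agent.GH.sub2 h P', ?_⟩
  have k3 : Pool.Agent.GH.sub2 h (inx (sub g b) * P + dif (sub g b) * P') =
      Pool.Agent.GH.sub2 h (inx (sub g b)) * Pool.Agent.GH.sub2 h P +
        Pool.Agent.GH.sub2 h (dif (sub g b)) * Pool.Agent.GH.sub2 h P' := by
    unfold Pool.Agent.GH.sub2
    rw [map_add, map_mul, map_mul]
  rw [k3, k1, k2]
  ring

end Pool.Agent.GH
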