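import Pool.Agent.Lib_MP_b9fedf_gh.BasicA

/-! [GH-M]: clearing denominators. -/

set_option autoImplicit false

namespace Pool.Agent.GH
open MvPolynomial Pool.Agent.GGL

/-- a common denominator of a finite family of polynomials -/
private theorem clear_fam {A W T : Type} [CommRing A] [IsDomain A] [Fintype T]
    (H : T → MvPolynomial W (FractionRing A)) :
    ∃ (d : A) (H' : T → MvPolynomial W A), d ≠ 0 ∧
      ∀ t, MvPolynomial.map (algebraMap A (FractionRing A)) (H' t) =
        C (algebraMap A (FractionRing A) d) * H t := by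
  classical
  obtain ⟨b, hb⟩ := IsLocalization.exist_integer_multiples (nonZeroDivisors A)
    ((Finset.univ : Finset T).sigma (fun t => (H t).support)) (fun p => coeff p.2 (H p.1))
  have hb0 : (b : A) ≠ 0 := nonZeroDivisors.ne_zero b.2
  have hex : ∀ t, ∀ m : W →₀ ℕ,
      ∃ a : A, algebraMap A (FractionRing A) a = (b : A) • coeff m (H t) := by
    intro t m
    by_cases hm : m ∈ (H t).support
    · exact hb ⟨t, m⟩ (Finset.mem_sigma.mpr ⟨Finset.mem_univ t, hm⟩)
    · exact ⟨0, by rw [notMem_support_iff.mp hm, map_zero, smul_zero]⟩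
  choose c hc using hex
  refine ⟨b, fun t => ∑ m ∈ (H t).support, monomial m (c t m), hb0, fun t => ?_⟩
  ext m
  rw [coeff_map, coeff_C_mul, coeff_sum]
  simp only [coeff_monomial]
  rw [Finset.sum_ite_eq']
  split_ifs with h1
  · rw [hc t m, Algebra.smul_def]
  · rw [notMem_support_iff.mp h1, map_zero, mul_zero]

/-- [GH-M] Proof.  `G = inx (map b_i) * P i + dif (map b_i) * P' i`; there is `s ≠ 0` in `A` such that `s G`, `s P i`, `s P' i` have coefficients in
`A` (`IsLocalization.exist_integer_multiples` for the finitely many coefficients, see `OG.clear` in Lib_MP_b9fedf_og/Descent.lean); the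
lifts satisfy the same identities as `map (algebraMap A (FractionRing A))` is injective (`map_inx`, `map_dif`). -/
theorem clear_univ {A : Type} [CommRing A] [IsDomain A] {n α β : ℕ} {ι : Type} [Fintype ι]
    (b : ι → MvPolynomial (Fin (n + 1)) A) (G : MvPolynomial (XV n) (FractionRing A)) (hG0 : G ≠ 0)
    (hGh : BiHom α β G)
    (hGI : ∀ i, InI (MvPolynomial.map (algebraMap A (FractionRing A)) (b i)) G) :
    ∃ G' : MvPolynomial (XV n) A, G' ≠ 0 ∧ BiHom α β G' ∧ ∀ i, InI (b i) G' := by
  have hinj : Function.Injective (algebraMap A (FractionRing A)) :=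
    IsFractionRing.injective A (FractionRing A)
  choose P P' hP using hGI
  obtain ⟨d, H', hd, hH⟩ := clear_fam (Sum.elim (fun _ : Unit => G) (Sum.elim P P'))
  have hG' : MvPolynomial.map (algebraMap A (FractionRing A)) (H' (Sum.inl ())) =
      C (algebraMap A (FractionRing A) d) * G := hH (Sum.inl ())
  have hd' : algebraMap A (FractionRing A) d ≠ 0 := fun h =>
    hd (hinj (by rw [h, map_zero]))
  refine ⟨H' (Sum.inl ()), ?_, ?_, fun i => ⟨H' (Sum.inr (Sum.inl i)), H' (Sum.inr (Sum.inr i)), ?_⟩⟩
  · intro h
    rw [h, map_zero] at hG'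
    exact mul_ne_zero (fun h1 => hd' (C_eq_zero.mp h1)) hG0 hG'.symm
  · intro m hm
    refine hGh (d := m) fun h => hm ?_
    apply hinj
    rw [map_zero, ← coeff_map, hG', coeff_C_mul, h, mul_zero]
  · apply map_injective (algebraMap A (FractionRing A)) hinj
    have h1 : MvPolynomial.map (algebraMap A (FractionRing A)) (H' (Sum.inr (Sum.inl i))) =
      C (algebraMap A (FractionRing A) d) * P i := hH (Sum.inr (Sum.inl i))
    have h2 : MvPolynomial.map (algebraMap A (FractionRing A)) (H' (Sum.inr (Sum.inr i))) =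
      C (algebraMap A (FractionRing A) d) * P' i := hH (Sum.inr (Sum.inr i))
    rw [hG', map_add, map_mul, map_mul, h1, h2, map_inx, map_dif, hP i]
    ring

end Pool.Agent.GH
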