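import Pool.Agent.Lib_MP_b9fedf_gh.BasicB

/-! [GH-H]: the form of a smooth hypersurface and its differential are coprime. -/

set_option autoImplicit false

namespace Pool.Agent.GH
open MvPolynomial Pool.Agent.GGL

private theorem exists_zero_gh {n : ℕ} (hn : 1 ≤ n) (p : MvPolynomial (Fin (n + 1)) ℂ)
    (hp : ¬ IsUnit p) : ∃ x : Fin (n + 1) → ℂ, x ≠ 0 ∧ eval x p = 0 := by
  by_contra hcon
  push Not at hcon
  have hrad : ∀ i : Fin (n + 1), ∃ k : ℕ, p ∣ X i ^ k := by
    intro i
    have h1 : (X i : MvPolynomial (Fin (n + 1)) ℂ) ∈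
        vanishingIdeal ℂ (zeroLocus ℂ (Ideal.span {p})) := by
      rw [mem_vanishingIdeal_iff]
      intro y hy
      have h2 : eval y p = 0 := by
        have h3 := (mem_zeroLocus_iff.mp hy) p (Ideal.mem_span_singleton_self p)
        rw [aeval_def, Algebra.algebraMap_self] at h3
        exact h3
      have h4 : y = 0 := by
        by_contra h5
        exact hcon y h5 h2
      rw [aeval_X, h4]
      rfl
    rw [vanishingIdeal_zeroLocus_eq_radical] at h1
    obtain ⟨k, hk⟩ := h1
    exact ⟨k, Ideal.mem_span_singleton.1 hk⟩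
  obtain ⟨k, hk⟩ := hrad 0
  obtain ⟨l, hl⟩ := hrad (Fin.last n)
  obtain ⟨i, _, hi⟩ := (dvd_prime_pow (X_prime (i := (0 : Fin (n + 1)))) k).1 hk
  rcases Nat.eq_zero_or_pos i with h0 | h0
  · rw [h0, pow_zero] at hi
    exact hp (associated_one_iff_isUnit.1 hi)
  · have h1 : (X 0 : MvPolynomial (Fin (n + 1)) ℂ) ∣ X (Fin.last n) ^ l :=
      ((dvd_pow_self _ h0.ne').trans hi.symm.dvd).trans hl
    obtain ⟨c, hc⟩ := X_prime.dvd_of_dvd_pow h1
    have h2 := congrArg (eval (Pi.single (Fin.last n) (1 : ℂ))) hc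
    have h3 : (0 : Fin (n + 1)) ≠ Fin.last n := by
      intro h
      have h4 := congrArg Fin.val h
      rw [Fin.val_last, Fin.val_zero] at h4
      omega
    rw [eval_X, map_mul, eval_X, Pi.single_eq_same, Pi.single_eq_of_ne h3, zero_mul] at h2
    exact one_ne_zero h2

/-- [GH-H] Proof.  Let `p` divide `inx b` and `dif b`, `inx b ≠ 0`.  As `inx b` does not contain the variables `v`, nor
does `p` (`degreeOf_mul_eq` or `degreeOf` of a product in a domain, `vars`; or work in `(ℂ[x])[v]` with `sumAlgEquiv`: a divisor of a nonzero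
constant polynomial over a domain is constant, `MvPolynomial.totalDegree_mul_of_isDomain`), so `p = rename Sum.inl p'` with
`p' ∣ b` and, comparing the coefficients of the `v j`, `p' ∣ pderiv j b` for all `j`.  If `p'` is not constant, it has a zero `x ≠ 0`:
otherwise, by the Nullstellensatz, `X 0` and `X 1` (`n ≥ 1`) lie in the radical of `(p')`, so `p'` divides powers of `X 0` and of `X 1`, which are
coprime, and `p'` would be a unit.  But `b(x) = 0` and `∂_j b(x) = 0` for all `j` is excluded by `hs`.  (A nonzero constant is a unit.) -/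
theorem relPrime_C {n : ℕ} (hn : 1 ≤ n) (b : MvPolynomial (Fin (n + 1)) ℂ) (hb0 : b ≠ 0)
    (hs : ∀ x : Fin (n + 1) → ℂ, x ≠ 0 → eval x b = 0 → ∃ j, eval x (pderiv j b) ≠ 0) :
    IsRelPrime (inx b) (dif b) := by
  intro p hp1 hp2
  obtain ⟨r, hr⟩ := hp1
  have hb : inx b ≠ 0 := by
    intro h
    apply hb0
    refine rename_injective (Sum.inl : Fin (n + 1) → XV n) Sum.inl_injective ?_
    rw [map_zero]
    exact h
  have hp0 : p ≠ 0 := by
    rintro rfl
    exact hb (by rw [hr, zero_mul])
  have hr0 : r ≠ 0 := by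
    rintro rfl
    exact hb (by rw [hr, mul_zero])
  have hvars : (p.vars : Set (XV n)) ⊆ Set.range (Sum.inl : Fin (n + 1) → XV n) := by
    intro i hi
    cases i with
    | inl j => exact ⟨j, rfl⟩
    | inr j =>
      exfalso
      have h1 : degreeOf (Sum.inr j : XV n) p ≠ 0 :=
        mem_vars_iff_degreeOf_ne_zero.1 (Finset.mem_coe.1 hi)
      have h2 : degreeOf (Sum.inr j : XV n) (inx b) =
          degreeOf (Sum.inr j : XV n) p + degreeOf (Sum.inr j : XV n) r := by
        rw [hr]
        exact degreeOf_mul_eq hp0 hr0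
      have h3 : (Sum.inr j : XV n) ∈ (inx b).vars := by
        rw [mem_vars_iff_degreeOf_ne_zero]
        omega
      obtain ⟨k, _, hk⟩ := mem_vars_rename (Sum.inl : Fin (n + 1) → XV n) b h3
      exact Sum.inl_ne_inr hk
  obtain ⟨p', rfl⟩ := exists_rename_eq_of_vars_subset_range p (Sum.inl : Fin (n + 1) → XV n)
    Sum.inl_injective hvars
  by_cases hu : IsUnit p'
  · exact hu.map (rename (Sum.inl : Fin (n + 1) → XV n))
  · exfalso
    obtain ⟨x, hx0, hx⟩ := exists_zero_gh hn p' hu
    have hev : ∀ v : Fin (n + 1) → ℂ,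
        eval (Sum.elim x v) (rename (Sum.inl : Fin (n + 1) → XV n) p') = 0 := by
      intro v
      rw [eval_rename]
      exact hx
    have hbx : eval x b = 0 := by
      rw [← eval_inx x 0 b, hr, map_mul, hev, zero_mul]
    obtain ⟨j, hj⟩ := hs x hx0 hbx
    obtain ⟨r2, hr2⟩ := hp2
    have h3 := eval_dif x (Pi.single j 1) b
    rw [hr2, map_mul, hev, zero_mul] at h3
    apply hj
    rw [Finset.sum_eq_single j (fun k _ hk => by rw [Pi.single_eq_of_ne hk, mul_zero])
      (fun h => absurd (Finset.mem_univ j) h), Pi.single_eq_same, mul_one] at h3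
    exact h3.symm

end Pool.Agent.GH
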