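import Pool.Agent.Lib_MP_b9fedf_gh.CoprC
import Pool.Agent.Lib_MP_b9fedf_gh.SncGen
import Pool.Agent.Lib_MP_b9fedf_og.AlgInd

/-! [GH-I]: the generic form and its differential are coprime over the field of the coefficients. -/

set_option autoImplicit false

namespace Pool.Agent.GH
open MvPolynomial Pool.Agent.GGL Pool.Agent.OG

/-- the coefficient ring -/
abbrev CR (n d : ℕ) (ι : Type) : Type := MvPolynomial (ι × Mon n d) ℚ

/-- the generic form over the coefficient ring -/
noncomputable def gfr {n d : ℕ} {ι : Type} (i : ι) : MvPolynomial (Fin (n + 1)) (CR n d ι) :=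
  frm (fun m : Mon n d => (X (i, m) : CR n d ι))

/-- [GH-I1] -/
theorem gfr_ne_zero {n d : ℕ} {ι : Type} (i : ι) : (gfr (n := n) (d := d) i) ≠ 0 := by
  intro h
  have hm : (Finsupp.single 0 d : Fin (n + 1) →₀ ℕ) ∈ Finset.finsuppAntidiag (Finset.univ : Finset (Fin (n + 1))) d := by
    rw [Finset.mem_finsuppAntidiag]
    refine ⟨?_, Finset.subset_univ _⟩
    rw [Finset.sum_eq_single 0]
    · exact Finsupp.single_eq_same
    · intro b _ hb
      exact Finsupp.single_eq_of_ne hb
    · intro h0
      exact absurd (Finset.mem_univ _) h0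
  have h1 := coeff_frm (fun m : Mon n d => (X (i, m) : CR n d ι)) ⟨_, hm⟩
  have h2 : frm (fun m : Mon n d => (X (i, m) : CR n d ι)) = 0 := h
  rw [h2, coeff_zero] at h1
  exact X_ne_zero _ h1.symm

private theorem lift_comp {A : Type} [CommRing A] [IsDomain A] (f : A →+* ℂ) (hf : Function.Injective f) :
    ∃ φ : FractionRing A →+* ℂ, φ.comp (algebraMap A (FractionRing A)) = f :=
  ⟨IsFractionRing.lift hf, RingHom.ext fun x => IsFractionRing.lift_algebraMap hf x⟩

private theorem unit_of_map {K L σ : Type} [Field K] [Field L] (φ : K →+* L) (p : MvPolynomial σ K)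
    (h : IsUnit (MvPolynomial.map φ p)) : IsUnit p := by
  classical
  rw [isUnit_iff_eq_C_of_isReduced] at h ⊢
  obtain ⟨r, hr, hp⟩ := h
  refine ⟨coeff 0 p, ?_, ?_⟩
  · have h1 : φ (coeff 0 p) = r := by
      rw [← coeff_map, hp, coeff_zero_C]
    rw [isUnit_iff_ne_zero]
    intro h0
    rw [h0, map_zero] at h1
    exact hr.ne_zero h1.symm
  · ext m
    by_cases hm : 0 = m
    · subst hm
      rw [coeff_zero_C]
    · rw [coeff_C, if_neg hm]
      have h1 : φ (coeff m p) = 0 := by
        rw [← coeff_map, hp, coeff_C, if_neg hm]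
      exact (map_eq_zero φ).mp h1

/-- [GH-I] Proof.  `a₀` algebraically independent (`exists_algInd`); `φ : FractionRing (CR n d ι) →+* ℂ` the extension of `aeval a₀`
(`IsFractionRing.lift`, injective).  The form `frm (a₀ (i, ·))` satisfies the hypothesis of `relPrime_C` (`snc_crit_algInd` for `lam` supported at `i`), so
it is coprime to its differential.  If `p` divides `inx (map _ (gfr i))` and `dif (map _ (gfr i))` then `map φ p` divides the
images (`map_inx`, `map_dif`, `map_frm`), so it is a unit, i.e. a nonzero constant; then `p` is a nonzero constant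
(`map φ` is injective on coefficients), a unit. -/
theorem relPrime_F {n d : ℕ} (hn : 1 ≤ n) (hd : 1 ≤ d) {ι : Type} [Fintype ι] (i : ι) :
    IsRelPrime
      (inx (MvPolynomial.map (algebraMap (CR n d ι) (FractionRing (CR n d ι))) (gfr i)))
      (dif (MvPolynomial.map (algebraMap (CR n d ι) (FractionRing (CR n d ι))) (gfr i))) := by
  classical
  obtain ⟨a₀, ha₀⟩ := exists_algInd (ι × Mon n d)
  have hinj : Function.Injective (aeval a₀ : CR n d ι →ₐ[ℚ] ℂ).toRingHom := ha₀
  obtain ⟨φ, hφ⟩ := lift_comp _ hinj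
  have hb : MvPolynomial.map φ (MvPolynomial.map (algebraMap (CR n d ι) (FractionRing (CR n d ι))) (gfr i)) =
      frm (fun m : Mon n d => a₀ (i, m)) := by
    rw [MvPolynomial.map_map, hφ]
    unfold gfr
    rw [map_frm]
    congr 1
    funext m
    exact aeval_X _ _
  have hb0 : frm (fun m : Mon n d => a₀ (i, m)) ≠ 0 := by
    rw [← hb, MvPolynomial.map_map, hφ]
    intro h0
    exact gfr_ne_zero i (MvPolynomial.map_injective _ hinj (by rw [h0, map_zero]))
  have hs : ∀ x : Fin (n + 1) → ℂ, x ≠ 0 → eval x (frm (fun m : Mon n d => a₀ (i, m))) = 0 →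
      ∃ j, eval x (pderiv j (frm (fun m : Mon n d => a₀ (i, m)))) ≠ 0 := by
    intro x hx hx0
    by_contra hcon
    push Not at hcon
    apply hx
    have hc : AlgebraicIndependent ℚ (fun p : ι × Mon n d => (fun i m => a₀ (i, m)) p.1 p.2) := ha₀
    have key := snc_crit_algInd hd (fun i m => a₀ (i, m)) hc x (Pi.single i 1) ?_ ?_
    · funext j
      have h1 := key i j
      rw [Pi.single_eq_same, mul_one] at h1
      exact h1
    · intro i'
      by_cases h : i' = i
      · subst h
        rw [hx0, zero_mul]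
      · rw [Pi.single_eq_of_ne h, mul_zero]
    · intro j
      rw [Finset.sum_eq_single i]
      · rw [hcon j, mul_zero]
      · intro i' _ h
        rw [Pi.single_eq_of_ne h, zero_mul]
      · intro h
        exact absurd (Finset.mem_univ _) h
  have hrel := relPrime_C hn _ hb0 hs
  intro p h1 h2
  apply unit_of_map φ
  apply hrel
  · rw [← hb, ← map_inx]
    exact map_dvd (MvPolynomial.map φ) h1
  · rw [← hb, ← map_dif]
    exact map_dvd (MvPolynomial.map φ) h2

end Pool.Agent.GH
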