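import Pool.Agent.Lib_MP_b9fedf_gh.CountA

/-! [GH-E]: the dimension of the ideal `(b, Db)` in a bidegree. -/

set_option autoImplicit false

namespace Pool.Agent.GH
open MvPolynomial Pool.Agent.GGL

/-- the part of bidegree `(α, β)` of the ideal `(b(x), Db(x, v))` -/
noncomputable def idSpace {F : Type} [Field F] {n : ℕ} (b : MvPolynomial (Fin (n + 1)) F)
    (α β : ℕ) : Submodule F (MvPolynomial (XV n) F) :=
  biSpace F n α β ⊓ (Ideal.span {inx b, dif b}).restrictScalars F

theorem mem_idSpace {F : Type} [Field F] {n α β : ℕ} (b : MvPolynomial (Fin (n + 1)) F)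
    (G : MvPolynomial (XV n) F) : G ∈ idSpace b α β ↔ BiHom α β G ∧ InI b G := by
  unfold idSpace InI
  rw [Submodule.mem_inf, mem_biSpace, Submodule.restrictScalars_mem, Ideal.mem_span_pair]
  refine and_congr Iff.rfl ⟨?_, ?_⟩
  · rintro ⟨P, P', h⟩
    exact ⟨P, P', by rw [← h]; ring⟩
  · rintro ⟨P, P', h⟩
    exact ⟨P, P', by rw [h]; ring⟩

/-- a factor of a weighted homogeneous polynomial, the other factor homogeneous and nonzero -/
private theorem bihom_of_mul_countb {F : Type} [Field F] {n α β γ δ : ℕ} {A S : MvPolynomial (XV n) F}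
    (hA : BiHom α β A) (hA0 : A ≠ 0) (hAS : BiHom (α + γ) (β + δ) (A * S)) : BiHom γ δ S := by
  classical
  set w : XV n → ℕ × ℕ := Sum.elim (fun _ => ((1, 0) : ℕ × ℕ)) (fun _ => (0, 1)) with hw
  letI := weightedGradedAlgebra F w
  have h1 : A ∈ weightedHomogeneousSubmodule F w (α, β) := hA
  have h2 : A * S ∈ weightedHomogeneousSubmodule F w ((α, β) + (γ, δ)) := hAS
  have h3 := DirectSum.coe_decompose_mul_add_of_left_mem (weightedHomogeneousSubmodule F w)
    (i := (α, β)) (j := (γ, δ)) (b := S) h1
  rw [DirectSum.decompose_of_mem_same _ h2] at h3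
  have h4 := mul_left_cancel₀ hA0 h3
  have h5 : S ∈ weightedHomogeneousSubmodule F w (γ, δ) := by
    rw [h4]
    exact SetLike.coe_mem _
  exact h5

/-- [GH-E] Proof.  The linear map `L : (P, P') ↦ inx b * P + dif b * P'` from `biSpace (p + e) (q + 1) × biSpace (p + e + 1) q` to
`idSpace b (p + 2 * e + 1) (q + 1)` (`inx_bihom`, `dif_bihom`, `BiHom.mul`).  Its kernel is the image of `biSpace p q` under
`S ↦ (dif b * S, - (inx b * S))`: if `inx b * P = - dif b * P'` then `inx b` divides `P'` (`IsRelPrime.dvd_of_dvd_mul_left`, `MvPolynomial` over a field is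
a UFD, `DecompositionMonoid`), `P' = - inx b * S`, `S` may be replaced by its component of bidegree `(p, q)`
(`weightedHomogeneousComponent`: compare the components of bidegree `(p + e + 1, q)`, `inx b` is bihomogeneous and nonzero), and `P = dif b * S` as
`inx b ≠ 0`.  Rank-nullity: `finrank range L + finrank ker L` is the dimension of the source, `finrank ker L ≤ finrank (biSpace p q)`,
`finrank_biSpace`, `finrank range L ≤ finrank (idSpace …)`. -/
theorem finrank_idSpace {F : Type} [Field F] {n e p q : ℕ} (b : MvPolynomial (Fin (n + 1)) F)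
    (hb : b.IsHomogeneous (e + 1)) (hb0 : b ≠ 0) (hrel : IsRelPrime (inx b) (dif b)) :
    (p + e + n).choose n * (q + 1 + n).choose n + (p + e + 1 + n).choose n * (q + n).choose n ≤
      Module.finrank F (idSpace b (p + 2 * e + 1) (q + 1)) +
        (p + n).choose n * (q + n).choose n := by
  classical
  have hi : BiHom (e + 1) 0 (inx b) := inx_bihom b hb
  have hd : BiHom e 1 (dif b) := dif_bihom b hb
  have hi0 : inx b ≠ 0 := by
    intro h
    apply hb0
    have h1 : Function.Injective (rename (R := F) (Sum.inl : Fin (n + 1) → XV n)) :=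
      rename_injective _ Sum.inl_injective
    exact h1 (by rw [map_zero]; exact h)
  have f1 := finite_biSpace F n (p + e) (q + 1)
  have f2 := finite_biSpace F n (p + e + 1) q
  have f0 := finite_biSpace F n p q
  have fT : FiniteDimensional F (biSpace F n (p + 2 * e + 1) (q + 1)) := finite_biSpace F n _ _
  have fI : FiniteDimensional F (idSpace b (p + 2 * e + 1) (q + 1)) :=
    Submodule.finiteDimensional_of_le (inf_le_left : idSpace b (p + 2 * e + 1) (q + 1) ≤ _)
  let L : (biSpace F n (p + e) (q + 1) × biSpace F n (p + e + 1) q) →ₗ[F] MvPolynomial (XV n) F :=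
    ((LinearMap.mulLeft F (inx b)).comp (Submodule.subtype _)).coprod
      ((LinearMap.mulLeft F (dif b)).comp (Submodule.subtype _))
  have hL : ∀ z, L z = inx b * (z.1 : MvPolynomial (XV n) F) + dif b * (z.2 : MvPolynomial (XV n) F) :=
    fun z => rfl
  let K : biSpace F n p q →ₗ[F] (biSpace F n (p + e) (q + 1) × biSpace F n (p + e + 1) q) :=
    LinearMap.prod
      (LinearMap.codRestrict _ ((LinearMap.mulLeft F (dif b)).comp (Submodule.subtype _)) (fun S => by
        have h := BiHom.mul hd ((mem_biSpace _).1 S.2)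
        rw [add_comm e p, add_comm 1 q] at h
        exact h))
      (LinearMap.codRestrict _ (-((LinearMap.mulLeft F (inx b)).comp (Submodule.subtype _))) (fun S => by
        have h := BiHom.mul hi ((mem_biSpace _).1 S.2)
        rw [zero_add, add_comm (e + 1) p, ← add_assoc] at h
        exact Submodule.neg_mem _ h))
  have hrange : LinearMap.range L ≤ idSpace b (p + 2 * e + 1) (q + 1) := by
    rintro _ ⟨z, rfl⟩
    rw [hL, mem_idSpace]
    refine ⟨?_, _, _, rfl⟩
    have h1 := BiHom.mul hi ((mem_biSpace _).1 z.1.2)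
    have h2 := BiHom.mul hd ((mem_biSpace _).1 z.2.2)
    have e1 : e + 1 + (p + e) = p + 2 * e + 1 := by ring
    have e2 : e + (p + e + 1) = p + 2 * e + 1 := by ring
    rw [e1, zero_add] at h1
    rw [e2, add_comm 1 q] at h2
    exact Submodule.add_mem (biSpace F n (p + 2 * e + 1) (q + 1)) h1 h2
  have hker : LinearMap.ker L ≤ LinearMap.range K := by
    intro z hz
    rw [LinearMap.mem_ker, hL] at hz
    have h1 : inx b ∣ (z.2 : MvPolynomial (XV n) F) * dif b := by
      refine ⟨-(z.1 : MvPolynomial (XV n) F), ?_⟩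
      linear_combination hz
    obtain ⟨S, hS⟩ := hrel.dvd_of_dvd_mul_right h1
    have h2 : (z.1 : MvPolynomial (XV n) F) = -(dif b * S) := by
      apply mul_left_cancel₀ hi0
      rw [hS] at hz
      linear_combination hz
    have h3 : BiHom (e + 1 + p) (0 + q) (inx b * S) := by
      rw [← hS]
      have h4 := (mem_biSpace _).1 z.2.2
      rw [zero_add, add_comm (e + 1) p, ← add_assoc]
      exact h4
    have h5 : BiHom p q S := bihom_of_mul_countb hi hi0 h3
    refine ⟨-⟨S, (mem_biSpace _).2 h5⟩, ?_⟩
    refine Prod.ext (Subtype.ext ?_) (Subtype.ext ?_)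
    · show dif b * (-S) = (z.1 : MvPolynomial (XV n) F)
      rw [h2]
      ring
    · show -(inx b * (-S)) = (z.2 : MvPolynomial (XV n) F)
      rw [hS]
      ring
  have r1 := LinearMap.finrank_range_add_finrank_ker L
  rw [Module.finrank_prod, finrank_biSpace, finrank_biSpace] at r1
  have r2 := Submodule.finrank_mono hrange
  have r3 : Module.finrank F (LinearMap.ker L) ≤ Module.finrank F (LinearMap.range K) :=
    Submodule.finrank_mono hker
  have r4 := LinearMap.finrank_range_le K
  rw [finrank_biSpace] at r4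
  omega

end Pool.Agent.GH
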