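import Mathlib

/-! [GH-F]: intersections of subspaces. -/

set_option autoImplicit false

namespace Pool.Agent.GH

/-- [GH-F] Subspaces `W i` of codimension `≤ H` in `V` (finite dimensional), `card ι * H < dim V`, have a
common nonzero vector.  (Induction on a finset of indices: `dim V ≤ dim (V ⊓ ⨅ i ∈ s, W i) + s.card * H`, with
`Submodule.finrank_sup_add_finrank_inf_eq`; all spaces are contained in `V`.) -/
theorem inter_ne {F M : Type} [Field F] [AddCommGroup M] [Module F M] {ι : Type} [Fintype ι]
    (V : Submodule F M) [FiniteDimensional F V] (W : ι → Submodule F M) (hW : ∀ i, W i ≤ V)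
    (H : ℕ) (hH : ∀ i, Module.finrank F V ≤ Module.finrank F (W i) + H)
    (h : Fintype.card ι * H < Module.finrank F V) :
    ∃ x ∈ V, x ≠ 0 ∧ ∀ i, x ∈ W i := by
  classical
  have key : ∀ s : Finset ι, ∃ U : Submodule F M, U ≤ V ∧ (∀ x ∈ U, ∀ i ∈ s, x ∈ W i) ∧
      Module.finrank F V ≤ Module.finrank F U + s.card * H := by
    intro s
    induction s using Finset.induction_on with
    | empty => exact ⟨V, le_rfl, by simp, by simp⟩
    | insert a s ha ih =>
      obtain ⟨U, hUV, hU, hd⟩ := ih
      have i1 : FiniteDimensional F (W a) := Submodule.finiteDimensional_of_le (hW a)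
      have i2 : FiniteDimensional F U := Submodule.finiteDimensional_of_le hUV
      refine ⟨W a ⊓ U, inf_le_right.trans hUV, ?_, ?_⟩
      · intro x hx i hi
        rcases Finset.mem_insert.mp hi with rfl | hi
        · exact hx.1
        · exact hU x hx.2 i hi
      · have h1 := Submodule.finrank_sup_add_finrank_inf_eq (W a) U
        have h2 : Module.finrank F (W a ⊔ U : Submodule F M) ≤ Module.finrank F V :=
          Submodule.finrank_mono (sup_le (hW a) hUV)
        have h3 := hH a
        rw [Finset.card_insert_of_notMem ha, Nat.add_mul, one_mul]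
        omega
  obtain ⟨U, hUV, hU, hd⟩ := key Finset.univ
  rw [Finset.card_univ] at hd
  have h1 : 0 < Module.finrank F U := by omega
  have h2 : U ≠ ⊥ := by
    rintro rfl
    rw [finrank_bot] at h1
    exact lt_irrefl 0 h1
  obtain ⟨x, hx, hx0⟩ := Submodule.exists_mem_ne_zero_of_ne_bot h2
  exact ⟨x, hUV hx, hx0, fun i => hU x hx i (Finset.mem_univ i)⟩

end Pool.Agent.GH
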