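import Mathlib

/-! [GH-G]: the numerical inequality. -/

set_option autoImplicit false

namespace Pool.Agent.GH

private theorem cd_pascal (m x : ℕ) : ((x + 1 + (m + 1)).choose (m + 1) : ℝ) =
    ((x + (m + 1)).choose (m + 1) : ℝ) + ((x + 1 + m).choose m : ℝ) := by
  have h : (x + 1 + (m + 1)).choose (m + 1) = (x + 1 + m).choose m + (x + 1 + m).choose (m + 1) := by
    rw [show x + 1 + (m + 1) = (x + 1 + m) + 1 by ring, Nat.choose_succ_succ]
  rw [h, show x + (m + 1) = x + 1 + m by ring]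
  push_cast
  ring

private theorem cd_mul (m x : ℕ) : ((x + m).choose m : ℝ) * ((x : ℝ) + m + 1) =
    ((x + (m + 1)).choose (m + 1) : ℝ) * ((m : ℝ) + 1) := by
  have h := Nat.add_one_mul_choose_eq (x + m) m
  rw [show x + (m + 1) = x + m + 1 by ring]
  have h' : (((x + m + 1) * (x + m).choose m : ℕ) : ℝ) = (((x + m + 1).choose (m + 1) * (m + 1) : ℕ) : ℝ) := by
    exact_mod_cast h
  push_cast at h'
  linarith

private theorem cd_step (m al x : ℕ) (hx : x + 1 ≤ al) :
    ((x + 1 + m).choose m : ℝ) - ((x + m).choose m : ℝ) ≤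
      ((al + m).choose m : ℝ) * (m / ((al : ℝ) + m)) := by
  cases m with
  | zero => simp
  | succ m =>
    have hal : (0 : ℝ) < (al : ℝ) + m + 1 := by positivity
    have h1 := cd_mul m al
    have h2 := cd_pascal m x
    have h3 : ((x + 1 + m).choose m : ℝ) ≤ ((al + m).choose m : ℝ) := by
      exact_mod_cast Nat.choose_le_choose m (by omega)
    have h4 : ((al + (m + 1)).choose (m + 1) : ℝ) * (((m + 1 : ℕ) : ℝ) / ((al : ℝ) + ((m + 1 : ℕ) : ℝ))) =
        ((al + m).choose m : ℝ) := by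
      push_cast
      rw [← mul_div_assoc, ← h1, ← add_assoc]
      field_simp
    rw [h4]
    linarith

private theorem cd_lin (g : ℕ → ℝ) (al : ℕ) (c : ℝ) (h : ∀ x, x + 1 ≤ al → g (x + 1) - g x ≤ c)
    (x d : ℕ) (hx : x + d ≤ al) : g (x + d) - g x ≤ d * c := by
  induction d with
  | zero => simp
  | succ d ih =>
    have h1 := ih (by omega)
    have h2 := h (x + d) (by omega)
    rw [show x + (d + 1) = x + d + 1 by ring]
    push_cast
    linarith

/-- [GH-G] Put `a x = (x + n).choose n`, `α = p + 2 e + 1`, `β = q + 1`, `d = e + 1`, so `α + n = n d t₁`, `β + n = n t₂`.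
Proof.  `H = (a α - a (p+e) - a (p+e+1) + a p) a β + (a (p+e+1) - a p) (a β - a q)` (this is
`a α a β - a(p+e) a(β) - a(p+e+1) a(q) + a(p) a(q)`).  Let `a' x = a x - a (x-1) = (x + n - 1).choose (n - 1)` and
`a'' x = a' x - a' (x-1) = (x + n - 2).choose (n - 2)` (zero if `n = 1`); both are increasing in `x`.  The first bracket is
`∑ k < e, (a' (α-k) - a' (p+e+1-1-k)) … = ∑ k < e, ∑ l < d, a'' (…)`, a sum of `e d` terms `≤ a'' α = a α * n (n-1) / ((α+n)(α+n-1))`;
the second is a sum of `d` terms `a' (…) ≤ a' α = a α * n / (α+n)`, and `a β - a q = a' β = a β * n / (β+n)`.  Hence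
`H ≤ a α a β (e d n (n-1) / ((α+n)(α+n-1)) + d n² / ((α+n)(β+n)))`; with `(n-1)/(α+n-1) ≤ n/(α+n)` this is
`≤ a α a β (e / (d t₁²) + 1 / (t₁ t₂))`, and `Q` times the last bracket is `< 1` by `hQ`. -/
theorem num_count {n e p q Q t₁ t₂ : ℕ} (hn : 1 ≤ n) (ht₁ : 2 ≤ t₁) (ht₂ : 2 ≤ t₂)
    (hp : p + 2 * e + 1 + n = n * ((e + 1) * t₁)) (hq : q + 1 + n = n * t₂)
    (hQ : Q * (e * t₂ + (e + 1) * t₁) < (e + 1) * t₁ ^ 2 * t₂) :
    ∃ H : ℕ, (p + 2 * e + 1 + n).choose n * (q + 1 + n).choose n +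
        (p + n).choose n * (q + n).choose n ≤
      H + ((p + e + n).choose n * (q + 1 + n).choose n +
        (p + e + 1 + n).choose n * (q + n).choose n) ∧
      Q * H < (p + 2 * e + 1 + n).choose n * (q + 1 + n).choose n := by
  obtain ⟨m, rfl⟩ : ∃ m, n = m + 1 := ⟨n - 1, by omega⟩
  obtain ⟨al, hal⟩ : ∃ al, al = p + 2 * e + 1 := ⟨_, rfl⟩
  obtain ⟨a, ha⟩ : ∃ a : ℕ → ℝ, a = fun x => ((x + (m + 1)).choose (m + 1) : ℝ) := ⟨_, rfl⟩
  obtain ⟨g, hg⟩ : ∃ g : ℕ → ℝ, g = fun x => ((x + m).choose m : ℝ) := ⟨_, rfl⟩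
  have ha1 : ∀ x, a (x + 1) - a x = g (x + 1) := by
    intro x
    have := cd_pascal m x
    rw [ha, hg]
    simp only
    linarith
  have hgm : ∀ x y, x ≤ y → g x ≤ g y := by
    intro x y hxy
    rw [hg]
    simp only
    exact_mod_cast Nat.choose_le_choose m (by omega)
  have hga : ∀ x, g x * ((x : ℝ) + m + 1) = a x * ((m : ℝ) + 1) := by
    intro x
    rw [hg, ha]
    exact cd_mul m x
  have hapos : ∀ x, 0 < a x := by
    intro x
    rw [ha]
    simp only
    exact_mod_cast Nat.choose_pos (by omega)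
  have hgpos : ∀ x, 0 < g x := by
    intro x
    rw [hg]
    simp only
    exact_mod_cast Nat.choose_pos (by omega)
  obtain ⟨c, hc⟩ : ∃ c : ℝ, c = g al * (m / ((al : ℝ) + m)) := ⟨_, rfl⟩
  have hstep : ∀ x, x + 1 ≤ al → g (x + 1) - g x ≤ c := by
    intro x hx
    rw [hc, hg]
    exact cd_step m al x hx
  -- the first bracket
  have hB1 : ∀ k, k ≤ e → (a (p + e + 1 + k) - a (p + e + 1)) - (a (p + k) - a p) ≤ k * (((e + 1 : ℕ) : ℝ) * c) := by
    intro k
    induction k with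
    | zero => simp
    | succ k ih =>
      intro hk
      have h1 := ih (by omega)
      have h2 := ha1 (p + e + 1 + k)
      have h3 := ha1 (p + k)
      have h4 := cd_lin g al c hstep (p + k + 1) (e + 1) (by omega)
      rw [show p + k + 1 + (e + 1) = p + e + 1 + k + 1 by ring] at h4
      rw [show p + e + 1 + (k + 1) = p + e + 1 + k + 1 by ring, show p + (k + 1) = p + k + 1 by ring]
      push_cast at h1 h4 ⊢
      linarith
  have hB1' := hB1 e le_rfl
  rw [show p + e + 1 + e = al by omega] at hB1'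
  -- the second bracket
  have hB2 : a (p + (e + 1)) - a p ≤ ((e + 1 : ℕ) : ℝ) * g al :=
    cd_lin a al (g al) (fun x hx => by rw [ha1]; exact hgm _ _ hx) p (e + 1) (by omega)
  have hB3 : a (q + 1) - a q = g (q + 1) := ha1 q
  have hmono : a p ≤ a (p + (e + 1)) := by
    rw [ha]
    simp only
    exact_mod_cast Nat.choose_le_choose (m + 1) (by omega)
  -- the numbers
  obtain ⟨d, hd⟩ : ∃ d : ℝ, d = ((e + 1 : ℕ) : ℝ) := ⟨_, rfl⟩
  have hd0 : 0 < d := by rw [hd]; positivity
  have ht1 : (0 : ℝ) < t₁ := by exact_mod_cast (by omega : 0 < t₁)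
  have ht2 : (0 : ℝ) < t₂ := by exact_mod_cast (by omega : 0 < t₂)
  have hm1 : (0 : ℝ) < (m : ℝ) + 1 := by positivity
  have he0 : (0 : ℝ) ≤ e := Nat.cast_nonneg e
  have hQ0 : (0 : ℝ) ≤ Q := Nat.cast_nonneg Q
  have hal' : (al : ℝ) + m + 1 = ((m : ℝ) + 1) * (d * t₁) := by
    rw [hal, hd]
    have : ((p + 2 * e + 1 + (m + 1) : ℕ) : ℝ) = (((m + 1) * ((e + 1) * t₁) : ℕ) : ℝ) := by
      exact_mod_cast hp
    push_cast at this ⊢
    linarith
  have hq' : (((q + 1 : ℕ) : ℝ)) + m + 1 = ((m : ℝ) + 1) * t₂ := by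
    have : ((q + 1 + (m + 1) : ℕ) : ℝ) = (((m + 1) * t₂ : ℕ) : ℝ) := by
      exact_mod_cast hq
    push_cast at this ⊢
    linarith
  have hgal : g al * (d * t₁) = a al := by
    have h := hga al
    rw [hal'] at h
    have h2 : ((m : ℝ) + 1) * (g al * (d * t₁)) = ((m : ℝ) + 1) * a al := by linarith
    exact mul_left_cancel₀ hm1.ne' h2
  have hgq : g (q + 1) * t₂ = a (q + 1) := by
    have h := hga (q + 1)
    rw [hq'] at h
    have h2 : ((m : ℝ) + 1) * (g (q + 1) * t₂) = ((m : ℝ) + 1) * a (q + 1) := by linarith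
    exact mul_left_cancel₀ hm1.ne' h2
  have hcle : c * (d * t₁) ≤ g al := by
    rw [hc]
    have h0 : 0 < (al : ℝ) + m := by
      rw [hal]
      positivity
    have h1 : (m : ℝ) / ((al : ℝ) + m) * (d * t₁) ≤ 1 := by
      rw [div_mul_eq_mul_div, div_le_one h0]
      have h2 : ((m : ℝ) + 1) * (m * (d * t₁)) ≤ ((m : ℝ) + 1) * ((al : ℝ) + m) := by
        have h3 : ((m : ℝ) + 1) * (m * (d * t₁)) = m * ((al : ℝ) + m + 1) := by
          rw [hal']
          ring
        rw [h3]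
        have h4 : (0 : ℝ) ≤ al := Nat.cast_nonneg al
        nlinarith
      exact le_of_mul_le_mul_left h2 hm1
    calc g al * (m / ((al : ℝ) + m)) * (d * t₁) = g al * ((m : ℝ) / ((al : ℝ) + m) * (d * t₁)) := by ring
      _ ≤ g al * 1 := mul_le_mul_of_nonneg_left h1 (hgpos al).le
      _ = g al := mul_one _
  -- the main inequality
  have hdt : 0 < d * t₁ := mul_pos hd0 ht1
  have hH : (a al - a (p + e) - a (p + e + 1) + a p) * a (q + 1) + (a (p + e + 1) - a p) * (a (q + 1) - a q) ≤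
      e * (d * c) * a (q + 1) + d * g al * g (q + 1) := by
    refine add_le_add (mul_le_mul_of_nonneg_right ?_ (hapos _).le) ?_
    · rw [hd]
      linarith
    · rw [hB3]
      refine mul_le_mul_of_nonneg_right ?_ (hgpos _).le
      rw [hd]
      exact hB2
  have hkey : (Q : ℝ) * (e * (d * c) * a (q + 1) + d * g al * g (q + 1)) < a al * a (q + 1) := by
    have h1 : (Q : ℝ) * (e * t₂ + d * t₁) < d * t₁ ^ 2 * t₂ := by
      rw [hd]
      exact_mod_cast hQ
    have h2 : (Q : ℝ) * (e * (d * c) * a (q + 1) + d * g al * g (q + 1)) * (d * t₁ ^ 2 * t₂) ≤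
        (a al * a (q + 1)) * (Q * (e * t₂ + d * t₁)) := by
      have h3 : e * (d * c) * a (q + 1) * (d * t₁ ^ 2 * t₂) ≤ a al * a (q + 1) * (e * t₂) := by
        have h4 : c * (d * t₁) * (d * t₁) ≤ a al := by
          rw [← hgal]
          exact mul_le_mul_of_nonneg_right hcle hdt.le
        calc e * (d * c) * a (q + 1) * (d * t₁ ^ 2 * t₂)
            = (a (q + 1) * (e * t₂)) * (c * (d * t₁) * (d * t₁)) := by ring
          _ ≤ (a (q + 1) * (e * t₂)) * a al :=
              mul_le_mul_of_nonneg_left h4 (mul_nonneg (hapos _).le (mul_nonneg he0 ht2.le))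
          _ = _ := by ring
      have h5 : d * g al * g (q + 1) * (d * t₁ ^ 2 * t₂) = a al * a (q + 1) * (d * t₁) := by
        rw [← hgal, ← hgq]
        ring
      calc (Q : ℝ) * (e * (d * c) * a (q + 1) + d * g al * g (q + 1)) * (d * t₁ ^ 2 * t₂)
          = Q * (e * (d * c) * a (q + 1) * (d * t₁ ^ 2 * t₂) + d * g al * g (q + 1) * (d * t₁ ^ 2 * t₂)) := by ring
        _ ≤ Q * (a al * a (q + 1) * (e * t₂) + a al * a (q + 1) * (d * t₁)) := by
            rw [h5]
            exact mul_le_mul_of_nonneg_left (add_le_add h3 le_rfl) hQ0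
        _ = _ := by ring
    have h6 : (a al * a (q + 1)) * (Q * (e * t₂ + d * t₁)) < (a al * a (q + 1)) * (d * t₁ ^ 2 * t₂) :=
      mul_lt_mul_of_pos_left h1 (mul_pos (hapos _) (hapos _))
    exact lt_of_mul_lt_mul_right (h2.trans_lt h6) (by positivity)
  have hfin := (mul_le_mul_of_nonneg_left hH hQ0).trans_lt hkey
  refine ⟨((p + 2 * e + 1 + (m + 1)).choose (m + 1) * (q + 1 + (m + 1)).choose (m + 1) +
        (p + (m + 1)).choose (m + 1) * (q + (m + 1)).choose (m + 1)) -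
      ((p + e + (m + 1)).choose (m + 1) * (q + 1 + (m + 1)).choose (m + 1) +
        (p + e + 1 + (m + 1)).choose (m + 1) * (q + (m + 1)).choose (m + 1)), le_tsub_add, ?_⟩
  rcases le_total ((p + e + (m + 1)).choose (m + 1) * (q + 1 + (m + 1)).choose (m + 1) +
        (p + e + 1 + (m + 1)).choose (m + 1) * (q + (m + 1)).choose (m + 1))
    ((p + 2 * e + 1 + (m + 1)).choose (m + 1) * (q + 1 + (m + 1)).choose (m + 1) +
        (p + (m + 1)).choose (m + 1) * (q + (m + 1)).choose (m + 1)) with hle | hle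
  · have h1 : (((Q * (((p + 2 * e + 1 + (m + 1)).choose (m + 1) * (q + 1 + (m + 1)).choose (m + 1) +
        (p + (m + 1)).choose (m + 1) * (q + (m + 1)).choose (m + 1)) -
      ((p + e + (m + 1)).choose (m + 1) * (q + 1 + (m + 1)).choose (m + 1) +
        (p + e + 1 + (m + 1)).choose (m + 1) * (q + (m + 1)).choose (m + 1))) : ℕ)) : ℝ) <
        (((p + 2 * e + 1 + (m + 1)).choose (m + 1) * (q + 1 + (m + 1)).choose (m + 1) : ℕ) : ℝ) := by
      push_cast [Nat.cast_sub hle]
      have e1 : a al = ((p + 2 * e + 1 + (m + 1)).choose (m + 1) : ℝ) := by rw [ha, hal]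
      have e2 : a (p + e) = ((p + e + (m + 1)).choose (m + 1) : ℝ) := by rw [ha]
      have e3 : a (p + e + 1) = ((p + e + 1 + (m + 1)).choose (m + 1) : ℝ) := by rw [ha]
      have e4 : a p = ((p + (m + 1)).choose (m + 1) : ℝ) := by rw [ha]
      have e5 : a (q + 1) = ((q + 1 + (m + 1)).choose (m + 1) : ℝ) := by rw [ha]
      have e6 : a q = ((q + (m + 1)).choose (m + 1) : ℝ) := by rw [ha]
      rw [← e1, ← e2, ← e3, ← e4, ← e5, ← e6]
      refine lt_of_eq_of_lt ?_ hfin
      ring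
    exact_mod_cast h1
  · rw [Nat.sub_eq_zero_of_le hle, mul_zero]
    exact Nat.mul_pos (Nat.choose_pos (by omega)) (Nat.choose_pos (by omega))

end Pool.Agent.GH
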