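import Pool.Agent.Lib_MP_b9fedf_gh.CurveDefs

/-! [GH-X1]: elementary facts on the curve and the order of `Φ`. -/

set_option autoImplicit false

namespace Pool.Agent.GH
open MvPolynomial Pool.Agent.GGL

variable {n d : ℕ}

/-- [GH-X1a] -/
theorem tng_diff (f : ℂ → Fin (n + 1) → ℂ) (hf : Differentiable ℂ f) (k : Fin (n + 1)) :
    Differentiable ℂ (tng f k) := by
  have h1 : ∀ j, Differentiable ℂ (fun w => f w j) := fun j => (differentiable_pi.mp hf) j
  have h2 : ∀ j, Differentiable ℂ (fun z => deriv (fun w => f w j) z) := fun j z =>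
    (((h1 j).analyticAt z).deriv).differentiableAt
  refine differentiable_pi.mpr fun j => ?_
  exact ((h1 k).mul (h2 j)).sub ((h2 k).mul (h1 j))

/-- [GH-X1b] -/
theorem phi_diff (G : MvPolynomial (XV n) ℂ) (f : ℂ → Fin (n + 1) → ℂ) (hf : Differentiable ℂ f)
    (k : Fin (n + 1)) : Differentiable ℂ (phi G f k) := by
  have h1 : Differentiable ℂ (fun z => (Sum.elim (f z) (tng f k z) : XV n → ℂ)) := by
    refine differentiable_pi.mpr fun j => ?_
    rcases j with j | j
    · exact (differentiable_pi.mp hf) j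
    · exact (differentiable_pi.mp (tng_diff f hf k)) j
  have h2 : phi G f k = fun z => ∑ a ∈ G.support, coeff a G *
      ∏ i, (Sum.elim (f z) (tng f k z) : XV n → ℂ) i ^ a i := by
    funext z
    rw [phi, eval_eq']
  rw [h2]
  exact Differentiable.fun_sum fun a _ => (mono_diff h1 a).const_mul _

/-- [GH-X1c] -/
theorem comp_diff (b : MvPolynomial (Fin (n + 1)) ℂ) (f : ℂ → Fin (n + 1) → ℂ)
    (hf : Differentiable ℂ f) : Differentiable ℂ (fun z => eval (f z) b) := by
  simp_rw [eval_eq']
  exact Differentiable.fun_sum fun a _ => (mono_diff hf a).const_mul _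

/-- the chain rule -/
private theorem chain_ca (b : MvPolynomial (Fin (n + 1)) ℂ) (f : ℂ → Fin (n + 1) → ℂ)
    (hf : Differentiable ℂ f) (z : ℂ) :
    HasDerivAt (fun w => eval (f w) b)
      (∑ j, eval (f z) (pderiv j b) * deriv (fun w => f w j) z) z := by
  have h1 : ∀ j, HasDerivAt (fun w => f w j) (deriv (fun w => f w j) z) z := fun j =>
    (((differentiable_pi.mp hf) j) z).hasDerivAt
  induction b using MvPolynomial.induction_on with
  | C a =>
    have e1 : (∑ j : Fin (n + 1), eval (f z) (pderiv j (C a)) * deriv (fun w => f w j) z) = 0 := by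
      refine Finset.sum_eq_zero fun j _ => ?_
      rw [pderiv_C, map_zero, zero_mul]
    rw [e1]
    have e2 : (fun w => eval (f w) (C a)) = fun _ : ℂ => a := by
      funext w
      rw [eval_C]
    rw [e2]
    exact hasDerivAt_const z a
  | add p q hp hq =>
    have e1 : (∑ j : Fin (n + 1), eval (f z) (pderiv j (p + q)) * deriv (fun w => f w j) z) =
        (∑ j, eval (f z) (pderiv j p) * deriv (fun w => f w j) z) +
          ∑ j, eval (f z) (pderiv j q) * deriv (fun w => f w j) z := by
      rw [← Finset.sum_add_distrib]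
      refine Finset.sum_congr rfl fun j _ => ?_
      rw [map_add, map_add, add_mul]
    rw [e1]
    have e2 : (fun w => eval (f w) (p + q)) = fun w => eval (f w) p + eval (f w) q := by
      funext w
      rw [map_add]
    rw [e2]
    exact hp.add hq
  | mul_X p i hp =>
    have e1 : (∑ j : Fin (n + 1), eval (f z) (pderiv j (p * X i)) * deriv (fun w => f w j) z) =
        (∑ j, eval (f z) (pderiv j p) * deriv (fun w => f w j) z) * f z i +
          eval (f z) p * deriv (fun w => f w i) z := by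
      have e3 : ∀ j : Fin (n + 1), eval (f z) (pderiv j (p * X i)) * deriv (fun w => f w j) z =
          (eval (f z) (pderiv j p) * deriv (fun w => f w j) z) * f z i +
            (if i = j then eval (f z) p * deriv (fun w => f w j) z else 0) := by
        intro j
        rw [pderiv_mul, map_add, map_mul, map_mul, eval_X, pderiv_X, Pi.single_apply]
        by_cases h : i = j
        · subst h
          simp only [if_true, map_one]
          ring
        · rw [if_neg h, if_neg h, map_zero]
          ring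
      rw [Finset.sum_congr rfl fun j _ => e3 j, Finset.sum_add_distrib, Finset.sum_mul]
      congr 1
      rw [Finset.sum_ite_eq]
      simp
    rw [e1]
    have e2 : (fun w => eval (f w) (p * X i)) = fun w => eval (f w) p * f w i := by
      funext w
      rw [map_mul, eval_X]
    rw [e2]
    exact hp.mul (h1 i)

/-- [GH-X1d] (chain rule: `(b ∘ f)' = ∑ ∂_j b(f) f_j'`, and Euler: `∑ ∂_j b(f) f_j = d b(f)`) -/
theorem dv_tng (b : MvPolynomial (Fin (n + 1)) ℂ) (hb : b.IsHomogeneous d)
    (f : ℂ → Fin (n + 1) → ℂ) (hf : Differentiable ℂ f) (k : Fin (n + 1)) (z : ℂ) :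
    dv b (f z) (tng f k z) =
      f z k * deriv (fun w => eval (f w) b) z - d * deriv (fun w => f w k) z * eval (f z) b := by
  have h1 := (chain_ca b f hf z).deriv
  have h2 : ∑ j, f z j * eval (f z) (pderiv j b) = d * eval (f z) b := by
    have h3 := congrArg (eval (f z)) hb.sum_X_mul_pderiv
    rw [map_sum, map_nsmul, nsmul_eq_mul] at h3
    rw [← h3]
    refine Finset.sum_congr rfl fun j _ => ?_
    rw [map_mul, eval_X]
  rw [h1]
  have h4 : (d : ℂ) * deriv (fun w => f w k) z * eval (f z) b =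
      deriv (fun w => f w k) z * ∑ j, f z j * eval (f z) (pderiv j b) := by
    rw [h2]
    ring
  rw [h4, dv, Finset.mul_sum, Finset.mul_sum, ← Finset.sum_sub_distrib]
  refine Finset.sum_congr rfl fun j _ => ?_
  rw [tng]
  ring

/-- [GH-X1e] The order of `Φ`.  Proof.  Near `z` the norm `‖f‖` is between positive constants and `tng f k` is bounded, so the
product estimate gives `‖Φ(w)‖ ≤ C' ∏ i, (‖h_i(w)‖ + ‖k_i(w)‖)`, `h_i = b_i(f)`, `k_i = dv b_i (f) (tng f k)`.  If `h_i` has order
`μ_i ≥ 1` at `z` then `h_i'` has order `≥ μ_i - 1`, so by `dv_tng` both `h_i` and `k_i` are `O(|w - z| ^ (μ_i - 1))`; if `h_i z ≠ 0`, `O(1)`.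
Hence `‖Φ(w)‖ ≤ C'' |w - z| ^ M`, `M = ∑ (μ_i - 1)` over the `i` with `h_i z = 0`, and the order of `Φ` at `z` is `≥ M`
(`Φ = (w - z)^o ψ`, `ψ z ≠ 0`, `o < M` would contradict). -/
theorem ord_phi {α β : ℕ} {C : ℝ} {ι : Type} [Fintype ι]
    (b : ι → MvPolynomial (Fin (n + 1)) ℂ) (hb : ∀ i, (b i).IsHomogeneous d)
    (G : MvPolynomial (XV n) ℂ) (hest : PtEst d α β C b G)
    (f : ℂ → Fin (n + 1) → ℂ) (hf : Differentiable ℂ f) (hf0 : ∀ z, f z ≠ 0) (k : Fin (n + 1))
    (hne : ∀ i, ∃ z, eval (f z) (b i) ≠ 0) (hΦ : ∃ z, phi G f k z ≠ 0) (z : ℂ) :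
    ∑ i, ((analyticOrderAt (fun w => eval (f w) (b i)) z).toNat - 1) ≤
      (analyticOrderAt (phi G f k) z).toNat := by
  classical
  -- the functions `h_i`, `k_i`
  have hfk : Differentiable ℂ (fun w => f w k) := (differentiable_pi.mp hf) k
  have hh : ∀ i, AnalyticAt ℂ (fun w => eval (f w) (b i)) z := fun i =>
    (comp_diff (b i) f hf).analyticAt z
  have hka : ∀ i, AnalyticAt ℂ (fun w => dv (b i) (f w) (tng f k w)) z := by
    intro i
    have e1 : (fun w => dv (b i) (f w) (tng f k w)) = fun w =>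
        f w k * deriv (fun v => eval (f v) (b i)) w -
          d * deriv (fun v => f v k) w * eval (f w) (b i) := by
      funext w
      exact dv_tng (b i) (hb i) f hf k w
    rw [e1]
    exact ((hfk.analyticAt z).mul (hh i).deriv).sub
      ((analyticAt_const.mul (hfk.analyticAt z).deriv).mul (hh i))
  set m : ι → ℕ := fun i => (analyticOrderAt (fun w => eval (f w) (b i)) z).toNat - 1 with hm
  have hfin : ∀ i, analyticOrderAt (fun w => eval (f w) (b i)) z ≠ ⊤ := fun i =>
    order_ne_top (comp_diff (b i) f hf) (hne i) z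
  -- factorisations
  have hψ : ∀ i, ∃ ψ χ : ℂ → ℂ, AnalyticAt ℂ ψ z ∧ AnalyticAt ℂ χ z ∧
      (∀ᶠ w in nhds z, eval (f w) (b i) = (w - z) ^ m i * ψ w) ∧
      (∀ᶠ w in nhds z, dv (b i) (f w) (tng f k w) = (w - z) ^ m i * χ w) := by
    intro i
    rcases Nat.eq_zero_or_pos (m i) with h0 | hpos
    · refine ⟨fun w => eval (f w) (b i), fun w => dv (b i) (f w) (tng f k w), hh i, hka i, ?_, ?_⟩
      · refine Filter.Eventually.of_forall fun w => ?_
        rw [h0, pow_zero, one_mul]
      · refine Filter.Eventually.of_forall fun w => ?_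
        rw [h0, pow_zero, one_mul]
    · have hμ : analyticOrderAt (fun w => eval (f w) (b i)) z = ((m i + 1 : ℕ) : ℕ∞) := by
        have e1 : (analyticOrderAt (fun w => eval (f w) (b i)) z).toNat = m i + 1 := by
          simp only [hm] at hpos ⊢
          omega
        rw [← e1, ENat.natCast_toNat_eq_self.mpr (hfin i)]
      have h1 : ((m i : ℕ) : ℕ∞) ≤ analyticOrderAt (fun w => eval (f w) (b i)) z := by
        rw [hμ]
        exact_mod_cast Nat.le_succ _
      have h2 : ((m i : ℕ) : ℕ∞) ≤ analyticOrderAt (deriv fun w => eval (f w) (b i)) z := by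
        refine le_of_eq (analyticOrderAt_deriv_of_pos (hh i) ?_).symm
        rw [hμ]
        norm_cast
      obtain ⟨ψ, hψ1, hψ2⟩ := (natCast_le_analyticOrderAt (hh i)).1 h1
      obtain ⟨χ, hχ1, hχ2⟩ := (natCast_le_analyticOrderAt (hh i).deriv).1 h2
      refine ⟨ψ, fun w => f w k * χ w - d * deriv (fun v => f v k) w * ψ w, hψ1,
        ((hfk.analyticAt z).mul hχ1).sub
          ((analyticAt_const.mul (hfk.analyticAt z).deriv).mul hψ1), ?_, ?_⟩
      · filter_upwards [hψ2] with w hw
        rw [hw, smul_eq_mul]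
      · filter_upwards [hψ2, hχ2] with w hw hw'
        rw [dv_tng (b i) (hb i) f hf k w, hw', hw, smul_eq_mul, smul_eq_mul]
        ring
  choose ψ χ hψa hχa hψe hχe using hψ
  -- the order of `Φ`
  have hΦa : AnalyticAt ℂ (phi G f k) z := (phi_diff G f hf k).analyticAt z
  obtain ⟨g, hga, hg0, hge⟩ := hΦa.analyticOrderAt_ne_top.1 (order_ne_top (phi_diff G f hf k) hΦ z)
  by_contra hlt
  rw [not_le] at hlt
  set o : ℕ := (analyticOrderAt (phi G f k) z).toNat with ho
  have ho' : analyticOrderNatAt (phi G f k) z = o := rfl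
  rw [ho'] at hge
  set M : ℕ := ∑ i, m i with hM
  obtain ⟨hC0, hest'⟩ := hest
  -- both sides along the punctured neighbourhood
  set L : ℂ → ℝ := fun w => ‖g w‖ * ‖f w‖ ^ (d * Fintype.card ι) with hL
  set Rr : ℂ → ℝ := fun w => C * ‖f w‖ ^ α * (‖f w‖ + ‖tng f k w‖) ^ β *
    (‖w - z‖ ^ (M - o) * ∏ i, (‖ψ i w‖ + ‖χ i w‖)) with hR
  have hLR : ∀ᶠ w in nhdsWithin z {z}ᶜ, L w ≤ Rr w := by
    have a1 := (Filter.eventually_all.2 hψe).filter_mono (nhdsWithin_le_nhds (s := {z}ᶜ))
    have a2 := (Filter.eventually_all.2 hχe).filter_mono (nhdsWithin_le_nhds (s := {z}ᶜ))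
    have a3 := hge.filter_mono (nhdsWithin_le_nhds (s := {z}ᶜ))
    filter_upwards [a1, a2, a3, self_mem_nhdsWithin] with w w1 w2 w3 w4
    have hwz : 0 < ‖w - z‖ := norm_pos_iff.mpr (sub_ne_zero.mpr w4)
    have h3 := hest' (f w) (tng f k w) (hf0 w)
    have h4 : eval (Sum.elim (f w) (tng f k w)) G = (w - z) ^ o * g w := by
      have : phi G f k w = (w - z) ^ o • g w := w3
      rw [← smul_eq_mul, ← this, phi]
    have h5 : ∏ i, (‖eval (f w) (b i)‖ + ‖dv (b i) (f w) (tng f k w)‖) =
        ‖w - z‖ ^ M * ∏ i, (‖ψ i w‖ + ‖χ i w‖) := by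
      rw [hM, ← Finset.prod_pow_eq_pow_sum, ← Finset.prod_mul_distrib]
      refine Finset.prod_congr rfl fun i _ => ?_
      rw [w1 i, w2 i, norm_mul, norm_mul, norm_pow]
      ring
    rw [h4, h5, norm_mul, norm_pow] at h3
    have h6 : ‖w - z‖ ^ M = ‖w - z‖ ^ o * ‖w - z‖ ^ (M - o) := by
      rw [← pow_add]
      congr 1
      omega
    rw [h6] at h3
    have h7 : 0 < ‖w - z‖ ^ o := by positivity
    refine le_of_mul_le_mul_left ?_ h7
    simp only [hL, hR]
    calc ‖w - z‖ ^ o * (‖g w‖ * ‖f w‖ ^ (d * Fintype.card ι))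
        = ‖w - z‖ ^ o * ‖g w‖ * ‖f w‖ ^ (d * Fintype.card ι) := by ring
      _ ≤ C * ‖f w‖ ^ α * (‖f w‖ + ‖tng f k w‖) ^ β *
          (‖w - z‖ ^ o * ‖w - z‖ ^ (M - o) * ∏ i, (‖ψ i w‖ + ‖χ i w‖)) := h3
      _ = _ := by ring
  have hfc : ContinuousAt f z := hf.continuous.continuousAt
  have htc : ContinuousAt (tng f k) z := (tng_diff f hf k).continuous.continuousAt
  have hLc : ContinuousAt L z := by
    have := hga.continuousAt
    fun_prop
  have hRc : ContinuousAt Rr z := by
    have c1 : ∀ i, ContinuousAt (ψ i) z := fun i => (hψa i).continuousAt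
    have c2 : ∀ i, ContinuousAt (χ i) z := fun i => (hχa i).continuousAt
    have c3 : ContinuousAt (fun w => ∏ i, (‖ψ i w‖ + ‖χ i w‖)) z :=
      tendsto_finsetProd _ fun i _ => (c1 i).norm.add (c2 i).norm
    have c4 : ContinuousAt (fun w : ℂ => ‖w - z‖ ^ (M - o)) z := by fun_prop
    have c5 : ContinuousAt (fun w => C * ‖f w‖ ^ α * (‖f w‖ + ‖tng f k w‖) ^ β) z := by fun_prop
    exact c5.mul (c4.mul c3)
  have h8 : L z ≤ Rr z := le_of_tendsto_of_tendsto (hLc.tendsto.mono_left nhdsWithin_le_nhds)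
    (hRc.tendsto.mono_left nhdsWithin_le_nhds) hLR
  have h9 : Rr z = 0 := by
    simp only [hR, sub_self, norm_zero]
    rw [zero_pow (by omega : M - o ≠ 0)]
    ring
  have h10 : 0 < L z := by
    have := norm_pos_iff.mpr hg0
    have := norm_pos_iff.mpr (hf0 z)
    simp only [hL]
    positivity
  linarith

end Pool.Agent.GH
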