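import Pool.Agent.Lib_MP_b9fedf_gh.Family
import Pool.Agent.Lib_MP_b9fedf_ag.TanKey

/-! The tangent vector of a curve, normalised. -/

set_option autoImplicit false

namespace Pool.Agent.GH
open MvPolynomial Pool.Agent.GGL

/-- `V_j = f_k f_j' - f_k' f_j` -/
noncomputable def tng {n : ℕ} (f : ℂ → Fin (n + 1) → ℂ) (k : Fin (n + 1)) (z : ℂ) :
    Fin (n + 1) → ℂ :=
  fun j => f z k * deriv (fun w => f w j) z - deriv (fun w => f w k) z * f z j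

/-- the value of `G` along the curve -/
noncomputable def phi {n : ℕ} (G : MvPolynomial (XV n) ℂ) (f : ℂ → Fin (n + 1) → ℂ)
    (k : Fin (n + 1)) (z : ℂ) : ℂ :=
  eval (Sum.elim (f z) (tng f k z)) G

/-- the product estimate for the form `G` -/
def PtEst {n : ℕ} {ι : Type} [Fintype ι] (d α β : ℕ) (C : ℝ)
    (b : ι → MvPolynomial (Fin (n + 1)) ℂ) (G : MvPolynomial (XV n) ℂ) : Prop :=
  0 ≤ C ∧ ∀ x v : Fin (n + 1) → ℂ, x ≠ 0 →
    ‖eval (Sum.elim x v) G‖ * ‖x‖ ^ (d * Fintype.card ι) ≤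
      C * ‖x‖ ^ α * (‖x‖ + ‖v‖) ^ β * ∏ i, (‖eval x (b i)‖ + ‖dv (b i) x v‖)

end Pool.Agent.GH
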