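import Pool.Agent.Lib_MP_b9fedf_ag.TanDefs
import Pool.Agent.Lib_MP_b9fedf_og.Defs

/-! Definitions for the second main theorem with truncation level one for general hypersurfaces. -/

set_option autoImplicit false

namespace Pool.Agent.GH
open MvPolynomial Pool.Agent.GGL

/-- indices of the variables `x` (`Sum.inl`) and `v` (`Sum.inr`) -/
abbrev XV (n : ℕ) : Type := Fin (n + 1) ⊕ Fin (n + 1)

/-- the form of degree `d` with coefficients `c` -/
noncomputable def frm {R : Type} [CommRing R] {n d : ℕ} (c : Mon n d → R) :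
    MvPolynomial (Fin (n + 1)) R :=
  ∑ m : Mon n d, monomial m.1 (c m)

/-- `b(x)` as a polynomial in `x` and `v` -/
noncomputable def inx {R : Type} [CommRing R] {n : ℕ} (P : MvPolynomial (Fin (n + 1)) R) :
    MvPolynomial (XV n) R :=
  rename Sum.inl P

/-- `Db(x, v) = ∑ ∂_j b(x) v_j` -/
noncomputable def dif {R : Type} [CommRing R] {n : ℕ} (P : MvPolynomial (Fin (n + 1)) R) :
    MvPolynomial (XV n) R :=
  ∑ j, rename Sum.inl (pderiv j P) * X (Sum.inr j)

/-- bihomogeneous of degree `α` in `x` and `β` in `v` -/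
def BiHom {R : Type} [CommRing R] {n : ℕ} (α β : ℕ) (G : MvPolynomial (XV n) R) : Prop :=
  IsWeightedHomogeneous (Sum.elim (fun _ => ((1, 0) : ℕ × ℕ)) (fun _ => (0, 1))) G (α, β)

/-- `G` lies in the ideal generated by `b(x)` and `Db(x, v)` -/
def InI {R : Type} [CommRing R] {n : ℕ} (b : MvPolynomial (Fin (n + 1)) R)
    (G : MvPolynomial (XV n) R) : Prop :=
  ∃ P P' : MvPolynomial (XV n) R, G = inx b * P + dif b * P'

/-- The forms `b i` have normal crossings: the gradients of the members which vanish at a point are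
linearly independent. -/
def Snc {n : ℕ} {ι : Type} (b : ι → MvPolynomial (Fin (n + 1)) ℂ) : Prop :=
  ∀ x : Fin (n + 1) → ℂ, x ≠ 0 → ∀ B : Finset ι, (∀ i ∈ B, eval x (b i) = 0) →
    LinearIndependent ℂ (fun i : B => fun j => eval x (pderiv j (b i)))

/-- For every two independent vectors `x`, `v` there are a set `R` of at most `2n` members and a
bihomogeneous form `G`, `G(x, v) ≠ 0`, in the ideals `(b_i(x), Db_i(x, v))` of all members not in `R`. -/
def GenF {n : ℕ} {ι : Type} (α β : ℕ) (b : ι → MvPolynomial (Fin (n + 1)) ℂ) : Prop :=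
  ∀ x v : Fin (n + 1) → ℂ, LinearIndependent ℂ ![x, v] →
    ∃ (R : Finset ι) (G : MvPolynomial (XV n) ℂ), R.card ≤ 2 * n ∧ BiHom α β G ∧
      (∀ i, i ∉ R → InI (b i) G) ∧ eval (Sum.elim x v) G ≠ 0

/-- substitution `P(g x)` -/
noncomputable def sub {R : Type} [CommRing R] {n : ℕ} (g : Matrix (Fin (n + 1)) (Fin (n + 1)) R)
    (P : MvPolynomial (Fin (n + 1)) R) : MvPolynomial (Fin (n + 1)) R :=
  aeval (fun j => ∑ k, C (g j k) * X k) P

/-- substitution `G(g x, g v)` -/
noncomputable def sub2 {R : Type} [CommRing R] {n : ℕ} (g : Matrix (Fin (n + 1)) (Fin (n + 1)) R)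
    (G : MvPolynomial (XV n) R) : MvPolynomial (XV n) R :=
  aeval (Sum.elim (fun j => ∑ k, C (g j k) * X (Sum.inl k))
    (fun j => ∑ k, C (g j k) * X (Sum.inr k))) G

/-- coefficients of the form `b(g x)` -/
noncomputable def act {R : Type} [CommRing R] {n d : ℕ}
    (g : Matrix (Fin (n + 1)) (Fin (n + 1)) R) (c : Mon n d → R) : Mon n d → R :=
  fun m => coeff m.1 (sub g (frm c))

/-- a polynomial over `ℚ[c_im]`, specialised at complex values of the `c_im` -/
noncomputable def spc {ι σ M : Type} (c : ι → M → ℂ)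
    (P : MvPolynomial σ (MvPolynomial (ι × M) ℚ)) : MvPolynomial σ ℂ :=
  MvPolynomial.map (aeval (fun p : ι × M => c p.1 p.2) :
    MvPolynomial (ι × M) ℚ →ₐ[ℚ] ℂ).toRingHom P

/-- `G` is a universal form for the family `ι` -/
def Univ {n d : ℕ} {ι : Type} (α β : ℕ)
    (G : MvPolynomial (XV n) (MvPolynomial (ι × Mon n d) ℚ)) : Prop :=
  G ≠ 0 ∧ BiHom α β G ∧ ∀ i, InI (frm (fun m : Mon n d => (X (i, m) : MvPolynomial (ι × Mon n d) ℚ))) G

end Pool.Agent.GH
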