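import Pool.Agent.Lib_MP_b9fedf_gh.Act

/-! [GH-P]: nonvanishing at generic values. -/

set_option autoImplicit false

namespace Pool.Agent.GH
open MvPolynomial Pool.Agent.GGL

private theorem mulVec_mem_ge {N : ℕ} (A : Subalgebra ℚ ℂ) (u : Fin N → ℂ) (hu : ∀ i, u i ∈ A)
    (g : Matrix (Fin N) (Fin N) ℤ) (i : Fin N) :
    ((g.map (Int.cast : ℤ → ℂ)).adjugate.mulVec u) i ∈ A := by
  have h1 : (g.map (Int.cast : ℤ → ℂ)).adjugate = (g.adjugate).map (Int.cast : ℤ → ℂ) := by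
    have := RingHom.map_adjugate (Int.castRingHom ℂ) g
    exact this.symm
  rw [h1]
  change ∑ j, ((g.adjugate i j : ℤ) : ℂ) * u j ∈ A
  exact A.sum_mem fun j _ => A.mul_mem (intCast_mem A _) (hu j)

private theorem cq_ge {σ : Type} (f g : MvPolynomial σ ℚ →+* ℂ) (q : ℚ) : f (C q) = g (C q) :=
  RingHom.congr_fun (RingHom.ext_rat (f.comp C) (g.comp C)) q

private theorem hom_ge {n d : ℕ} {ι : Type} (A : Subalgebra ℚ ℂ)
    (g : Matrix (Fin (n + 1)) (Fin (n + 1)) ℤ) (c : ι → Mon n d → ℂ) :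
    ((aeval (fun p : ι × Mon n d => c p.1 p.2) : MvPolynomial (ι × Mon n d) A →ₐ[A] ℂ).toRingHom).comp
      (aeval (fun p : ι × Mon n d => ∑ m' : Mon n d, C ((rep g p.2 m' : ℤ) : A) * X (p.1, m')) :
        MvPolynomial (ι × Mon n d) ℚ →ₐ[ℚ] MvPolynomial (ι × Mon n d) A).toRingHom =
      (aeval (fun p : ι × Mon n d => act (g.map (Int.cast : ℤ → ℂ)) (c p.1) p.2) :
        MvPolynomial (ι × Mon n d) ℚ →ₐ[ℚ] ℂ).toRingHom := by
  apply MvPolynomial.ringHom_ext
  · intro q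
    exact cq_ge _ _ q
  · intro p
    simp only [RingHom.comp_apply, AlgHom.toRingHom_eq_coe, RingHom.coe_coe, aeval_X, map_sum,
      map_mul, aeval_C]
    rw [act_eq]
    refine Finset.sum_congr rfl fun m' _ => ?_
    congr 1

/-- [GH-P] The nonvanishing at some values `c₁` implies the nonvanishing at generic values (compare `generic_eval` in
Lib_MP_b9fedf_lg/MatB.lean, copy its proof).  The entries of `x`, `v` lie in the ring `A`, so
`c ↦ eval (adj g x, adj g v) (spc (act g c) P)` is a polynomial in `c` with coefficients in `A` (`act_eq`); it is nonzero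
at `c = act g⁻¹ c₁` (`act_act`, `act_one`: `act g (act g⁻¹ c₁) = c₁`), hence at `a`. -/
theorem gen_eval {n d : ℕ} {ι : Type} [Fintype ι]
    (P : MvPolynomial (XV n) (MvPolynomial (ι × Mon n d) ℚ)) (A : Subalgebra ℚ ℂ)
    (x v : Fin (n + 1) → ℂ) (hx : ∀ i, x i ∈ A) (hv : ∀ i, v i ∈ A)
    (g : Matrix (Fin (n + 1)) (Fin (n + 1)) ℤ) (hg : g.det ≠ 0) (c₁ : ι → Mon n d → ℂ)
    (hb : eval (Sum.elim ((g.map (Int.cast : ℤ → ℂ)).adjugate.mulVec x)
        ((g.map (Int.cast : ℤ → ℂ)).adjugate.mulVec v)) (spc c₁ P) ≠ 0)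
    (a : ι → Mon n d → ℂ)
    (ha : AlgebraicIndependent A (fun p : ι × Mon n d => a p.1 p.2)) :
    eval (Sum.elim ((g.map (Int.cast : ℤ → ℂ)).adjugate.mulVec x)
        ((g.map (Int.cast : ℤ → ℂ)).adjugate.mulVec v))
      (spc (fun i => act (g.map (Int.cast : ℤ → ℂ)) (a i)) P) ≠ 0 := by
  classical
  have hw : ∀ t : XV n, Sum.elim ((g.map (Int.cast : ℤ → ℂ)).adjugate.mulVec x)
      ((g.map (Int.cast : ℤ → ℂ)).adjugate.mulVec v) t ∈ A := by
    rintro (t | t)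
    · exact mulVec_mem_ge A x hx g t
    · exact mulVec_mem_ge A v hv g t
  set w : XV n → ℂ := Sum.elim ((g.map (Int.cast : ℤ → ℂ)).adjugate.mulVec x)
        ((g.map (Int.cast : ℤ → ℂ)).adjugate.mulVec v) with hwdef
  let wA : XV n → A := fun i => ⟨w i, hw i⟩
  let φ : MvPolynomial (ι × Mon n d) ℚ →+* MvPolynomial (ι × Mon n d) A :=
    (aeval (fun p : ι × Mon n d => ∑ m' : Mon n d, C ((rep g p.2 m' : ℤ) : A) * X (p.1, m')) :
        MvPolynomial (ι × Mon n d) ℚ →ₐ[ℚ] MvPolynomial (ι × Mon n d) A).toRingHom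
  let Φ : MvPolynomial (ι × Mon n d) A := eval₂ φ (fun i => C (wA i)) P
  have key : ∀ c : ι → Mon n d → ℂ, aeval (fun p : ι × Mon n d => c p.1 p.2) Φ =
      eval w (spc (fun i => act (g.map (Int.cast : ℤ → ℂ)) (c i)) P) := by
    intro c
    have h1 := MvPolynomial.eval₂_comp_left
      ((aeval (fun p : ι × Mon n d => c p.1 p.2) :
        MvPolynomial (ι × Mon n d) A →ₐ[A] ℂ).toRingHom) φ (fun i => C (wA i)) P
    have h2 : ((aeval (fun p : ι × Mon n d => c p.1 p.2) :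
        MvPolynomial (ι × Mon n d) A →ₐ[A] ℂ).toRingHom).comp φ =
        (aeval (fun p : ι × Mon n d => act (g.map (Int.cast : ℤ → ℂ)) (c p.1) p.2) :
        MvPolynomial (ι × Mon n d) ℚ →ₐ[ℚ] ℂ).toRingHom := hom_ge A g c
    have h3 : (((aeval (fun p : ι × Mon n d => c p.1 p.2) :
        MvPolynomial (ι × Mon n d) A →ₐ[A] ℂ).toRingHom) ∘ (fun i => C (wA i))) = w := by
      funext i
      simp only [Function.comp_apply, AlgHom.toRingHom_eq_coe, RingHom.coe_coe, aeval_C]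
      rfl
    rw [h2, h3] at h1
    unfold spc
    rw [MvPolynomial.eval_map]
    exact h1
  -- invertibility of `g`
  have hdet : IsUnit (g.map (Int.cast : ℤ → ℂ)).det := by
    have h1 : (g.map (Int.cast : ℤ → ℂ)).det = ((g.det : ℤ) : ℂ) :=
      (RingHom.map_det (Int.castRingHom ℂ) g).symm
    rw [h1]
    exact isUnit_iff_ne_zero.2 (by exact_mod_cast hg)
  have hbg : (fun i => act (g.map (Int.cast : ℤ → ℂ))
      (act (g.map (Int.cast : ℤ → ℂ))⁻¹ (c₁ i))) = c₁ := by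
    funext i
    rw [act_act, Matrix.nonsing_inv_mul _ hdet, act_one]
  have hΦ : Φ ≠ 0 := by
    intro h0
    have h1 := key (fun i => act (g.map (Int.cast : ℤ → ℂ))⁻¹ (c₁ i))
    rw [hbg, h0, map_zero] at h1
    exact hb h1.symm
  rw [← key a]
  intro h0
  exact hΦ (ha.eq_zero_of_aeval_eq_zero Φ h0)

end Pool.Agent.GH
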