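import Pool.Agent.Lib_MP_b9fedf_gh.BasicB

/-! [GH-N]: a pair of vectors, up to scalars, is determined by `2n` numbers. -/

set_option autoImplicit false

namespace Pool.Agent.GH

private theorem mem_of_succAbove {n : ℕ} {M : Subalgebra ℚ ℂ} (k : Fin (n + 1)) (x' : Fin (n + 1) → ℂ)
    (h1 : x' k = 1) (h : ∀ i, x' (k.succAbove i) ∈ M) (j : Fin (n + 1)) : x' j ∈ M := by
  rcases Fin.eq_self_or_eq_succAbove k j with rfl | ⟨i, rfl⟩
  · rw [h1]; exact M.one_mem
  · exact h i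

/-- [GH-N] (`x k ≠ 0`, `v l ≠ 0`; `x' = x / x k`, `v' = v / v l`; `y` consists of the `x' (k.succAbove i)` and the
`v' (l.succAbove i)`, `Fin.append`.) -/
theorem norm_pair {n : ℕ} (x v : Fin (n + 1) → ℂ) (hxv : LinearIndependent ℂ ![x, v]) :
    ∃ (y : Fin (n + n) → ℂ) (x' v' : Fin (n + 1) → ℂ) (s t : ℂ), s ≠ 0 ∧ t ≠ 0 ∧
      x = s • x' ∧ v = t • v' ∧ (∀ j, x' j ∈ Algebra.adjoin ℚ (Set.range y)) ∧
      (∀ j, v' j ∈ Algebra.adjoin ℚ (Set.range y)) ∧ LinearIndependent ℂ ![x', v'] := by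
  have hx : x ≠ 0 := by
    have := hxv.ne_zero 0
    simpa using this
  have hv : v ≠ 0 := by
    have := hxv.ne_zero 1
    simpa using this
  obtain ⟨k, hk⟩ := Function.ne_iff.mp hx
  obtain ⟨l, hl⟩ := Function.ne_iff.mp hv
  simp only [Pi.zero_apply] at hk hl
  set x' : Fin (n + 1) → ℂ := (x k)⁻¹ • x with hx'
  set v' : Fin (n + 1) → ℂ := (v l)⁻¹ • v with hv'
  refine ⟨Fin.append (fun i => x' (k.succAbove i)) (fun i => v' (l.succAbove i)), x', v', x k, v l,
    hk, hl, ?_, ?_, ?_, ?_, ?_⟩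
  · rw [hx', smul_smul, mul_inv_cancel₀ hk, one_smul]
  · rw [hv', smul_smul, mul_inv_cancel₀ hl, one_smul]
  · apply mem_of_succAbove k
    · simp [hx', hk]
    · intro i
      apply Algebra.subset_adjoin
      exact ⟨Fin.castAdd n i, by rw [Fin.append_left]⟩
  · apply mem_of_succAbove l
    · simp [hv', hl]
    · intro i
      apply Algebra.subset_adjoin
      exact ⟨Fin.natAdd n i, by rw [Fin.append_right]⟩
  · rw [LinearIndependent.pair_iff] at hxv ⊢
    intro a b hab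
    have := hxv (a * (x k)⁻¹) (b * (v l)⁻¹) (by
      rw [mul_smul, mul_smul]; exact hab)
    refine ⟨?_, ?_⟩
    · exact (mul_eq_zero.mp this.1).resolve_right (inv_ne_zero hk)
    · exact (mul_eq_zero.mp this.2).resolve_right (inv_ne_zero hl)

end Pool.Agent.GH
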