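import Pool.Agent.Lib_MP_b9fedf_gh.UnivIn
import Pool.Agent.Lib_MP_b9fedf_gh.NormPair
import Pool.Agent.Lib_MP_b9fedf_gh.ExInt
import Pool.Agent.Lib_MP_b9fedf_gh.GenEval
import Pool.Agent.Lib_MP_b9fedf_gh.Psi
import Pool.Agent.Lib_MP_b9fedf_lg.Matroid
import Pool.Agent.Lib_MP_b9fedf_og.Elim
import Pool.Agent.Lib_MP_b9fedf_og.AlgInd

/-! [GH-S]: the forms exist for all families outside a proper algebraic subset. -/

set_option autoImplicit false

namespace Pool.Agent.GH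
open MvPolynomial Pool.Agent.GGL Pool.Agent.OG Pool.Agent.LG

/-- the minors of `(x, v)` -/
noncomputable def mn {n : ℕ} (ij : Fin (n + 1) × Fin (n + 1)) : MvPolynomial (XV n) ℚ :=
  X (Sum.inl ij.1) * X (Sum.inr ij.2) - X (Sum.inl ij.2) * X (Sum.inr ij.1)

theorem aeval_mn {n : ℕ} (x v : Fin (n + 1) → ℂ) (ij : Fin (n + 1) × Fin (n + 1)) :
    aeval (Sum.elim x v) (mn ij) = x ij.1 * v ij.2 - x ij.2 * v ij.1 := by
  simp only [mn, map_sub, map_mul, aeval_X, Sum.elim_inl, Sum.elim_inr]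

theorem mn_ne {n : ℕ} (x v : Fin (n + 1) → ℂ) (hxv : LinearIndependent ℂ ![x, v]) :
    ∃ ij : Fin (n + 1) × Fin (n + 1), x ij.1 * v ij.2 - x ij.2 * v ij.1 ≠ 0 := by
  by_contra hcon
  push Not at hcon
  rw [LinearIndependent.pair_iff] at hxv
  have hu : ∀ i, x i = 0 := by
    intro i
    have h1 : v i • x + (-x i) • v = 0 := by
      funext l
      have := hcon (i, l)
      simp only [Pi.add_apply, Pi.smul_apply, smul_eq_mul, Pi.zero_apply]
      linear_combination -this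
    exact neg_eq_zero.mp (hxv _ _ h1).2
  have h2 : (1 : ℂ) • x + (0 : ℂ) • v = 0 := by
    funext l
    simp [hu l]
  exact one_ne_zero (hxv _ _ h2).1

theorem indep_of_mn {n : ℕ} (x v : Fin (n + 1) → ℂ) (ij : Fin (n + 1) × Fin (n + 1))
    (h : x ij.1 * v ij.2 - x ij.2 * v ij.1 ≠ 0) : LinearIndependent ℂ ![x, v] := by
  rw [LinearIndependent.pair_iff]
  intro s t hst
  have h1 := congrFun hst ij.1
  have h2 := congrFun hst ij.2
  simp only [Pi.add_apply, Pi.smul_apply, smul_eq_mul, Pi.zero_apply] at h1 h2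
  constructor
  · have h3 : s * (x ij.1 * v ij.2 - x ij.2 * v ij.1) = 0 := by
      linear_combination v ij.2 * h1 - v ij.1 * h2
    exact (mul_eq_zero.1 h3).resolve_right h
  · have h3 : t * (x ij.1 * v ij.2 - x ij.2 * v ij.1) = 0 := by
      linear_combination x ij.1 * h2 - x ij.2 * h1
    exact (mul_eq_zero.1 h3).resolve_right h

/-- [GH-S] The forms of `GenF` exist for all families `a` with `S(a) ≠ 0`. -/
theorem gen_open {n d α β : ℕ} {ι : Type} [Fintype ι] [DecidableEq ι]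
    (hU : ∀ R : Finset ι, ∃ P : MvPolynomial (XV n) (MvPolynomial ({i : ι // i ∉ R} × Mon n d) ℚ),
      Univ α β P) :
    ∃ S : MvPolynomial (ι × Mon n d) ℚ, S ≠ 0 ∧ ∀ a : ι → Mon n d → ℂ,
      aeval (fun p : ι × Mon n d => a p.1 p.2) S ≠ 0 → GenF α β (fun i => frm (a i)) := by
  classical
  choose P hP using hU
  let T : Type := {t : Finset ι × Matrix (Fin (n + 1)) (Fin (n + 1)) ℤ // t.1.card ≤ 2 * n ∧
    t.2.det ≠ 0}
  have hΨ : ∀ t : T, ∃ Ψ : MvPolynomial (XV n) (MvPolynomial (ι × Mon n d) ℚ),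
      ∀ (a : ι → Mon n d → ℂ) (x v : Fin (n + 1) → ℂ),
        ev (fun y : ι × Mon n d => a y.1 y.2) (Sum.elim x v) Ψ =
          eval (Sum.elim ((t.1.2.map (Int.cast : ℤ → ℂ)).adjugate.mulVec x)
            ((t.1.2.map (Int.cast : ℤ → ℂ)).adjugate.mulVec v))
            (spc (fun i : {i : ι // i ∉ t.1.1} => act (t.1.2.map (Int.cast : ℤ → ℂ)) (a i))
              (P t.1.1)) := fun t =>
    exists_psi (fun i => i ∉ t.1.1) (P t.1.1) t.1.2
  choose Ψ hΨ using hΨ
  -- a generic family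
  obtain ⟨a₀', ha₀'⟩ := exists_algInd (ι × Mon n d)
  set a₀ : ι → Mon n d → ℂ := fun i j => a₀' (i, j) with ha₀
  have ha₀i : AlgebraicIndependent ℚ (fun p : ι × Mon n d => a₀ p.1 p.2) := ha₀'
  have key : ∀ w : XV n → ℂ,
      (∀ t, ev (fun p : ι × Mon n d => a₀ p.1 p.2) w (Ψ t) = 0) →
        ∀ ij : Fin (n + 1) × Fin (n + 1), aeval w (mn ij) = 0 := by
    intro w hw ij
    obtain ⟨x, v, rfl⟩ : ∃ x v : Fin (n + 1) → ℂ, w = Sum.elim x v :=
      ⟨w ∘ Sum.inl, w ∘ Sum.inr, (Sum.elim_comp_inl_inr w).symm⟩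
    rw [aeval_mn]
    by_contra hne
    have hxv := indep_of_mn x v ij hne
    obtain ⟨y, x', v', s, t, hs, ht, rfl, rfl, hx', hv', hxv'⟩ := norm_pair x v hxv
    obtain ⟨S, hS, hSi⟩ := indep_off (fun p : ι × Mon n d => a₀ p.1 p.2) ha₀i y
    set R : Finset ι := S.image Prod.fst with hR
    have hRc : R.card ≤ 2 * n := by
      rw [hR]
      refine Finset.card_image_le.trans ?_
      omega
    obtain ⟨gz, c₁, hgz, hc₁⟩ := exists_int (P R) (hP R).1 (hP R).2.1 x' v' hxv'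
    set a' : {i : ι // i ∉ R} → Mon n d → ℂ := fun i => a₀ i with ha'
    have hai : AlgebraicIndependent (Algebra.adjoin ℚ (Set.range y))
        (fun p : {i : ι // i ∉ R} × Mon n d => a' p.1 p.2) := by
      let e : {i : ι // i ∉ R} × Mon n d → {e : ι × Mon n d // e ∉ S} := fun p =>
        ⟨(p.1, p.2), fun h => p.1.2 (Finset.mem_image.mpr ⟨_, h, rfl⟩)⟩
      have he : Function.Injective e := by
        intro p q hpq
        have h1 := congrArg Subtype.val hpq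
        simp only [e, Prod.mk.injEq] at h1
        exact Prod.ext (Subtype.ext h1.1) h1.2
      exact hSi.comp e he
    have h1 := gen_eval (P R) _ x' v' hx' hv' gz hgz c₁ hc₁ a' hai
    have h2 := hw ⟨(R, gz), hRc, hgz⟩
    rw [hΨ] at h2
    simp only at h2
    have hh : BiHom α β (spc (fun i : {i : ι // i ∉ R} =>
        act (gz.map (Int.cast : ℤ → ℂ)) (a₀ i)) (P R)) :=
      (univ_spc (P R) (hP R) _).1
    rw [Matrix.mulVec_smul, Matrix.mulVec_smul, eval_bihom hh] at h2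
    exact mul_ne_zero (mul_ne_zero (pow_ne_zero _ hs) (pow_ne_zero _ ht)) h1 h2
  obtain ⟨T', D, hD, hDT⟩ := elim Ψ mn (fun p : ι × Mon n d => a₀ p.1 p.2) ha₀i key
  refine ⟨D, hD, fun a ha x v hxv => ?_⟩
  obtain ⟨ij, hij⟩ := mn_ne x v hxv
  obtain ⟨t, htT, ht⟩ : ∃ t ∈ T', ev (fun p : ι × Mon n d => a p.1 p.2) (Sum.elim x v) (Ψ t) ≠ 0 := by
    by_contra hcon
    push Not at hcon
    have h1 := hDT _ ha (Sum.elim x v) hcon ij
    rw [aeval_mn] at h1
    exact hij h1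
  rw [hΨ] at ht
  obtain ⟨⟨R, gz⟩, hRc, hgz⟩ := t
  simp only at ht hRc hgz
  set gc : Matrix (Fin (n + 1)) (Fin (n + 1)) ℂ := gz.map (Int.cast : ℤ → ℂ) with hgc
  obtain ⟨hPh, hPi⟩ := univ_spc (P R) (hP R) (fun i : {i : ι // i ∉ R} => act gc (a i))
  set Pa : MvPolynomial (XV n) ℂ := spc (fun i : {i : ι // i ∉ R} => act gc (a i)) (P R) with hPa
  refine ⟨R, sub2 gc.adjugate Pa, hRc, sub2_bihom _ hPh, fun i hi => ?_, ?_⟩
  · have h1 := hPi ⟨i, hi⟩
    rw [frm_act] at h1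
    exact InI.sub2 (t := gc.det) (Matrix.mul_adjugate gc) (frm_hom (a i)) h1
  · rw [eval_sub2]
    exact ht

end Pool.Agent.GH
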