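import Pool.Agent.Lib_MP_b9fedf_gh.Local

/-! [GH-W]: the global estimate. -/

set_option autoImplicit false

namespace Pool.Agent.GH
open MvPolynomial Pool.Agent.GGL

private theorem glw_hom {σ : Type} [Fintype σ] {d : ℕ} {P : MvPolynomial σ ℂ} (hP : P.IsHomogeneous d)
    (s : ℂ) (x : σ → ℂ) : eval (s • x) P = s ^ d * eval x P := by
  rw [eval_eq', eval_eq', Finset.mul_sum]
  refine Finset.sum_congr rfl fun e he => ?_
  have h1 : ∑ i, e i = d := by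
    have h2 := hP (mem_support_iff.1 he)
    rw [Finsupp.weight_apply, Finsupp.sum_fintype _ _ (fun i => by rw [zero_smul])] at h2
    simpa using h2
  simp only [Pi.smul_apply, smul_eq_mul, mul_pow, Finset.prod_mul_distrib]
  rw [Finset.prod_pow_eq_pow_sum, h1]
  ring

private theorem glw_dv_smul {n : ℕ} (P : MvPolynomial (Fin (n + 1)) ℂ) (x v : Fin (n + 1) → ℂ) (t : ℂ) :
    dv P x (t • v) = t * dv P x v := by
  unfold dv
  rw [Finset.mul_sum]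
  refine Finset.sum_congr rfl fun j _ => ?_
  simp only [Pi.smul_apply, smul_eq_mul]
  ring

private theorem glw_dv_hom {n d : ℕ} (hd : 1 ≤ d) {P : MvPolynomial (Fin (n + 1)) ℂ}
    (hP : P.IsHomogeneous d) (x v : Fin (n + 1) → ℂ) (s : ℂ) :
    dv P (s • x) (s • v) = s ^ d * dv P x v := by
  rw [glw_dv_smul]
  have h1 : dv P (s • x) v = s ^ (d - 1) * dv P x v := by
    unfold dv
    rw [Finset.mul_sum]
    refine Finset.sum_congr rfl fun j _ => ?_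
    rw [glw_hom (hP.pderiv (i := j))]
    ring
  rw [h1, ← mul_assoc, ← pow_succ', Nat.sub_add_cancel hd]

/-- [GH-W1] Proof.  `point_est` and compactness of `{(x, v) | ‖x‖ = 1, ‖v‖ ≤ 1}` (`sphere 0 1 ×ˢ closedBall 0 1`,
`IsCompact.induction_on` or a finite subcover; the products are nonnegative, so the maximum of the constants works). -/
theorem ball_est {n : ℕ} {ι : Type} [Fintype ι] [DecidableEq ι]
    (b : ι → MvPolynomial (Fin (n + 1)) ℂ) (hb : Snc b)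
    (G : MvPolynomial (XV n) ℂ) (hG : ∀ i, InI (b i) G) :
    ∃ C : ℝ, 0 ≤ C ∧ ∀ x v : Fin (n + 1) → ℂ, ‖x‖ = 1 → ‖v‖ ≤ 1 →
      ‖eval (Sum.elim x v) G‖ ≤ C * ∏ i, (‖eval x (b i)‖ + ‖dv (b i) x v‖) := by
  have hK : IsCompact (Metric.sphere (0 : Fin (n + 1) → ℂ) 1 ×ˢ Metric.closedBall (0 : Fin (n + 1) → ℂ) 1) :=
    (isCompact_sphere _ _).prod (isCompact_closedBall _ _)
  have hnn : ∀ q : (Fin (n + 1) → ℂ) × (Fin (n + 1) → ℂ),
      0 ≤ ∏ i, (‖eval q.1 (b i)‖ + ‖dv (b i) q.1 q.2‖) := fun q =>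
    Finset.prod_nonneg fun i _ => by positivity
  have key : ∃ C : ℝ, 0 ≤ C ∧
      ∀ q ∈ Metric.sphere (0 : Fin (n + 1) → ℂ) 1 ×ˢ Metric.closedBall (0 : Fin (n + 1) → ℂ) 1,
      ‖eval (Sum.elim q.1 q.2) G‖ ≤ C * ∏ i, (‖eval q.1 (b i)‖ + ‖dv (b i) q.1 q.2‖) := by
    refine hK.induction_on (p := fun S => ∃ C : ℝ, 0 ≤ C ∧ ∀ q ∈ S,
      ‖eval (Sum.elim q.1 q.2) G‖ ≤ C * ∏ i, (‖eval q.1 (b i)‖ + ‖dv (b i) q.1 q.2‖)) ?_ ?_ ?_ ?_
    · exact ⟨0, le_rfl, fun q hq => absurd hq (Set.notMem_empty q)⟩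
    · rintro s t hst ⟨C, hC, h⟩
      exact ⟨C, hC, fun q hq => h q (hst hq)⟩
    · rintro s t ⟨C, hC, h⟩ ⟨D, hD, h'⟩
      refine ⟨max C D, le_max_of_le_left hC, ?_⟩
      rintro q (hq | hq)
      · exact (h q hq).trans (mul_le_mul_of_nonneg_right (le_max_left _ _) (hnn q))
      · exact (h' q hq).trans (mul_le_mul_of_nonneg_right (le_max_right _ _) (hnn q))
    · rintro ⟨x, v⟩ hx
      have hx0 : x ≠ 0 := by
        rintro rfl
        have h1 := hx.1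
        simp at h1
      obtain ⟨C, hC, U, hU, h⟩ := point_est b hb x v hx0 G hG
      exact ⟨U, mem_nhdsWithin_of_mem_nhds hU, C, hC, h⟩
  obtain ⟨C, hC, h⟩ := key
  refine ⟨C, hC, fun x v hx hv => h (x, v) ⟨?_, ?_⟩⟩
  · simpa using hx
  · simpa using hv

/-- [GH-W2] Proof.  `ρ = ‖x‖ > 0`, `x' = ρ⁻¹ x`, `w = ρ⁻¹ v`: `G(x, v) = ρ ^ (α + β) G(x', w)`
(`eval_bihom` with `s = t = ρ`), `b_i(x) = ρ ^ d b_i(x')`, `Db_i(x, v) = ρ ^ d Db_i(x', w)` (the partial derivatives are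
homogeneous of degree `d - 1`), `ρ ^ β (1 + ‖w‖) ^ β = (‖x‖ + ‖v‖) ^ β`, so it is enough that
`‖G(x', w)‖ ≤ C (1 + ‖w‖) ^ β ∏ (‖b_i(x')‖ + ‖Db_i(x', w)‖)`.  For `‖w‖ ≤ 1` this is `ball_est`.  For `‖w‖ > 1` put
`w' = ‖w‖⁻¹ w`: `G(x', w) = ‖w‖ ^ β G(x', w')` and `‖Db_i(x', w')‖ ≤ ‖Db_i(x', w)‖`. -/
theorem global_est {n d α β : ℕ} {ι : Type} [Fintype ι] [DecidableEq ι] (hd : 1 ≤ d)
    (b : ι → MvPolynomial (Fin (n + 1)) ℂ) (hbd : ∀ i, (b i).IsHomogeneous d) (hb : Snc b)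
    (G : MvPolynomial (XV n) ℂ) (hGh : BiHom α β G) (hG : ∀ i, InI (b i) G) :
    ∃ C : ℝ, 0 ≤ C ∧ ∀ x v : Fin (n + 1) → ℂ, x ≠ 0 →
      ‖eval (Sum.elim x v) G‖ * ‖x‖ ^ (d * Fintype.card ι) ≤
        C * ‖x‖ ^ α * (‖x‖ + ‖v‖) ^ β * ∏ i, (‖eval x (b i)‖ + ‖dv (b i) x v‖) := by
  obtain ⟨C, hC, hball⟩ := ball_est b hb G hG
  refine ⟨C, hC, fun x v hx => ?_⟩
  -- the estimate on the unit sphere
  have key : ∀ x' w : Fin (n + 1) → ℂ, ‖x'‖ = 1 →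
      ‖eval (Sum.elim x' w) G‖ ≤ C * (1 + ‖w‖) ^ β * ∏ i, (‖eval x' (b i)‖ + ‖dv (b i) x' w‖) := by
    intro x' w hx'
    have hP0 : 0 ≤ ∏ i, (‖eval x' (b i)‖ + ‖dv (b i) x' w‖) :=
      Finset.prod_nonneg fun i _ => by positivity
    rcases le_total ‖w‖ 1 with hw | hw
    · have h1 : (1 : ℝ) ≤ (1 + ‖w‖) ^ β := one_le_pow₀ (by linarith [norm_nonneg w])
      calc _ ≤ C * ∏ i, (‖eval x' (b i)‖ + ‖dv (b i) x' w‖) := hball x' w hx' hw
        _ ≤ C * (1 + ‖w‖) ^ β * ∏ i, (‖eval x' (b i)‖ + ‖dv (b i) x' w‖) :=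
          mul_le_mul_of_nonneg_right (le_mul_of_one_le_right hC h1) hP0
    · have hw0 : 0 < ‖w‖ := by linarith
      have hwc : (‖w‖ : ℂ) ≠ 0 := by exact_mod_cast hw0.ne'
      set w' : Fin (n + 1) → ℂ := ((‖w‖ : ℂ)⁻¹) • w with hw'
      have hnw' : ‖w'‖ = 1 := by
        rw [hw', norm_smul, norm_inv, Complex.norm_real, norm_norm, inv_mul_cancel₀ hw0.ne']
      have e1 : w = (‖w‖ : ℂ) • w' := by
        rw [hw', smul_smul, mul_inv_cancel₀ hwc, one_smul]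
      have e2 : eval (Sum.elim x' w) G = (‖w‖ : ℂ) ^ β * eval (Sum.elim x' w') G := by
        have h2 := eval_bihom hGh 1 (‖w‖ : ℂ) x' w'
        rw [one_smul, ← e1, one_pow, one_mul] at h2
        exact h2
      have e3 : ∀ i, ‖dv (b i) x' w'‖ ≤ ‖dv (b i) x' w‖ := by
        intro i
        rw [hw', glw_dv_smul, norm_mul, norm_inv, Complex.norm_real, norm_norm]
        have h3 : ‖w‖⁻¹ ≤ 1 := inv_le_one_of_one_le₀ hw
        calc _ ≤ 1 * ‖dv (b i) x' w‖ := mul_le_mul_of_nonneg_right h3 (norm_nonneg _)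
          _ = _ := one_mul _
      have e4 : ∏ i, (‖eval x' (b i)‖ + ‖dv (b i) x' w'‖) ≤
          ∏ i, (‖eval x' (b i)‖ + ‖dv (b i) x' w‖) :=
        Finset.prod_le_prod (fun i _ => by positivity) fun i _ => by linarith [e3 i]
      have e5 : ‖w‖ ^ β ≤ (1 + ‖w‖) ^ β := pow_le_pow_left₀ hw0.le (by linarith) β
      rw [e2, norm_mul, norm_pow, Complex.norm_real, norm_norm]
      calc ‖w‖ ^ β * ‖eval (Sum.elim x' w') G‖ ≤
          ‖w‖ ^ β * (C * ∏ i, (‖eval x' (b i)‖ + ‖dv (b i) x' w'‖)) :=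
            mul_le_mul_of_nonneg_left (hball x' w' hx' hnw'.le) (by positivity)
        _ ≤ (1 + ‖w‖) ^ β * (C * ∏ i, (‖eval x' (b i)‖ + ‖dv (b i) x' w‖)) :=
            mul_le_mul e5 (mul_le_mul_of_nonneg_left e4 hC)
              (mul_nonneg hC (Finset.prod_nonneg fun i _ => by positivity)) (by positivity)
        _ = _ := by ring
  -- scaling
  have hρ : 0 < ‖x‖ := norm_pos_iff.2 hx
  have hρc : (‖x‖ : ℂ) ≠ 0 := by exact_mod_cast hρ.ne'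
  set ρ : ℝ := ‖x‖ with hρd
  set x' : Fin (n + 1) → ℂ := ((ρ : ℂ)⁻¹) • x with hx'
  set w : Fin (n + 1) → ℂ := ((ρ : ℂ)⁻¹) • v with hw
  have hnx' : ‖x'‖ = 1 := by
    rw [hx', norm_smul, norm_inv, Complex.norm_real, Real.norm_of_nonneg hρ.le, ← hρd,
      inv_mul_cancel₀ hρ.ne']
  have ex : x = (ρ : ℂ) • x' := by
    rw [hx', smul_smul, mul_inv_cancel₀ hρc, one_smul]
  have ev : v = (ρ : ℂ) • w := by
    rw [hw, smul_smul, mul_inv_cancel₀ hρc, one_smul]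
  have nv : ‖v‖ = ρ * ‖w‖ := by
    rw [ev, norm_smul, Complex.norm_real, Real.norm_of_nonneg hρ.le]
  have g1 : ‖eval (Sum.elim x v) G‖ = ρ ^ α * ρ ^ β * ‖eval (Sum.elim x' w) G‖ := by
    have h2 := eval_bihom hGh (ρ : ℂ) (ρ : ℂ) x' w
    rw [← ex, ← ev] at h2
    rw [h2, norm_mul, norm_mul, norm_pow, norm_pow, Complex.norm_real, Real.norm_of_nonneg hρ.le]
  have g2 : ∏ i, (‖eval x (b i)‖ + ‖dv (b i) x v‖) =
      ρ ^ (d * Fintype.card ι) * ∏ i, (‖eval x' (b i)‖ + ‖dv (b i) x' w‖) := by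
    have h3 : ∀ i, ‖eval x (b i)‖ + ‖dv (b i) x v‖ =
        ρ ^ d * (‖eval x' (b i)‖ + ‖dv (b i) x' w‖) := by
      intro i
      have a1 : eval x (b i) = (ρ : ℂ) ^ d * eval x' (b i) := by
        have := glw_hom (hbd i) (ρ : ℂ) x'
        rwa [← ex] at this
      have a2 : dv (b i) x v = (ρ : ℂ) ^ d * dv (b i) x' w := by
        have := glw_dv_hom hd (hbd i) x' w (ρ : ℂ)
        rwa [← ex, ← ev] at this
      rw [a1, a2, norm_mul, norm_mul, norm_pow, Complex.norm_real, Real.norm_of_nonneg hρ.le]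
      ring
    rw [Finset.prod_congr rfl fun i _ => h3 i, Finset.prod_mul_distrib, Finset.prod_const,
      Finset.card_univ, ← pow_mul]
  have hk := key x' w hnx'
  rw [g1, g2, nv]
  have e6 : ρ + ρ * ‖w‖ = ρ * (1 + ‖w‖) := by ring
  rw [e6, mul_pow]
  have h7 : 0 ≤ ρ ^ α * ρ ^ β * ρ ^ (d * Fintype.card ι) := by positivity
  calc ρ ^ α * ρ ^ β * ‖eval (Sum.elim x' w) G‖ * ρ ^ (d * Fintype.card ι) =
      (ρ ^ α * ρ ^ β * ρ ^ (d * Fintype.card ι)) * ‖eval (Sum.elim x' w) G‖ := by ring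
    _ ≤ (ρ ^ α * ρ ^ β * ρ ^ (d * Fintype.card ι)) *
        (C * (1 + ‖w‖) ^ β * ∏ i, (‖eval x' (b i)‖ + ‖dv (b i) x' w‖)) :=
      mul_le_mul_of_nonneg_left hk h7
    _ = _ := by ring

end Pool.Agent.GH
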