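import Pool.Agent.Lib_MP_b9fedf_gh.BasicB
import Pool.Agent.Lib_MP_b9fedf_gh.BasicA
import Pool.Agent.Lib_MP_b9fedf_qy.DefsY
import Pool.Agent.Lib_MP_b9fedf_ag.Hyper

/-! Hyperbolic complete intersections `y_i ^ d = b_i(x)`. -/

set_option autoImplicit false

namespace Pool.Agent.GH
open MvPolynomial Pool.Agent.GGL Pool.Agent.QY

/-- the equations `y_i ^ d - b_i(x)` of a complete intersection in `ℙ^(n + Q)` -/
noncomputable def ciEq {n Q : ℕ} (d : ℕ) (b : Fin Q → MvPolynomial (Fin (n + 1)) ℂ) (i : Fin Q) :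
    MvPolynomial (Fin (n + 1) ⊕ Fin Q) ℂ :=
  X (Sum.inr i) ^ d - rename Sum.inl (b i)

theorem eval_ciEq {n Q d : ℕ} (b : Fin Q → MvPolynomial (Fin (n + 1)) ℂ) (i : Fin Q)
    (w : Fin (n + 1) ⊕ Fin Q → ℂ) :
    eval w (ciEq d b i) = w (Sum.inr i) ^ d - eval (fun j => w (Sum.inl j)) (b i) := by
  unfold ciEq
  rw [map_sub, map_pow, eval_X, eval_rename]
  rfl

/-- a form of positive degree vanishes at zero -/
theorem eval_zero_hom {n d : ℕ} (hd : 1 ≤ d) (P : MvPolynomial (Fin (n + 1)) ℂ)
    (hP : P.IsHomogeneous d) : eval (fun _ => (0 : ℂ)) P = 0 := by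
  have h1 := norm_eval_le hP (fun _ => (0 : ℂ))
  have h2 : ‖(fun _ => (0 : ℂ) : Fin (n + 1) → ℂ)‖ = 0 := by
    rw [show (fun _ => (0 : ℂ) : Fin (n + 1) → ℂ) = 0 from rfl, norm_zero]
  rw [h2, zero_pow (by omega), mul_zero] at h1
  exact norm_le_zero_iff.mp h1

/-- Smoothness. -/
theorem ci_smooth {n Q d : ℕ} (hd : 2 ≤ d) (b : Fin Q → MvPolynomial (Fin (n + 1)) ℂ)
    (hb : ∀ i, (b i).IsHomogeneous d) (hsnc : Snc b) : SCI (ciEq d b) := by
  classical
  intro w hw h0
  set x : Fin (n + 1) → ℂ := fun j => w (Sum.inl j) with hx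
  have h1 : ∀ i, w (Sum.inr i) ^ d = eval x (b i) := fun i => by
    have h2 := h0 i
    rw [eval_ciEq, sub_eq_zero] at h2
    exact h2
  have hx0 : x ≠ 0 := by
    intro hx0
    apply hw
    funext t
    rcases t with j | i
    · exact congrFun hx0 j
    · have h2 := h1 i
      rw [show x = fun _ => (0 : ℂ) from hx0, eval_zero_hom (by omega) (b i) (hb i)] at h2
      exact pow_eq_zero_iff (by omega) |>.mp h2
  have hpr : ∀ i i' : Fin Q, eval w (pderiv (Sum.inr i') (ciEq d b i)) =
      if i = i' then d * w (Sum.inr i) ^ (d - 1) else 0 := by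
    intro i i'
    unfold ciEq
    have h3 : pderiv (Sum.inr i') (rename (Sum.inl : Fin (n + 1) → Fin (n + 1) ⊕ Fin Q) (b i)) =
        0 := by
      apply pderiv_eq_zero_of_notMem_vars
      intro h4
      have h5 := vars_rename (Sum.inl : Fin (n + 1) → Fin (n + 1) ⊕ Fin Q) (b i) h4
      simp at h5
    rw [map_sub, h3, sub_zero, pderiv_pow, pderiv_X]
    by_cases h6 : i = i'
    · subst h6
      simp
    · rw [if_neg h6]
      have h7 : (Sum.inr i : Fin (n + 1) ⊕ Fin Q) ≠ Sum.inr i' := fun h => h6 (Sum.inr_injective h)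
      simp [h6]
  have hpl : ∀ (i : Fin Q) (j : Fin (n + 1)), eval w (pderiv (Sum.inl j) (ciEq d b i)) =
      - eval x (pderiv j (b i)) := by
    intro i j
    unfold ciEq
    have h3 : pderiv (Sum.inl j) (rename (Sum.inl : Fin (n + 1) → Fin (n + 1) ⊕ Fin Q) (b i)) =
        rename Sum.inl (pderiv j (b i)) := by
      rw [pderiv_rename Sum.inl_injective]
    rw [map_sub, h3, pderiv_pow, pderiv_X]
    have h7 : (Sum.inr i : Fin (n + 1) ⊕ Fin Q) ≠ Sum.inl j := by simp
    rw [map_sub, eval_rename]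
    simp [hx, Function.comp_def]
  rw [Fintype.linearIndependent_iff]
  intro lam hlam
  have e1 : ∀ i', lam i' * (d * w (Sum.inr i') ^ (d - 1)) = 0 := by
    intro i'
    have h3 := congrFun hlam (Sum.inr i')
    simp only [Finset.sum_apply, Pi.smul_apply, smul_eq_mul, Pi.zero_apply, hpr, mul_ite,
      mul_zero] at h3
    rw [Finset.sum_ite_eq' Finset.univ i' (fun i => lam i * (d * w (Sum.inr i) ^ (d - 1)))] at h3
    simpa using h3
  have e2 : ∀ i, eval x (b i) ≠ 0 → lam i = 0 := by
    intro i hi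
    have h3 := e1 i
    rcases mul_eq_zero.1 h3 with h4 | h4
    · exact h4
    · exfalso
      rcases mul_eq_zero.1 h4 with h5 | h5
      · have : (d : ℂ) ≠ 0 := by exact_mod_cast (by omega : d ≠ 0)
        exact this h5
      · apply hi
        rw [← h1 i, pow_eq_zero_iff (by omega) |>.mp h5, zero_pow (by omega)]
  have h4 := hsnc x hx0 (Finset.univ.filter fun i => eval x (b i) = 0) (by
    intro i hi
    exact (Finset.mem_filter.mp hi).2)
  rw [Fintype.linearIndependent_iff] at h4
  have h5 := h4 (fun i => lam i) (by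
    funext j
    have h6 := congrFun hlam (Sum.inl j)
    simp only [Finset.sum_apply, Pi.smul_apply, smul_eq_mul, Pi.zero_apply, hpl] at h6 ⊢
    rw [Finset.sum_coe_sort (Finset.univ.filter fun i => eval x (b i) = 0)
      (fun i => lam i * eval x (pderiv j (b i))), Finset.sum_filter]
    have h7 : ∀ i, (if eval x (b i) = 0 then lam i * eval x (pderiv j (b i)) else 0) =
        - (lam i * - eval x (pderiv j (b i))) := by
      intro i
      split_ifs with h8
      · ring
      · rw [e2 i h8]
        ring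
    rw [Finset.sum_congr rfl fun i _ => h7 i, Finset.sum_neg_distrib, h6, neg_zero])
  intro i
  by_cases hi : eval x (b i) = 0
  · exact h5 ⟨i, Finset.mem_filter.mpr ⟨Finset.mem_univ i, hi⟩⟩
  · exact e2 i hi

/-- No entire curves. -/
theorem ci_const {n Q d : ℕ} (hd : 2 ≤ d) (b : Fin Q → MvPolynomial (Fin (n + 1)) ℂ)
    (hb : ∀ i, (b i).IsHomogeneous d)
    (core : ∀ g : ℂ → Fin (n + 1) → ℂ, Differentiable ℂ g → (∀ z, g z ≠ 0) →
      (∀ i z, analyticOrderAt (fun w => eval (g w) (b i)) z ≠ 1) → ∀ z w, ∃ c : ℂ, g w = c • g z)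
    (f : ℂ → Fin (n + 1) ⊕ Fin Q → ℂ) (hf : Differentiable ℂ f) (hf0 : ∀ z, f z ≠ 0)
    (hfE : ∀ z i, eval (f z) (ciEq d b i) = 0) : ∀ z w, ∃ c : ℂ, f w = c • f z := by
  classical
  set g : ℂ → Fin (n + 1) → ℂ := fun z j => f z (Sum.inl j) with hg
  have hfd : ∀ t, Differentiable ℂ (fun z => f z t) := differentiable_pi.1 hf
  have hgd : Differentiable ℂ g := differentiable_pi.2 fun j => hfd (Sum.inl j)
  have h1 : ∀ z i, f z (Sum.inr i) ^ d = eval (g z) (b i) := fun z i => by
    have h2 := hfE z i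
    rw [eval_ciEq, sub_eq_zero] at h2
    exact h2
  have hg0 : ∀ z, g z ≠ 0 := by
    intro z hz
    apply hf0 z
    funext t
    rcases t with j | i
    · exact congrFun hz j
    · have h2 := h1 z i
      rw [show g z = fun _ => (0 : ℂ) from hz, eval_zero_hom (by omega) (b i) (hb i)] at h2
      exact pow_eq_zero_iff (by omega) |>.mp h2
  have hgc := core g hgd hg0 (by
    intro i z h2
    have h3 : (fun w => eval (g w) (b i)) = (fun w => f w (Sum.inr i)) ^ d := by
      funext w
      rw [Pi.pow_apply]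
      exact (h1 w i).symm
    rw [h3, analyticOrderAt_pow ((hfd (Sum.inr i)).analyticAt z), nsmul_eq_mul] at h2
    cases h4 : analyticOrderAt (fun w => f w (Sum.inr i)) z with
    | top =>
      rw [h4] at h2
      rw [ENat.mul_top (by exact_mod_cast (by omega : d ≠ 0))] at h2
      exact absurd h2 (by simp)
    | coe o =>
      rw [h4] at h2
      have h5 : d * o = 1 := by exact_mod_cast h2
      have h6 := Nat.dvd_one.mp (Dvd.intro _ h5)
      omega)
  -- the factor `λ`
  obtain ⟨k, hk⟩ := Function.ne_iff.1 (hg0 0)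
  rw [Pi.zero_apply] at hk
  have hlam : ∀ z, g z = (g z k / g 0 k) • g 0 := by
    intro z
    obtain ⟨c, hc⟩ := hgc 0 z
    have h2 : g z k = c * g 0 k := congrFun hc k
    rw [h2, mul_div_cancel_right₀ _ hk]
    exact hc
  have hl0 : ∀ z, g z k / g 0 k ≠ 0 := by
    intro z h2
    apply hg0 z
    rw [hlam z, h2, zero_smul]
  have hld : Differentiable ℂ (fun z => g z k / g 0 k) := (hfd (Sum.inl k)).div_const _
  have hy : ∀ i z, f z (Sum.inr i) = (g z k / g 0 k) * f 0 (Sum.inr i) := by
    intro i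
    set u : ℂ → ℂ := fun z => f z (Sum.inr i) / (g z k / g 0 k) with hu
    have hud : Differentiable ℂ u := (hfd (Sum.inr i)).div hld hl0
    have hpow : ∀ z, u z ^ d = u 0 ^ d := by
      intro z
      have h3 : ∀ z, u z ^ d = eval (g 0) (b i) := by
        intro z
        have h4 : eval (g z) (b i) = (g z k / g 0 k) ^ d * eval (g 0) (b i) := by
          conv_lhs => rw [hlam z]
          have h5 := eval_bihom (α := d) (β := 0) (inx_bihom (b i) (hb i)) (g z k / g 0 k) 1
            (g 0) (g 0)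
          rw [eval_inx, eval_inx] at h5
          simpa using h5
        rw [hu]
        simp only
        rw [div_pow, h1 z i, h4, mul_div_cancel_left₀ _ (pow_ne_zero _ (hl0 z))]
      rw [h3 z, h3 0]
    have hder : ∀ z, deriv u z = 0 := by
      intro z
      by_cases hz : u z = 0
      · -- then `u` vanishes identically
        have h6 : u 0 ^ d = 0 := by rw [← hpow z, hz, zero_pow (by omega)]
        have h7 : ∀ w, u w = 0 := by
          intro w
          have := hpow w
          rw [h6] at this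
          exact pow_eq_zero_iff (by omega) |>.mp this
        rw [show u = fun _ => (0 : ℂ) from funext h7]
        exact deriv_const _ _
      · have h6 : HasDerivAt (fun w => u w ^ d) (d * u z ^ (d - 1) * deriv u z) z :=
          (hud z).hasDerivAt.fun_pow d
        have h7 : (fun w => u w ^ d) = fun _ => u 0 ^ d := funext hpow
        rw [h7] at h6
        have h8 := h6.unique (hasDerivAt_const z (u 0 ^ d))
        have h9 : (d : ℂ) ≠ 0 := by exact_mod_cast (by omega : d ≠ 0)
        exact (mul_eq_zero.1 h8).resolve_left (mul_ne_zero h9 (pow_ne_zero _ hz))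
    have hconst : ∀ z, u z = u 0 := fun z => is_const_of_deriv_eq_zero hud hder z 0
    intro z
    have h10 := hconst z
    have h11 : u 0 = f 0 (Sum.inr i) := by
      rw [hu]
      simp only
      rw [div_self hk, div_one]
    rw [h11, hu] at h10
    simp only at h10
    rw [div_eq_iff (hl0 z)] at h10
    rw [h10, mul_comm]
  have hall : ∀ z, f z = (g z k / g 0 k) • f 0 := by
    intro z
    funext t
    rcases t with j | i
    · exact congrFun (hlam z) j
    · exact hy i z
  intro z w
  refine ⟨(g w k / g 0 k) * (g z k / g 0 k)⁻¹, ?_⟩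
  have h12 : (g z k / g 0 k)⁻¹ * (g z k / g 0 k) = 1 := inv_mul_cancel₀ (hl0 z)
  calc f w = (g w k / g 0 k) • f 0 := hall w
    _ = ((g w k / g 0 k) * (g z k / g 0 k)⁻¹) • ((g z k / g 0 k) • f 0) := by
        rw [smul_smul, mul_assoc, h12, mul_one]
    _ = ((g w k / g 0 k) * (g z k / g 0 k)⁻¹) • f z := by
        conv_rhs => rw [hall z]

end Pool.Agent.GH
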