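import Pool.Agent.Lib_MP_b9fedf_gh.Main

/-! `49 n ^ 2` general hypersurfaces. -/

set_option autoImplicit false

namespace Pool.Agent.GH
open MvPolynomial Pool.Agent.GGL Pool.Agent.Stat

theorem choice49 {n d : ℕ} (hn : 1 ≤ n) (hd : 1 ≤ d) :
    ∃ t₁ t₂ : ℕ, 2 ≤ t₁ ∧ 2 ≤ t₂ ∧
      49 * n ^ 2 * ((d - 1) * t₂ + d * t₁) < d * t₁ ^ 2 * t₂ ∧
      2 * er n d t₁ t₂ < d * (49 * n ^ 2 : ℕ) := by
  rcases Nat.lt_or_ge d 2 with h | h
  · obtain rfl : d = 1 := by omega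
    refine ⟨10 * n, 5 * n, by omega, by omega, ?_, ?_⟩
    · have h1 : 0 < n ^ 3 := by positivity
      have h2 : 49 * n ^ 2 * ((1 - 1) * (5 * n) + 1 * (10 * n)) = 490 * n ^ 3 := by ring
      have h3 : 1 * (10 * n) ^ 2 * (5 * n) = 500 * n ^ 3 := by ring
      rw [h2, h3]
      omega
    · have h1 : (1 : ℝ) ≤ n := by exact_mod_cast hn
      unfold er
      push_cast
      nlinarith
  · obtain ⟨e, rfl⟩ : ∃ e, d = e + 2 := ⟨d - 2, by omega⟩
    refine ⟨10 * n, 10 * n, by omega, by omega, ?_, ?_⟩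
    · have h1 : 0 < n ^ 3 := by positivity
      have h2 : 49 * n ^ 2 * ((e + 2 - 1) * (10 * n) + (e + 2) * (10 * n)) =
          490 * n ^ 3 * (2 * e + 3) := by
        rw [show e + 2 - 1 = e + 1 from rfl]
        ring
      have h3 : (e + 2) * (10 * n) ^ 2 * (10 * n) = 500 * n ^ 3 * (2 * e + 4) := by ring
      rw [h2, h3]
      have h4 : 490 * (2 * e + 3) < 500 * (2 * e + 4) := by omega
      calc 490 * n ^ 3 * (2 * e + 3) = n ^ 3 * (490 * (2 * e + 3)) := by ring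
        _ < n ^ 3 * (500 * (2 * e + 4)) := Nat.mul_lt_mul_of_pos_left h4 h1
        _ = 500 * n ^ 3 * (2 * e + 4) := by ring
    · have h1 : (1 : ℝ) ≤ n := by exact_mod_cast hn
      have h2 : (0 : ℝ) ≤ e := Nat.cast_nonneg e
      unfold er
      push_cast
      have h3 : 0 ≤ (e : ℝ) * (n * (29 * n - 4)) := by
        apply mul_nonneg h2
        apply mul_nonneg <;> linarith
      nlinarith

/-- General families of at least `49 n ^ 2` forms of degree `d`: normal crossings, and the first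
`49 n ^ 2` members satisfy `GenF` with a small error term. -/
theorem open49 {n d Q : ℕ} (hn : 1 ≤ n) (hd : 1 ≤ d) (hQ : 49 * n ^ 2 ≤ Q) :
    ∃ S : MvPolynomial (Fin Q × Mon n d) ℚ, S ≠ 0 ∧ ∀ a : Fin Q → Mon n d → ℂ,
      aeval (fun p : Fin Q × Mon n d => a p.1 p.2) S ≠ 0 →
        Snc (fun i => frm (a i)) ∧
        ∃ t₁ t₂ : ℕ, 2 ≤ t₁ ∧ 2 ≤ t₂ ∧ 2 * er n d t₁ t₂ < d * (49 * n ^ 2 : ℕ) ∧
          GenF (n * (d * t₁ - 1)) (n * (t₂ - 1))
            (fun i : Fin (49 * n ^ 2) => frm (a (Fin.castLE hQ i))) ∧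
          Function.Injective (fun i : Fin (49 * n ^ 2) => frm (a (Fin.castLE hQ i))) ∧
          ∀ i : Fin (49 * n ^ 2), frm (a (Fin.castLE hQ i)) ≠ 0 := by
  classical
  obtain ⟨t₁, t₂, ht₁, ht₂, hc, her⟩ := choice49 (n := n) (d := d) hn hd
  obtain ⟨S₁, hS₁, h₁⟩ := snc_open (n := n) hd (Fin Q)
  obtain ⟨S₂, hS₂, h₂⟩ := gh_open hn hd ht₁ ht₂ hc
  set e : Fin (49 * n ^ 2) × Mon n d → Fin Q × Mon n d := fun p => (Fin.castLE hQ p.1, p.2) with he
  have hei : Function.Injective e := by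
    intro p q hpq
    have h3 := congrArg Prod.fst hpq
    have h4 := congrArg Prod.snd hpq
    exact Prod.ext (Fin.castLE_injective hQ h3) h4
  refine ⟨S₁ * rename e S₂, mul_ne_zero hS₁ ?_, fun a ha => ?_⟩
  · intro h0
    apply hS₂
    apply rename_injective e hei
    rw [h0, map_zero]
  rw [map_mul] at ha
  have ha2 := right_ne_zero_of_mul ha
  rw [aeval_rename] at ha2
  obtain ⟨-, h5, h6, h7⟩ := h₂ (fun i => a (Fin.castLE hQ i)) ha2
  exact ⟨h₁ a (left_ne_zero_of_mul ha), t₁, t₂, ht₁, ht₂, her, h5, h6, h7⟩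

end Pool.Agent.GH
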