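import Pool.Agent.Lib_MP_b9fedf_gh.CountB
import Pool.Agent.Lib_MP_b9fedf_gh.CountC
import Pool.Agent.Lib_MP_b9fedf_gh.CountD
import Pool.Agent.Lib_MP_b9fedf_gh.CoprF
import Pool.Agent.Lib_MP_b9fedf_gh.Clear

/-! [GH-L]: the universal form exists. -/

set_option autoImplicit false

namespace Pool.Agent.GH
open MvPolynomial Pool.Agent.GGL

/-- [GH-L] Proof.  Over `F = FractionRing (CR n d ι)`: `inter_ne` for `V = biSpace F n α β` and
`W i = idSpace (map _ (gfr i)) α β`, `finrank_idSpace`, `relPrime_F`, `num_count`, then `clear_univ`. -/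
theorem univ_exists {n d Q t₁ t₂ : ℕ} (hn : 1 ≤ n) (hd : 1 ≤ d) (ht₁ : 2 ≤ t₁) (ht₂ : 2 ≤ t₂)
    (hQ : Q * ((d - 1) * t₂ + d * t₁) < d * t₁ ^ 2 * t₂) {ι : Type} [Fintype ι]
    (hι : Fintype.card ι ≤ Q) :
    ∃ P : MvPolynomial (XV n) (MvPolynomial (ι × Mon n d) ℚ),
      Univ (n * (d * t₁ - 1)) (n * (t₂ - 1)) P := by
  classical
  obtain ⟨e, rfl⟩ : ∃ e, d = e + 1 := ⟨d - 1, by omega⟩
  -- the numbers `p`, `q`
  have h1 : n * (2 * e + 1) ≤ n * ((e + 1) * t₁ - 1) := by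
    apply Nat.mul_le_mul_left
    have : (e + 1) * 2 ≤ (e + 1) * t₁ := Nat.mul_le_mul_left _ ht₁
    omega
  have h2 : 2 * e + 1 ≤ n * (2 * e + 1) := Nat.le_mul_of_pos_left _ hn
  obtain ⟨p, hp⟩ : ∃ p, n * ((e + 1) * t₁ - 1) = p + 2 * e + 1 :=
    ⟨n * ((e + 1) * t₁ - 1) - (2 * e + 1), by omega⟩
  have h3 : n * 1 ≤ n * (t₂ - 1) := Nat.mul_le_mul_left _ (by omega)
  obtain ⟨q, hq⟩ : ∃ q, n * (t₂ - 1) = q + 1 := ⟨n * (t₂ - 1) - 1, by omega⟩
  have hp' : p + 2 * e + 1 + n = n * ((e + 1) * t₁) := by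
    have h4 : 1 ≤ (e + 1) * t₁ := by
      have : (e + 1) * 2 ≤ (e + 1) * t₁ := Nat.mul_le_mul_left _ ht₁
      omega
    obtain ⟨w, hw⟩ : ∃ w, (e + 1) * t₁ = w + 1 := ⟨(e + 1) * t₁ - 1, by omega⟩
    rw [hw] at hp ⊢
    rw [Nat.add_sub_cancel] at hp
    rw [← hp]
    ring
  have hq' : q + 1 + n = n * t₂ := by
    obtain ⟨w, hw⟩ : ∃ w, t₂ = w + 1 := ⟨t₂ - 1, by omega⟩
    rw [hw] at hq ⊢
    rw [Nat.add_sub_cancel] at hq
    rw [← hq]
    ring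
  have hQ' : Q * (e * t₂ + (e + 1) * t₁) < (e + 1) * t₁ ^ 2 * t₂ := by
    simpa using hQ
  obtain ⟨H, hH1, hH2⟩ := num_count hn ht₁ ht₂ hp' hq' hQ'
  rw [hp, hq]
  set F := FractionRing (CR n (e + 1) ι) with hF
  let b : ι → MvPolynomial (Fin (n + 1)) F := fun i =>
    MvPolynomial.map (algebraMap (CR n (e + 1) ι) F) (gfr i)
  have hbh : ∀ i, (b i).IsHomogeneous (e + 1) := fun i =>
    (frm_hom (fun m : Mon n (e + 1) => (X (i, m) : CR n (e + 1) ι))).map _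
  have hb0 : ∀ i, b i ≠ 0 := by
    intro i h0
    apply gfr_ne_zero (n := n) (d := e + 1) i
    apply MvPolynomial.map_injective (algebraMap (CR n (e + 1) ι) F)
      (IsFractionRing.injective (CR n (e + 1) ι) F)
    rw [map_zero]
    exact h0
  have := finite_biSpace F n (p + 2 * e + 1) (q + 1)
  obtain ⟨G, hGV, hG0, hGW⟩ := inter_ne (biSpace F n (p + 2 * e + 1) (q + 1))
    (fun i => idSpace (b i) (p + 2 * e + 1) (q + 1)) (fun i => inf_le_left) H (fun i => by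
      have h5 := finrank_idSpace (p := p) (q := q) (b i) (hbh i) (hb0 i)
        (relPrime_F hn (Nat.le_add_left 1 e) i)
      rw [finrank_biSpace]
      omega) (by
      rw [finrank_biSpace]
      exact lt_of_le_of_lt (Nat.mul_le_mul_right _ hι) hH2)
  obtain ⟨G', hG'0, hG'h, hG'I⟩ := clear_univ (fun i => gfr (n := n) (d := e + 1) i) G hG0
    ((mem_biSpace G).1 hGV) (fun i => ((mem_idSpace (b i) G).1 (hGW i)).2)
  exact ⟨G', hG'0, hG'h, hG'I⟩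

end Pool.Agent.GH
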