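import Pool.Agent.Lib_MP_b9fedf_gh.Global
import Pool.Agent.Lib_MP_b9fedf_gh.CurveB
import Pool.Agent.Lib_MP_b9fedf_gh.SmtKeyH
import Pool.Agent.Lib_MP_b9fedf_gh.GenOpen
import Pool.Agent.Lib_MP_b9fedf_gh.SncOpen
import Pool.Agent.Lib_MP_b9fedf_gh.UnivEx
import Pool.Agent.Lib_MP_b9fedf_ag.Hyper
import Pool.Agent.Lib_MP_b9fedf_lg.SpanRed

/-! The second main theorem with truncation level one for general hypersurfaces. -/

set_option autoImplicit false

namespace Pool.Agent.GH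
open MvPolynomial Filter Metric Real Set Function MeromorphicOn ValueDistribution
open Pool.Agent.GGL Pool.Agent.SQ Pool.Agent.Stat Pool.Agent.LO

theorem Nbar_nonneg (W : ℂ → ℂ) {r : ℝ} (hr : 1 ≤ r) : 0 ≤ Nbar W r := by
  unfold Nbar
  refine finsum_mem_induction (fun x : ℝ => 0 ≤ x) le_rfl (fun x y hx hy => add_nonneg hx hy)
    fun a ha => ?_
  apply Real.log_nonneg
  rw [one_le_div (by positivity)]
  exact max_le hr ha.1

/-- subfamilies of families with normal crossings -/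
theorem Snc.comp {n : ℕ} {ι ι' : Type} {b : ι → MvPolynomial (Fin (n + 1)) ℂ} (h : Snc b)
    (e : ι' → ι) (he : Function.Injective e) : Snc (fun i => b (e i)) := by
  classical
  intro x hx B hB
  have h1 := h x hx (B.map ⟨e, he⟩) (by
    intro i hi
    obtain ⟨j, hj, rfl⟩ := Finset.mem_map.mp hi
    exact hB j hj)
  let u : B → (B.map ⟨e, he⟩ : Finset ι) := fun i => ⟨e i, Finset.mem_map.mpr ⟨i, i.2, rfl⟩⟩
  have hu : Function.Injective u := by
    intro x y hxy
    have h2 := congrArg (fun v : (B.map ⟨e, he⟩ : Finset ι) => (v : ι)) hxy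
    exact Subtype.ext (he h2)
  exact h1.comp u hu

/-- a form in the ideal of a member which contains the curve vanishes along the curve -/
theorem phi_zero {n d : ℕ} (b : MvPolynomial (Fin (n + 1)) ℂ) (hb : b.IsHomogeneous d)
    (f : ℂ → Fin (n + 1) → ℂ) (hf : Differentiable ℂ f) (k : Fin (n + 1))
    (G : MvPolynomial (XV n) ℂ) (hG : InI b G) (h0 : ∀ z, eval (f z) b = 0) (z : ℂ) :
    phi G f k z = 0 := by
  obtain ⟨P, P', rfl⟩ := hG
  have h1 : deriv (fun w => eval (f w) b) z = 0 := by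
    rw [show (fun w => eval (f w) b) = fun _ => (0 : ℂ) from funext h0]
    exact deriv_const _ _
  have h2 : dv b (f z) (tng f k z) = 0 := by
    rw [dv_tng b hb f hf k z, h1, h0 z]
    ring
  unfold phi
  rw [map_add, map_mul, map_mul, eval_inx, eval_dif, h0 z]
  have h3 : ∑ j, eval (f z) (pderiv j b) * tng f k z j = 0 := h2
  rw [h3]
  ring

/-- the second main theorem for families with normal crossings and the forms of `GenF` -/
theorem smt_gh {n d α β : ℕ} {ι : Type} [Fintype ι] [DecidableEq ι] (hd : 1 ≤ d)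
    (b : ι → MvPolynomial (Fin (n + 1)) ℂ) (hb : ∀ i, (b i).IsHomogeneous d) (hsnc : Snc b)
    (hgen : GenF α β b) (f : ℂ → Fin (n + 1) → ℂ) (hf : Differentiable ℂ f)
    (hf0 : ∀ z, f z ≠ 0) (hnc : ¬ ∀ z w, ∃ c : ℂ, f w = c • f z) :
    ∃ (K : ℝ) (E : Set ℝ), MeasureTheory.volume E < ⊤ ∧ ∀ r, 1 ≤ r → r ∉ E →
      ((d : ℝ) * Fintype.card ι - 2 * n * d - α - 2 * β) * charT f r ≤
        ∑ i, Nbar (fun z => eval (f z) (b i)) r +
          K * (Real.posLog (charT f r) + Real.log r + 1) := by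
  classical
  set κ₀ : ℝ := (d : ℝ) * Fintype.card ι - 2 * n * d - α - 2 * β with hκ₀
  rcases lt_or_ge κ₀ 0 with hneg | hκ0
  · refine ⟨|κ₀ * charT f 1|, ∅, by simp, fun r hr _ => ?_⟩
    have h1 := charT_mono hf hf0 one_pos hr
    have h2 : κ₀ * charT f r ≤ κ₀ * charT f 1 := mul_le_mul_of_nonpos_left h1 hneg.le
    have h3 : 0 ≤ ∑ i, Nbar (fun z => eval (f z) (b i)) r :=
      Finset.sum_nonneg fun a _ => Nbar_nonneg _ hr
    have h4 : 0 ≤ Real.posLog (charT f r) := Real.posLog_nonneg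
    have h5 : 0 ≤ Real.log r := Real.log_nonneg hr
    have h6 : |κ₀ * charT f 1| ≤ |κ₀ * charT f 1| * (Real.posLog (charT f r) + Real.log r + 1) :=
      le_mul_of_one_le_right (abs_nonneg _) (by linarith)
    linarith [le_abs_self (κ₀ * charT f 1)]
  obtain ⟨z₀, hz₀⟩ := Pool.Agent.LG.exists_tangent f hf hf0 hnc
  obtain ⟨k, hk⟩ : ∃ k, f z₀ k ≠ 0 := by
    by_contra hcon
    push Not at hcon
    exact hf0 z₀ (funext hcon)
  have hli : LinearIndependent ℂ ![f z₀, tng f k z₀] := by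
    rw [LinearIndependent.pair_iff] at hz₀ ⊢
    intro s t hst
    have h1 : (s - t * deriv (fun w => f w k) z₀) • f z₀ +
        (t * f z₀ k) • (fun j => deriv (fun x => f x j) z₀) = 0 := by
      funext j
      have h2 := congrFun hst j
      simp only [Pi.add_apply, Pi.smul_apply, smul_eq_mul, Pi.zero_apply, tng] at h2 ⊢
      linear_combination h2
    obtain ⟨h3, h4⟩ := hz₀ _ _ h1
    have ht : t = 0 := (mul_eq_zero.1 h4).resolve_right hk
    refine ⟨?_, ht⟩
    rw [ht, zero_mul, sub_zero] at h3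
    exact h3
  obtain ⟨R, G, hR, hGh, hGI, hGne⟩ := hgen (f z₀) (tng f k z₀) hli
  let I : Type := {i : ι // i ∉ R}
  let b' : I → MvPolynomial (Fin (n + 1)) ℂ := fun i => b i
  have hb' : ∀ i, (b' i).IsHomogeneous d := fun i => hb i
  have hsnc' : Snc b' := hsnc.comp Subtype.val Subtype.val_injective
  have hcardI : (Fintype.card ι : ℝ) - 2 * n ≤ Fintype.card I := by
    have h1 : Fintype.card I = Fintype.card ι - R.card := by
      have h2 := Fintype.card_subtype_compl (fun i => i ∈ R)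
      rw [h2, Fintype.card_coe]
    have h2 : R.card ≤ Fintype.card ι := R.card_le_univ
    have h3 : (Fintype.card I : ℝ) = Fintype.card ι - R.card := by
      rw [h1, Nat.cast_sub h2]
    have h4 : (R.card : ℝ) ≤ 2 * n := by exact_mod_cast hR
    rw [h3]
    linarith
  obtain ⟨C, hC0, hC⟩ := global_est hd b' hb' hsnc' G hGh (fun i => hGI i i.2)
  have hest : PtEst d α β C b' G := ⟨hC0, hC⟩
  have hΦ : ∃ z, phi G f k z ≠ 0 := ⟨z₀, hGne⟩
  have hne : ∀ i : I, ∃ z, eval (f z) (b' i) ≠ 0 := by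
    intro i
    by_contra hcon
    push Not at hcon
    exact hGne (phi_zero (b' i) (hb' i) f hf k G (hGI i i.2) hcon z₀)
  -- the bound of the values
  have hle : ∃ KF : ℝ, ∀ (i : I) z, ‖eval (f z) (b' i)‖ ≤ KF * ‖f z‖ ^ d := by
    refine ⟨∑ i : I, ∑ m ∈ (b' i).support, ‖coeff m (b' i)‖, fun i z => ?_⟩
    refine (norm_eval_le (hb' i) (f z)).trans (mul_le_mul_of_nonneg_right ?_ (by positivity))
    exact Finset.single_le_sum (f := fun i : I => ∑ m ∈ (b' i).support, ‖coeff m (b' i)‖)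
      (fun i _ => Finset.sum_nonneg fun m _ => norm_nonneg _) (Finset.mem_univ i)
  obtain ⟨KF, hKF⟩ := hle
  set κ : ℝ := (d : ℝ) * Fintype.card I - α - 2 * β with hκ
  have hκκ : κ₀ ≤ κ := by
    have h1 : (d : ℝ) * (Fintype.card ι - 2 * n) ≤ d * Fintype.card I :=
      mul_le_mul_of_nonneg_left hcardI (Nat.cast_nonneg d)
    rw [hκ₀, hκ]
    nlinarith
  obtain ⟨K, E, hE, hKE⟩ := smt_of_keyH (fun (i : I) z => eval (f z) (b' i))
    (fun i => comp_diff (b' i) f hf) hne f hf hf0 k ⟨z₀, hk⟩ hKF (hκ0.trans hκκ) (by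
      intro Z hZ1 hZ2
      obtain ⟨C', hC'0, hC'⟩ := circ_est b' hb' G hGh hest f hf hf0 k ⟨z₀, hk⟩ hne hΦ Z hZ1 hZ2
      exact ⟨C', hC'0, fun r B hr hB h1 h2 => hC' r B hr hB h1 h2⟩)
  refine ⟨K + (κ - κ₀) * |charT f 1|, E, hE, fun r hr hrE => ?_⟩
  have h1 := hKE r hr hrE
  have h2 := charT_mono hf hf0 one_pos hr
  have h3 := neg_abs_le (charT f 1)
  have h4 : ∑ i : I, Nbar (fun z => eval (f z) (b' i)) r ≤
      ∑ i, Nbar (fun z => eval (f z) (b i)) r := by
    rw [← Finset.sum_subtype (Finset.univ.filter fun i => i ∉ R) (by simp)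
      (fun i => Nbar (fun z => eval (f z) (b i)) r)]
    exact Finset.sum_le_sum_of_subset_of_nonneg (Finset.filter_subset _ _)
      fun a _ _ => Nbar_nonneg _ hr
  set X : ℝ := Real.posLog (charT f r) + Real.log r + 1 with hX
  have hX1 : 1 ≤ X := by
    have h5 : 0 ≤ Real.posLog (charT f r) := Real.posLog_nonneg
    have h6 : 0 ≤ Real.log r := Real.log_nonneg hr
    linarith
  have h5 : 0 ≤ (κ - κ₀) * |charT f 1| := mul_nonneg (by linarith) (abs_nonneg _)
  have h6 : (κ - κ₀) * |charT f 1| ≤ (κ - κ₀) * |charT f 1| * X := le_mul_of_one_le_right h5 hX1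
  have h7 : -((κ - κ₀) * |charT f 1|) ≤ (κ - κ₀) * charT f r := by
    have := mul_le_mul_of_nonneg_left (h3.trans h2) (show 0 ≤ κ - κ₀ by linarith)
    linarith
  have h8 : (K + (κ - κ₀) * |charT f 1|) * X = K * X + (κ - κ₀) * |charT f 1| * X := by ring
  rw [h8]
  have h9 : κ * charT f r = κ₀ * charT f r + (κ - κ₀) * charT f r := by ring
  linarith

end Pool.Agent.GH
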