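import Pool.Agent.Lib_MP_b9fedf_gh.BasicC

/-! [GH-R]: specialisations of the universal form. -/

set_option autoImplicit false

namespace Pool.Agent.GH
open MvPolynomial Pool.Agent.GGL

/-- [GH-R] (`InI.map` for the homomorphism of `spc`, `map_frm`, `aeval_X`) -/
theorem univ_spc {n d α β : ℕ} {ι : Type}
    (G : MvPolynomial (XV n) (MvPolynomial (ι × Mon n d) ℚ)) (hG : Univ α β G)
    (c : ι → Mon n d → ℂ) : BiHom α β (spc c G) ∧ ∀ i, InI (frm (c i)) (spc c G) := by
  obtain ⟨-, hb, hi⟩ := hG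
  refine ⟨?_, fun i => ?_⟩
  · intro m hm
    apply hb
    intro h0
    apply hm
    unfold spc
    rw [coeff_map, h0, map_zero]
  · have h := (hi i).map (aeval (fun p : ι × Mon n d => c p.1 p.2) :
      MvPolynomial (ι × Mon n d) ℚ →ₐ[ℚ] ℂ).toRingHom
    rw [map_frm] at h
    have e : (fun m : Mon n d => (aeval (fun p : ι × Mon n d => c p.1 p.2) :
        MvPolynomial (ι × Mon n d) ℚ →ₐ[ℚ] ℂ).toRingHom (X (i, m))) = c i := by
      funext m
      change aeval (fun p : ι × Mon n d => c p.1 p.2) (X (i, m) : MvPolynomial (ι × Mon n d) ℚ) = _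
      rw [aeval_X]
    rw [e] at h
    exact h

end Pool.Agent.GH
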